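import Pool.Agent.T9h56.MX.Rk

/-! # Vectors orthogonal to the range of the difference of the two wave operators -/

set_option autoImplicit false

open MeasureTheory Filter Topology
open scoped BigOperators ENNReal NNReal InnerProductSpace ComplexConjugate

namespace Pool.Agent.T9h56.MX

open Pool.Agent.H5R2.NB Pool.Agent.H5R2.NBA Pool.Agent.Y662.ERG

variable {ι : Type}

open W6 in
/-- vectors of bounded density -/
theorem core7 (U : ℝ → UG (L2 ι)) (e : L2 ι) (hF : Fam U e) {κ κ' : ℝ} (hκ : κ ≠ κ')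
    {C₁ : ℝ} {η : L2 ι} (hηM : Minf (U κ') C₁ η) (hηa : ACvec (U κ') η)
    (h0 : ∀ (C : ℝ) (ψ ψp ψm : L2 ι), Minf (U κ) C ψ → ACvec (U κ) ψ →
      Tendsto (fun t : ℝ => (U κ').U (-t) ((U κ).U t ψ)) atTop (𝓝 ψp) →
      Tendsto (fun t : ℝ => (U κ').U (-t) ((U κ).U t ψ)) atBot (𝓝 ψm) → ⟪η, ψp - ψm⟫_ℂ = 0) :
    ∀ t, ⟪η, (U κ').U t e⟫_ℂ = 0 := by
  have hWP : St_WP := t_WP
  have hWI : St_WI := t_WI
  -- key vanishing
  have key : ∀ (C0 : ℝ) (ψ0 : L2 ι), Minf (U κ) C0 ψ0 → ACvec (U κ) ψ0 →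
      ∫ s : ℝ, ⟪e, (U κ).U s ψ0⟫_ℂ * ⟪η, (U κ').U (-s) e⟫_ℂ = 0 := by
    intro C0 ψ0 hψ0 hac
    obtain ⟨⟨ψp, hp⟩, ⟨ψm, hm⟩⟩ := hWP ι U e hF κ κ' C0 ψ0 hψ0
    have a3 := h0 C0 ψ0 ψp ψm hψ0 hac hp hm
    have a4 := t_W4 ι U e hF κ κ' C0 C₁ ψ0 ψp ψm η hψ0 hηM hp hm
    rw [a3] at a4
    have a5 : Complex.I * ((κ' - κ : ℝ) : ℂ) ≠ 0 := by
      refine mul_ne_zero Complex.I_ne_zero ?_
      rw [Ne, Complex.ofReal_eq_zero, sub_eq_zero]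
      exact fun h => hκ h.symm
    exact (mul_eq_zero.1 a4.symm).resolve_left a5
  -- the function h
  have hconj : ∀ r : ℝ, ⟪η, (U κ').U (-r) e⟫_ℂ = conj ⟪e, (U κ').U r η⟫_ℂ := by
    intro r
    rw [inner_conj_symm, NN.inner_adj]
  have hcontg : Continuous fun r : ℝ => ⟪e, (U κ').U r η⟫_ℂ :=
    continuous_const.inner ((U κ').cont' η)
  have hconth : Continuous fun r : ℝ => ⟪η, (U κ').U (-r) e⟫_ℂ :=
    continuous_const.inner (((U κ').cont' e).comp continuous_neg)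
  have hfin : (∫⁻ r : ℝ, ‖⟪η, (U κ').U (-r) e⟫_ℂ‖ₑ ^ 2) < ∞ := by
    refine lt_of_le_of_lt ?_ (ENNReal.ofReal_lt_top (r := C₁ * ‖e‖ ^ 2))
    refine le_trans (le_of_eq ?_) (hηM e)
    refine lintegral_congr fun r => ?_
    rw [hconj, RCLike.enorm_conj]
  -- the choice of ψ0
  obtain ⟨⟨ψ0, hψ0t⟩, -⟩ := hWP ι U e hF κ' κ C₁ η hηM
  obtain ⟨-, -, hI3, hI4⟩ := hWI ι (U κ') (U κ) atTop (Or.inl rfl) η ψ0 hψ0t
  have hψ0M := hI3 _ hηM
  have hψ0a : ACvec (U κ) ψ0 := acv_wave (Or.inl rfl) hηa hψ0t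
  have hzero : ∫ r : ℝ, ⟪e, (U κ').U r η⟫_ℂ * ⟪η, (U κ').U (-r) e⟫_ℂ = 0 := by
    refine t_W5 ι U e hF κ κ' _ ψ0 η hψ0M hI4 (fun r => ⟪η, (U κ').U (-r) e⟫_ℂ)
      hconth.measurable hfin ?_
    intro s
    have b := key _ ((U κ).U s ψ0) (minf_shift hψ0M s) (acv_shift hψ0a s)
    rw [← b]
    refine integral_congr_ae (Eventually.of_forall fun r => ?_)
    show ⟪e, (U κ).U (r + s) ψ0⟫_ℂ * _ = ⟪e, (U κ).U r ((U κ).U s ψ0)⟫_ℂ * _
    rw [(U κ).add']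
  -- conclusion
  have hsq : ∀ r : ℝ, ⟪e, (U κ').U r η⟫_ℂ * ⟪η, (U κ').U (-r) e⟫_ℂ =
      ((‖⟪e, (U κ').U r η⟫_ℂ‖ ^ 2 : ℝ) : ℂ) := by
    intro r
    rw [hconj, Complex.mul_conj, Complex.normSq_eq_norm_sq]
  have hreal : ∫ r : ℝ, ‖⟪e, (U κ').U r η⟫_ℂ‖ ^ 2 = 0 := by
    have c1 : ((∫ r : ℝ, ‖⟪e, (U κ').U r η⟫_ℂ‖ ^ 2 : ℝ) : ℂ) = 0 := by
      rw [← integral_complex_ofReal, ← hzero]
      exact integral_congr_ae (Eventually.of_forall fun r => (hsq r).symm)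
    exact_mod_cast c1
  have hcont2 : Continuous fun r : ℝ => ‖⟪e, (U κ').U r η⟫_ℂ‖ ^ 2 := (hcontg.norm).pow 2
  have hint : Integrable (fun r : ℝ => ‖⟪e, (U κ').U r η⟫_ℂ‖ ^ 2) := by
    refine ⟨hcont2.aestronglyMeasurable, ?_⟩
    refine lt_of_le_of_lt (le_of_eq ?_) hfin
    refine lintegral_congr fun r => ?_
    rw [hconj, RCLike.enorm_conj, enorm_pow, enorm_norm]
  have hae := (integral_eq_zero_iff_of_nonneg (fun r => by positivity) hint).1 hreal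
  have hall : (fun r : ℝ => ‖⟪e, (U κ').U r η⟫_ℂ‖ ^ 2) = fun _ => (0 : ℝ) :=
    (Continuous.ae_eq_iff_eq volume hcont2 continuous_const).1 hae
  intro t
  have d1 := congrFun hall (-t)
  have d2 : ⟪e, (U κ').U (-t) η⟫_ℂ = 0 := by
    have := pow_eq_zero_iff (two_ne_zero) |>.1 d1
    exact norm_eq_zero.1 this
  have d3 := hconj (-t)
  rw [neg_neg, d2, map_zero] at d3
  exact d3

/-- an invariant closed subspace: vectors of bounded density are dense -/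
theorem dense_inv {W : UG (L2 ι)} (N : Submodule ℂ (L2 ι)) (hN : IsClosed (N : Set (L2 ι)))
    (hinv : ∀ s, ∀ x ∈ N, W.U s x ∈ N) {φ : L2 ι} (hφ : φ ∈ N) (hac : φ ∈ HAC W) {ε : ℝ}
    (hε : 0 < ε) : ∃ C, ∃ φ' ∈ N, Minf W C φ' ∧ ‖φ - φ'‖ ≤ ε := by
  have : CompleteSpace N := hN.completeSpace_coe
  obtain ⟨ψ, ⟨C, hC⟩, hd⟩ := Metric.mem_closure_iff.1 hac ε hε
  rw [dist_eq_norm] at hd
  have hcomm : ∀ (s : ℝ) (x : L2 ι), N.starProjection (W.U s x) = W.U s (N.starProjection x) := by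
    intro s x
    apply Submodule.eq_starProjection_of_mem_of_inner_eq_zero
    · exact hinv s _ (Submodule.starProjection_apply_mem _ x)
    · intro w hw
      rw [← map_sub, NN.inner_adj]
      exact Submodule.starProjection_inner_eq_zero _ _ (hinv _ _ hw)
  refine ⟨max C 0, N.starProjection ψ, Submodule.starProjection_apply_mem _ _, ?_, ?_⟩
  · intro χ
    have h1 : ∀ t : ℝ, ⟪χ, W.U t (N.starProjection ψ)⟫_ℂ = ⟪N.starProjection χ, W.U t ψ⟫_ℂ := by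
      intro t
      rw [← hcomm, Submodule.inner_starProjection_left_eq_right]
    simp only [h1]
    refine le_trans (hC _) ?_
    apply ENNReal.ofReal_le_ofReal
    have h2 : ‖N.starProjection χ‖ ^ 2 ≤ ‖χ‖ ^ 2 :=
      pow_le_pow_left₀ (norm_nonneg _) (Submodule.norm_starProjection_apply_le _ _) 2
    calc C * ‖N.starProjection χ‖ ^ 2 ≤ max C 0 * ‖N.starProjection χ‖ ^ 2 :=
          mul_le_mul_of_nonneg_right (le_max_left _ _) (sq_nonneg _)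
      _ ≤ max C 0 * ‖χ‖ ^ 2 := mul_le_mul_of_nonneg_left h2 (le_max_right _ _)
  · have h2 : φ = N.starProjection φ := (Submodule.starProjection_eq_self_iff.2 hφ).symm
    calc ‖φ - N.starProjection ψ‖ = ‖N.starProjection (φ - ψ)‖ := by rw [map_sub, ← h2]
      _ ≤ ‖φ - ψ‖ := Submodule.norm_starProjection_apply_le _ _
      _ ≤ ε := hd.le

/-- vectors of the absolutely continuous subspace which are orthogonal to the range of the
difference of the two wave operators are orthogonal to the cyclic subspace -/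
theorem w7 (U : ℝ → UG (L2 ι)) (e : L2 ι) (hF : Fam U e) {κ κ' : ℝ} (hκ : κ ≠ κ')
    (P' : L2 ι →L[ℂ] L2 ι) (hPa : ∀ x, ACvec (U κ') (P' x)) (hP' : ∀ x, ACvec (U κ') x → P' x = x)
    {η : L2 ι} (hη : ACvec (U κ') η)
    (h0 : ∀ (C : ℝ) (ψ ψp ψm : L2 ι), Minf (U κ) C ψ → ACvec (U κ) ψ →
      Tendsto (fun t : ℝ => (U κ').U (-t) ((U κ).U t ψ)) atTop (𝓝 ψp) →
      Tendsto (fun t : ℝ => (U κ').U (-t) ((U κ).U t ψ)) atBot (𝓝 ψm) → ⟪η, ψp - ψm⟫_ℂ = 0) :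
    ∀ t, ⟪η, (U κ').U t e⟫_ℂ = 0 := by
  set D : Set (L2 ι) := {y | ∃ (C : ℝ) (ψ ψp ψm : L2 ι), Minf (U κ) C ψ ∧ ACvec (U κ) ψ ∧
      Tendsto (fun t : ℝ => (U κ').U (-t) ((U κ).U t ψ)) atTop (𝓝 ψp) ∧
      Tendsto (fun t : ℝ => (U κ').U (-t) ((U κ).U t ψ)) atBot (𝓝 ψm) ∧ y = ψp - ψm} with hD
  have hDinv : ∀ s, ∀ y ∈ D, (U κ').U s y ∈ D := by
    rintro s y ⟨C, ψ, ψp, ψm, h1, h2, h3, h4, rfl⟩
    refine ⟨C, (U κ).U s ψ, (U κ').U s ψp, (U κ').U s ψm, W6.minf_shift h1 s, acv_shift h2 s,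
      (t_WI ι (U κ) (U κ') atTop (Or.inl rfl) ψ ψp h3).2.1 s,
      (t_WI ι (U κ) (U κ') atBot (Or.inr rfl) ψ ψm h4).2.1 s, ?_⟩
    rw [map_sub]
  set N1 : Submodule ℂ (L2 ι) := (Submodule.span ℂ D)ᗮ with hN1
  have mem1 : ∀ x, x ∈ N1 ↔ ∀ y ∈ D, ⟪x, y⟫_ℂ = 0 := by
    intro x
    rw [hN1, Submodule.mem_orthogonal']
    constructor
    · intro h y hy
      exact h _ (Submodule.subset_span hy)
    · intro h u hu
      induction hu using Submodule.span_induction with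
      | mem y hy => exact h y hy
      | zero => rw [inner_zero_right]
      | add y z _ _ hy hz => rw [inner_add_right, hy, hz, add_zero]
      | smul a y _ hy => rw [inner_smul_right, hy, mul_zero]
  set N2 : Submodule ℂ (L2 ι) := LinearMap.ker
    ((P' - ContinuousLinearMap.id ℂ (L2 ι) : L2 ι →L[ℂ] L2 ι) : L2 ι →ₗ[ℂ] L2 ι) with hN2
  have mem2 : ∀ x, x ∈ N2 ↔ P' x = x := by
    intro x
    rw [hN2, LinearMap.mem_ker]
    show P' x - x = 0 ↔ _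
    exact sub_eq_zero
  have hc : IsClosed ((N1 ⊓ N2 : Submodule ℂ (L2 ι)) : Set (L2 ι)) := by
    rw [Submodule.coe_inf]
    refine IsClosed.inter (Submodule.isClosed_orthogonal _) ?_
    exact (P' - ContinuousLinearMap.id ℂ (L2 ι)).isClosed_ker
  have hinv : ∀ s, ∀ x ∈ N1 ⊓ N2, (U κ').U s x ∈ N1 ⊓ N2 := by
    intro s x hx
    rw [Submodule.mem_inf, mem1, mem2] at hx ⊢
    constructor
    · intro y hy
      rw [NN.inner_adj]
      exact hx.1 _ (hDinv _ y hy)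
    · apply hP'
      rw [← hx.2]
      exact acv_shift (hPa x) s
  have hηm : η ∈ N1 ⊓ N2 := by
    rw [Submodule.mem_inf, mem1, mem2]
    refine ⟨?_, hP' _ hη⟩
    rintro y ⟨C, ψ, ψp, ψm, h1, h2, h3, h4, rfl⟩
    exact h0 C ψ ψp ψm h1 h2 h3 h4
  intro t
  have hle : ∀ ε : ℝ, 0 < ε → ‖⟪η, (U κ').U t e⟫_ℂ‖ ≤ ε * ‖e‖ := by
    intro ε hε
    obtain ⟨C, φ', hm, hC, hn⟩ := dense_inv (W := U κ') (N1 ⊓ N2) hc hinv hηm (acv_hac hη) hε
    rw [Submodule.mem_inf, mem1, mem2] at hm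
    have h1 := core7 U e hF hκ hC (by rw [← hm.2]; exact hPa φ') (fun C ψ ψp ψm h1 h2 h3 h4 =>
      hm.1 _ ⟨C, ψ, ψp, ψm, h1, h2, h3, h4, rfl⟩) t
    have e2 : ⟪η, (U κ').U t e⟫_ℂ = ⟪η - φ', (U κ').U t e⟫_ℂ := by
      rw [inner_sub_left, h1, sub_zero]
    rw [e2]
    refine (norm_inner_le_norm _ _).trans ?_
    rw [(U κ').norm']
    exact mul_le_mul_of_nonneg_right hn (norm_nonneg _)
  have hle0 : ‖⟪η, (U κ').U t e⟫_ℂ‖ ≤ 0 := by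
    refine le_of_forall_pos_le_add fun δ hδ => ?_
    have h4 := hle (δ / (‖e‖ + 1)) (by positivity)
    rw [zero_add]
    refine h4.trans ?_
    rw [div_mul_eq_mul_div, div_le_iff₀ (by positivity)]
    nlinarith [norm_nonneg e]
  exact norm_le_zero_iff.mp hle0

/-- an operator which is related in both time directions -/
theorem w7_op (U : ℝ → UG (L2 ι)) (e : L2 ι) (hF : Fam U e) {κ κ' : ℝ} (hκ : κ ≠ κ')
    (P' : L2 ι →L[ℂ] L2 ι) (hPa : ∀ x, ACvec (U κ') (P' x)) (hP' : ∀ x, ACvec (U κ') x → P' x = x)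
    {Z Z' : L2 ι →L[ℂ] L2 ι} (h1 : Rel (U κ) (U κ') e atTop Z Z')
    (h2 : Rel (U κ) (U κ') e atBot Z Z') (hs : ∀ x y, ⟪Z' x, y⟫_ℂ = ⟪x, Z' y⟫_ℂ)
    (hPZ : ∀ x, P' (Z' x) = Z' x) (φ : L2 ι) (hφ : ACvec (U κ') φ)
    (ho : ∀ t, ⟪φ, (U κ').U t e⟫_ℂ = 0) : ∀ t, ⟪Z' φ, (U κ').U t e⟫_ℂ = 0 := by
  refine w7 U e hF hκ P' hPa hP' (by rw [← hPZ]; exact hPa _) ?_
  intro C ψ ψp ψm _ h4 h5 h6
  rw [hs, map_sub, inner_sub_right, h1 φ hφ ho ψ ψp h4 h5, h2 φ hφ ho ψ ψm h4 h6, sub_self]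

end Pool.Agent.T9h56.MX
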