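import Pool.Agent.Y662.ERG.Dos
import Pool.Agent.T9h56.MX.W7

/-! # Environments and covariant fields of operators -/

set_option autoImplicit false

open MeasureTheory Filter Topology Set
open scoped ENNReal NNReal InnerProductSpace ComplexConjugate

namespace Pool.Agent.T9h56.MX

open Pool.Agent.TH980.IM Pool.Agent.H5R2 Pool.Agent.Y662.ERG
open Pool.Agent.TH980.IM.PR

section abstract

variable {H : Type} [NormedAddCommGroup H] [InnerProductSpace ℂ H] [CompleteSpace H]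
variable {T : H →L[ℂ] H}

/-- the unitary group of a bounded self-adjoint operator -/
noncomputable def exG (hT : IsSelfAdjoint T) : NB.UG H where
  U := Ex T
  zero' := Ex_zero T
  add' := Ex_add T
  norm' := Ex_norm hT
  cont' x := continuous_iff_continuousAt.2 fun t => (Ex_deriv T t x).continuousAt

end abstract

theorem ug_ext {H : Type} [NormedAddCommGroup H] [InnerProductSpace ℂ H] {W W' : NB.UG H}
    (h : ∀ t u, W.U t u = W'.U t u) : W = W' := by
  obtain ⟨U, a1, a2, a3, a4⟩ := W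
  obtain ⟨U', b1, b2, b3, b4⟩ := W'
  have e : U = U' := by
    funext t
    exact ContinuousLinearMap.ext fun u => h t u
  subst e
  rfl

variable {d : ℕ}

/-- the group of the truncated operator -/
noncomputable def GG' (K : ℝ) (V : Sd d → ℝ) : NB.UG (L2 d) := exG (HV_sa K V)

theorem grp_eq {K : ℝ} {V : Sd d → ℝ} (hV : ∀ x, |V x| ≤ K) {W : NB.UG (L2 d)}
    (hW : NB.IsGrp (-1) (fun x => 2 * d + V x) W) : W = GG' K V :=
  ug_ext fun t u => grp_Ex hV hW t u

theorem acv_iff (K : ℝ) (V : Sd d → ℝ) (u : L2 d) :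
    NBA.ACvec (GG' K V) u ↔ spm (HV_sa K V) u ≪ volume := by
  constructor
  · rintro ⟨m, hm1, hm2, hm3⟩
    have : m = spm (HV_sa K V) u := spm_unique _ u m fun t => hm3 t
    rw [← this]
    exact hm2
  · intro h
    exact ⟨_, inferInstance, h, fun t => Ex_spm _ t u⟩

/-- an environment: a probability space with a potential, translations and resampling of the
origin -/
structure Envr (d : ℕ) (K : ℝ) (ν : Measure ℝ) [IsProbabilityMeasure ν] (X : Type)
    [MeasurableSpace X] (P : Measure X) where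
  pot : X → Sd d → ℝ
  pot_mp : MeasurePreserving pot P (NB.PP d ν)
  sft : Sd d → X → X
  sft_mp : ∀ z, MeasurePreserving (sft z) P P
  sft_pot : ∀ z x, pot (sft z x) = sh z (pot x)
  sft_inv : ∀ z x, sft z (sft (-z) x) = x
  res : X × ℝ → X
  res_mp : MeasurePreserving res (P.prod ν) P
  res_pot : ∀ x r, pot (res (x, r)) = Function.update (pot x) 0 r

variable {K : ℝ} {ν : Measure ℝ} [IsProbabilityMeasure ν] {X : Type} [MeasurableSpace X]
  {P : Measure X}

theorem Envr.bd (En : Envr d K ν X P) (hK : ∀ᵐ r ∂ν, |r| ≤ K) :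
    ∀ᵐ x ∂P, ∀ j, |En.pot x j| ≤ K :=
  En.pot_mp.quasiMeasurePreserving.ae (bd_ae (d := d) hK)

/-- the evolution -/
noncomputable def Envr.W (En : Envr d K ν X P) (x : X) : NB.UG (L2 d) := GG' K (En.pot x)

/-- the projection -/
noncomputable def Envr.Q (En : Envr d K ν X P) (x : X) : L2 d →L[ℂ] L2 d := PA K (En.pot x)

theorem Envr.ex_meas (En : Envr d K ν X P) (hK : ∀ᵐ r ∂ν, |r| ≤ K) (t : ℝ) {h : X → L2 d}
    (hh : AEStronglyMeasurable h P) : AEStronglyMeasurable (fun x => (En.W x).U t (h x)) P := by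
  choose ev hev using fun ω : NB.Site d → ℝ => NB.ALL.a_EX d (-1) (fun x => 2 * d + ω x)
  have h1 : AEStronglyMeasurable (fun x => (ev (En.pot x)).U t (h x)) P :=
    (ev_cont hev).comp_aestronglyMeasurable
      ((En.pot_mp.measurable.stronglyMeasurable.aestronglyMeasurable).prodMk
        ((aestronglyMeasurable_const (b := t)).prodMk hh))
  refine h1.congr ?_
  filter_upwards [En.bd hK] with x hx
  rw [grp_eq hx (hev (En.pot x))]
  rfl

theorem Envr.q_meas (En : Envr d K ν X P) {h : X → L2 d}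
    (hh : AEStronglyMeasurable h P) : AEStronglyMeasurable (fun x => En.Q x (h x)) P := by
  have h1 : ∀ w : L2 d, AEStronglyMeasurable (fun x => En.Q x w) P := by
    intro w
    have h2 : AEStronglyMeasurable (fun ω => PA K ω w) (PP (Sd d) ν) :=
      PA_aesm K ν aestronglyMeasurable_const
    exact h2.comp_measurePreserving En.pot_mp
  refine aesm_of_coord fun j => ?_
  have h2 : ∀ x, (En.Q x (h x)) j = ⟪En.Q x (ee j), h x⟫_ℂ := fun x => by
    unfold Envr.Q
    rw [PA_symm, inner_ee]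
  simp_rw [h2]
  exact ((h1 (ee j)).inner hh).aemeasurable

theorem Envr.w_cov (En : Envr d K ν X P) {z : Sd d} {S : L2 d →L[ℂ] L2 d} (hS : NB.IsShift z S)
    (x : X) (t : ℝ) (u : L2 d) : (En.W (En.sft z x)).U t (S u) = S ((En.W x).U t u) := by
  show Ex (HV K (En.pot (En.sft z x))) t (S u) = S (Ex (HV K (En.pot x)) t u)
  rw [En.sft_pot, Ex_shift K _ z hS]

theorem Envr.q_cov (En : Envr d K ν X P) {z : Sd d} {S : L2 d →L[ℂ] L2 d} (hS : NB.IsShift z S)
    (x : X) (u : L2 d) : En.Q (En.sft z x) (S u) = S (En.Q x u) := by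
  unfold Envr.Q
  rw [En.sft_pot, PA_shift K _ z hS]

theorem Envr.q_w (En : Envr d K ν X P) (x : X) (t : ℝ) (u : L2 d) :
    En.Q x ((En.W x).U t u) = (En.W x).U t (En.Q x u) := PA_Ex K _ t u

/-- bounded covariant measurable fields of self-adjoint operators in the absolutely continuous
subspace -/
structure Fd (En : Envr d K ν X P) (M : ℝ) (Y : X → L2 d →L[ℂ] L2 d) : Prop where
  symm : ∀ x u w, ⟪Y x u, w⟫_ℂ = ⟪u, Y x w⟫_ℂ
  bound : ∀ x u, ‖Y x u‖ ≤ M * ‖u‖
  meas : ∀ ψ : X → L2 d, AEStronglyMeasurable ψ P → AEStronglyMeasurable (fun x => Y x (ψ x)) P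
  cov : ∀ (z : Sd d) (S : L2 d →L[ℂ] L2 d), NB.IsShift z S → ∀ x u,
    Y (En.sft z x) (S u) = S (Y x u)
  proj : ∀ x u, En.Q x (Y x u) = Y x u

variable {En : Envr d K ν X P} {M : ℝ} {Y : X → L2 d →L[ℂ] L2 d}

theorem Fd.nn (h : Fd En M Y) (x : X) : 0 ≤ M := by
  have h1 := h.bound x (NB.dl 0)
  rw [NB.STAT.norm_dl, mul_one] at h1
  exact (norm_nonneg _).trans h1

/-- conjugation by the evolution -/
theorem Fd.cj (hK : ∀ᵐ r ∂ν, |r| ≤ K) (h : Fd En M Y) (s : ℝ) :
    Fd En M (fun x => cj (En.W x) s (Y x)) where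
  symm x u w := by
    rw [cj_apply, cj_apply, NB.NN.inner_adj, neg_neg, h.symm, NB.NN.inner_adj]
  bound x u := by
    rw [cj_apply, (En.W x).norm']
    refine (h.bound x _).trans ?_
    rw [(En.W x).norm']
  meas ψ hψ := by
    simp only [cj_apply]
    exact En.ex_meas hK _ (h.meas _ (En.ex_meas hK _ hψ))
  cov z S hS x u := by
    rw [cj_apply, cj_apply, En.w_cov hS, h.cov z S hS, En.w_cov hS]
  proj x u := by
    rw [cj_apply, En.q_w, h.proj]

/-- finite convex combinations -/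
theorem Fd.cmb (hK : ∀ᵐ r ∂ν, |r| ≤ K) (h : Fd En M Y) {w : ℝ →₀ ℝ} (hw : ∀ s, 0 ≤ w s)
    (hw1 : ∑ s ∈ w.support, w s = 1) : Fd En M (fun x => cmb (En.W x) w (Y x)) := by
  have hap : ∀ x u, MX.cmb (En.W x) w (Y x) u =
      ∑ s ∈ w.support, ((w s : ℝ) : ℂ) • MX.cj (En.W x) s (Y x) u := by
    intro x u
    unfold MX.cmb
    rw [sum_apply]
    rfl
  refine ⟨fun x u v => ?_, fun x u => ?_, fun ψ hψ => ?_, fun z S hS x u => ?_, fun x u => ?_⟩
  · rw [hap, hap, sum_inner, inner_sum]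
    refine Finset.sum_congr rfl fun s _ => ?_
    rw [inner_smul_left, inner_smul_right, (h.cj hK s).symm, Complex.conj_ofReal]
  · rw [hap]
    calc ‖∑ s ∈ w.support, ((w s : ℝ) : ℂ) • MX.cj (En.W x) s (Y x) u‖
        ≤ ∑ s ∈ w.support, w s * (M * ‖u‖) := by
          refine (norm_sum_le _ _).trans (Finset.sum_le_sum fun s _ => ?_)
          rw [norm_smul, Complex.norm_real, Real.norm_of_nonneg (hw s)]
          exact mul_le_mul_of_nonneg_left ((h.cj hK s).bound x u) (hw s)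
      _ = M * ‖u‖ := by rw [← Finset.sum_mul, hw1, one_mul]
  · simp only [hap]
    refine Finset.aestronglyMeasurable_fun_sum _ fun s _ => ?_
    exact ((h.cj hK s).meas ψ hψ).const_smul ((w s : ℝ) : ℂ)
  · rw [hap, hap, map_sum]
    refine Finset.sum_congr rfl fun s _ => ?_
    rw [(h.cj hK s).cov z S hS, map_smul]
  · rw [hap, map_sum]
    refine Finset.sum_congr rfl fun s _ => ?_
    rw [map_smul, (h.cj hK s).proj]

/-- the almost sure strong limit of a sequence of fields -/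
noncomputable def limF (Y : ℕ → X → L2 d →L[ℂ] L2 d) (x : X) : L2 d →L[ℂ] L2 d :=
  open Classical in
  if h : ∃ B : L2 d →L[ℂ] L2 d, ∀ u, Tendsto (fun n => Y n x u) atTop (𝓝 (B u)) then h.choose
  else 0

omit [MeasurableSpace X] in
theorem limF_spec {Y : ℕ → X → L2 d →L[ℂ] L2 d} {x : X}
    (h : ∃ B : L2 d →L[ℂ] L2 d, ∀ u, Tendsto (fun n => Y n x u) atTop (𝓝 (B u))) (u : L2 d) :
    Tendsto (fun n => Y n x u) atTop (𝓝 (limF Y x u)) := by
  have e : limF Y x = h.choose := dif_pos h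
  rw [e]
  exact h.choose_spec u

omit [MeasurableSpace X] in
theorem limF_neg {Y : ℕ → X → L2 d →L[ℂ] L2 d} {x : X}
    (h : ¬ ∃ B : L2 d →L[ℂ] L2 d, ∀ u, Tendsto (fun n => Y n x u) atTop (𝓝 (B u))) :
    limF Y x = 0 := dif_neg h

omit [MeasurableSpace X] in
theorem limF_eq {Y : ℕ → X → L2 d →L[ℂ] L2 d} {x : X} {B : L2 d →L[ℂ] L2 d}
    (h : ∀ u, Tendsto (fun n => Y n x u) atTop (𝓝 (B u))) : limF Y x = B :=
  ContinuousLinearMap.ext fun u => tendsto_nhds_unique (limF_spec ⟨B, h⟩ u) (h u)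

theorem Fd.lim {Y : ℕ → X → L2 d →L[ℂ] L2 d} (hM : 0 ≤ M) (h : ∀ n, Fd En M (Y n))
    (hc : ∀ᵐ x ∂P, ∃ B : L2 d →L[ℂ] L2 d, ∀ u, Tendsto (fun n => Y n x u) atTop (𝓝 (B u))) :
    Fd En M (limF Y) := by
  refine ⟨fun x u v => ?_, fun x u => ?_, fun ψ hψ => ?_, fun z S hS x u => ?_, fun x u => ?_⟩
  · by_cases hx : ∃ B : L2 d →L[ℂ] L2 d, ∀ u, Tendsto (fun n => Y n x u) atTop (𝓝 (B u))
    · have h1 : Tendsto (fun n => ⟪Y n x u, v⟫_ℂ) atTop (𝓝 ⟪limF Y x u, v⟫_ℂ) :=
        (limF_spec hx u).inner tendsto_const_nhds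
      have h2 : Tendsto (fun n => ⟪u, Y n x v⟫_ℂ) atTop (𝓝 ⟪u, limF Y x v⟫_ℂ) :=
        tendsto_const_nhds.inner (limF_spec hx v)
      exact tendsto_nhds_unique h1 (h2.congr fun n => ((h n).symm x u v).symm)
    · rw [limF_neg hx]
      simp
  · by_cases hx : ∃ B : L2 d →L[ℂ] L2 d, ∀ u, Tendsto (fun n => Y n x u) atTop (𝓝 (B u))
    · exact le_of_tendsto (limF_spec hx u).norm (Eventually.of_forall fun n => (h n).bound x u)
    · rw [limF_neg hx]
      simp only [zero_apply, norm_zero]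
      positivity
  · refine aestronglyMeasurable_of_tendsto_ae atTop (fun n => (h n).meas ψ hψ) ?_
    filter_upwards [hc] with x hx
    exact limF_spec hx (ψ x)
  · obtain ⟨S', hS'⟩ := (NB.t_OPS d).1 (-z)
    by_cases hx : ∃ B : L2 d →L[ℂ] L2 d, ∀ u, Tendsto (fun n => Y n x u) atTop (𝓝 (B u))
    · have h1 : ∀ w, Tendsto (fun n => Y n (En.sft z x) w) atTop
          (𝓝 (((S.comp (limF Y x)).comp S') w)) := by
        intro w
        have h2 : w = S (S' w) := (NBA.ZAC.inv1 hS hS' w).symm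
        have h3 := (S.continuous.tendsto _).comp (limF_spec hx (S' w))
        refine h3.congr fun n => ?_
        conv_rhs => rw [h2]
        exact ((h n).cov z S hS x (S' w)).symm
      rw [limF_eq h1]
      show S (limF Y x (S' (S u))) = _
      rw [NBA.ZAC.inv2 hS hS']
    · have hx' : ¬ ∃ B : L2 d →L[ℂ] L2 d, ∀ u,
          Tendsto (fun n => Y n (En.sft z x) u) atTop (𝓝 (B u)) := by
        rintro ⟨B, hB⟩
        apply hx
        refine ⟨(S'.comp B).comp S, fun w => ?_⟩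
        have h3 := (S'.continuous.tendsto _).comp (hB (S w))
        refine h3.congr fun n => ?_
        show S' (Y n (En.sft z x) (S w)) = _
        rw [(h n).cov z S hS, NBA.ZAC.inv2 hS hS']
      rw [limF_neg hx, limF_neg hx']
      simp
  · by_cases hx : ∃ B : L2 d →L[ℂ] L2 d, ∀ u, Tendsto (fun n => Y n x u) atTop (𝓝 (B u))
    · have h1 := ((En.Q x).continuous.tendsto _).comp (limF_spec hx u)
      refine tendsto_nhds_unique (h1.congr fun n => ?_) (limF_spec hx u)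
      exact (h n).proj x u
    · rw [limF_neg hx]
      simp

/-- the action on the unit vectors -/
theorem Fd.at_dl (h : Fd En M Y) (x : X) (z : Sd d) {S : L2 d →L[ℂ] L2 d}
    (hS : NB.IsShift (-z) S) : Y x (NB.dl z) = S (Y (En.sft z x) (NB.dl 0)) := by
  obtain ⟨S', hS'⟩ := (NB.t_OPS d).1 z
  have h1 : S (NB.dl 0) = NB.dl z := NB.LIMB.shift_dl z S hS
  have h2 : S' (NB.dl z) = NB.dl 0 := by
    rw [← h1, NBA.ZAC.inv1 hS' hS]
  rw [← h2, h.cov z S' hS', NBA.ZAC.inv2 hS' hS]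

/-- two fields with the same vector at the origin agree -/
theorem Fd.ext {M' : ℝ} {Y' : X → L2 d →L[ℂ] L2 d} (h : Fd En M Y) (h' : Fd En M' Y')
    (he : ∀ᵐ x ∂P, Y x (NB.dl 0) = Y' x (NB.dl 0)) : ∀ᵐ x ∂P, Y x = Y' x := by
  have h1 : ∀ᵐ x ∂P, ∀ z : Sd d, Y (En.sft z x) (NB.dl 0) = Y' (En.sft z x) (NB.dl 0) := by
    rw [ae_all_iff]
    intro z
    exact (En.sft_mp z).quasiMeasurePreserving.ae he
  filter_upwards [h1] with x hx
  refine ContinuousLinearMap.ext_on (s := Set.range (NB.dl (d := d)))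
    (fun x => NB.LIMB.dl_dense d x) ?_
  rintro _ ⟨z, rfl⟩
  obtain ⟨S, hS⟩ := (NB.t_OPS d).1 (-z)
  rw [h.at_dl x z hS, h'.at_dl x z hS, hx z]

/-- almost sure convergence at the origin implies almost sure strong convergence -/
theorem Fd.conv {Y : ℕ → X → L2 d →L[ℂ] L2 d} (hM : 0 ≤ M) (h : ∀ n, Fd En M (Y n))
    (hc : ∀ᵐ x ∂P, ∃ b, Tendsto (fun n => Y n x (NB.dl 0)) atTop (𝓝 b)) :
    ∀ᵐ x ∂P, ∃ B : L2 d →L[ℂ] L2 d, ∀ u, Tendsto (fun n => Y n x u) atTop (𝓝 (B u)) := by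
  have h1 : ∀ᵐ x ∂P, ∀ z : Sd d, ∃ b,
      Tendsto (fun n => Y n (En.sft z x) (NB.dl 0)) atTop (𝓝 b) := by
    rw [ae_all_iff]
    intro z
    exact (En.sft_mp z).quasiMeasurePreserving.ae hc
  filter_upwards [h1] with x hx
  obtain ⟨B, hB⟩ := NB.LIMB.ext_lim (fun n => Y n x) (fun n => Y n x) M hM
    (fun n u => (h n).bound x u) (fun n u => (h n).bound x u) (Sd d) NB.dl (NB.LIMB.dl_dense d)
    (fun z => by
      obtain ⟨S, hS⟩ := (NB.t_OPS d).1 (-z)
      obtain ⟨b, hb⟩ := hx z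
      have h2 : Tendsto (fun n => Y n x (NB.dl z)) atTop (𝓝 (S b)) :=
        ((S.continuous.tendsto _).comp hb).congr fun n => ((h n).at_dl x z hS).symm
      exact ⟨_, h2, h2⟩)
  exact ⟨B, fun u => (hB u).1⟩

end Pool.Agent.T9h56.MX
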