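import Pool.Agent.T9h56.MX.Tst

/-! # Mixing: the conclusion for the potential -/

set_option autoImplicit false

open MeasureTheory Filter Topology Set
open scoped ENNReal NNReal InnerProductSpace ComplexConjugate

namespace Pool.Agent.T9h56.MX

open Pool.Agent.TH980.IM Pool.Agent.H5R2 Pool.Agent.Y662.ERG
open Pool.Agent.TH980.IM.PR

variable {d : ℕ} {K : ℝ} {ν : Measure ℝ} [IsProbabilityMeasure ν]

/-- the environment given by the potential -/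
noncomputable def envP (d : ℕ) (K : ℝ) (ν : Measure ℝ) [IsProbabilityMeasure ν] :
    Envr d K ν (Sd d → ℝ) (NB.PP d ν) where
  pot := id
  pot_mp := MeasurePreserving.id _
  sft := sh
  sft_mp := mp_sh ν
  sft_pot _ _ := rfl
  sft_inv z x := by
    rw [sh_sh, add_neg_cancel]
    funext y
    simp [sh]
  res p := Function.update p.1 0 p.2
  res_mp := (NB.t_RES d ν).1
  res_pot _ _ := rfl

section env

variable {X : Type} [MeasurableSpace X] {P : Measure X} {En : Envr d K ν X P} {M : ℝ}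
  {Y : X → L2 d →L[ℂ] L2 d}

/-- a field kills the singular subspace -/
theorem Fd.bq (h : Fd En M Y) (x : X) (u : L2 d) : Y x (En.Q x u) = Y x u := by
  refine ext_inner_right ℂ fun w => ?_
  rw [h.symm, En.q_symm, h.proj, ← h.symm]

/-- the compressed observable between states of the absolutely continuous subspace -/
theorem cps_inner {A : X → L2 d →L[ℂ] L2 d} {x : X} {φ ψ : L2 d}
    (hφ : NBA.ACvec (En.W x) φ) (hψ : NBA.ACvec (En.W x) ψ) (s : ℝ) :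
    ⟪φ, MX.cj (En.W x) s (cps En A x) ψ⟫_ℂ =
      ⟪(En.W x).U s φ, A x ((En.W x).U s ψ)⟫_ℂ := by
  rw [cj_apply, ← NB.NN.inner_adj]
  show ⟪(En.W x).U s φ, En.Q x (A x (En.Q x ((En.W x).U s ψ)))⟫_ℂ = _
  rw [← En.q_symm, En.q_of (acv_shift hφ s), En.q_of (acv_shift hψ s)]

/-- the correlation at time `s` does not depend on `s` -/
theorem mic_cyc [IsProbabilityMeasure P] (hK : ∀ᵐ r ∂ν, |r| ≤ K) {A : X → L2 d →L[ℂ] L2 d}
    (hA : ObE En M A) (t s : ℝ) :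
    ∫ x, ⟪(En.W x).U t (En.Q x (NB.dl 0)),
      MX.cj (En.W x) s (cps En A x) (En.Q x (NB.dl 0))⟫_ℂ ∂P =
      ∫ x, ⟪(En.W x).U t (En.Q x (NB.dl 0)), A x (En.Q x (NB.dl 0))⟫_ℂ ∂P := by
  have hY := hA.fd
  have hM : 0 ≤ M := by
    obtain ⟨x⟩ := nonempty_of_isProbabilityMeasure P
    exact hA.nn x
  have key : ∀ s : ℝ, ∫ x, ⟪(En.W x).U t (En.Q x (NB.dl 0)),
      MX.cj (En.W x) s (cps En A x) (En.Q x (NB.dl 0))⟫_ℂ ∂P =
      ∫ x, ⟪cps En A x (NB.dl 0), (En.W x).U (-t) (En.Q x (NB.dl 0))⟫_ℂ ∂P := by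
    intro s
    have h4 := cycl En (A := max M 1)
      (F := fun x => (En.Q x).comp (((En.W x).U t).comp ((En.W x).U s)))
      (G := fun x => (cps En A x).comp ((En.W x).U s))
      (F' := fun x => ((En.W x).U (-s)).comp (((En.W x).U (-t)).comp (En.Q x)))
      (G' := fun x => ((En.W x).U (-s)).comp (cps En A x))
      (fun x u w => by
        show ⟪En.Q x ((En.W x).U t ((En.W x).U s u)), w⟫_ℂ =
          ⟪u, (En.W x).U (-s) ((En.W x).U (-t) (En.Q x w))⟫_ℂ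
        rw [En.q_symm, NB.NN.inner_adj, NB.NN.inner_adj])
      (fun x u w => by
        show ⟪cps En A x ((En.W x).U s u), w⟫_ℂ = ⟪u, (En.W x).U (-s) (cps En A x w)⟫_ℂ
        rw [hY.symm, NB.NN.inner_adj])
      (fun z S hS x u => by
        show (En.W (En.sft z x)).U (-s) ((En.W (En.sft z x)).U (-t) (En.Q (En.sft z x) (S u))) =
          S ((En.W x).U (-s) ((En.W x).U (-t) (En.Q x u)))
        rw [En.q_cov hS, En.w_cov hS, En.w_cov hS])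
      (fun z S hS x u => by
        show (En.W (En.sft z x)).U (-s) (cps En A (En.sft z x) (S u)) =
          S ((En.W x).U (-s) (cps En A x u))
        rw [hY.cov z S hS, En.w_cov hS])
      (fun x => by
        show ‖En.Q x ((En.W x).U t ((En.W x).U s (NB.dl 0)))‖ ≤ _
        refine ((acP_norm _ _).trans ?_).trans (le_max_right _ _)
        rw [(En.W x).norm', (En.W x).norm', NB.STAT.norm_dl])
      (fun x => by
        show ‖cps En A x ((En.W x).U s (NB.dl 0))‖ ≤ _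
        refine (hY.bound x _).trans ?_
        rw [(En.W x).norm', NB.STAT.norm_dl, mul_one]
        exact le_max_left _ _)
      (fun x => by
        show ‖(En.W x).U (-s) ((En.W x).U (-t) (En.Q x (NB.dl 0)))‖ ≤ _
        rw [(En.W x).norm', (En.W x).norm']
        exact ((acP_norm _ _).trans (NB.STAT.norm_dl 0).le).trans (le_max_right _ _))
      (fun x => by
        show ‖(En.W x).U (-s) (cps En A x (NB.dl 0))‖ ≤ _
        rw [(En.W x).norm']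
        exact (hY.b0 x).trans (le_max_left _ _))
      (En.q_meas (En.ex_meas hK t (En.ex_meas hK s aestronglyMeasurable_const)))
      (hY.meas _ (En.ex_meas hK s aestronglyMeasurable_const))
      (En.ex_meas hK _ (En.ex_meas hK _ (En.q_meas aestronglyMeasurable_const)))
      (En.ex_meas hK _ hY.m0)
    have e1 : ∀ x, ⟪(En.W x).U t (En.Q x (NB.dl 0)),
        MX.cj (En.W x) s (cps En A x) (En.Q x (NB.dl 0))⟫_ℂ =
        ⟪((En.Q x).comp (((En.W x).U t).comp ((En.W x).U s))) (NB.dl 0),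
          ((cps En A x).comp ((En.W x).U s)) (NB.dl 0)⟫_ℂ := by
      intro x
      show _ = ⟪En.Q x ((En.W x).U t ((En.W x).U s (NB.dl 0))),
        cps En A x ((En.W x).U s (NB.dl 0))⟫_ℂ
      rw [cj_apply, ← NB.NN.inner_adj, ← (En.W x).add', add_comm s t, (En.W x).add', En.q_w,
        En.q_w, ← En.q_w x s (NB.dl 0), hY.bq]
    have e2 : ∀ x, ⟪(((En.W x).U (-s)).comp (cps En A x)) (NB.dl 0),
        (((En.W x).U (-s)).comp (((En.W x).U (-t)).comp (En.Q x))) (NB.dl 0)⟫_ℂ =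
        ⟪cps En A x (NB.dl 0), (En.W x).U (-t) (En.Q x (NB.dl 0))⟫_ℂ :=
      fun x => NB.NN.inner_pres _ _ _ _
    simp_rw [e1]
    rw [h4]
    simp_rw [e2]
  rw [key s, ← key 0]
  refine integral_congr_ae (ae_of_all _ fun x => ?_)
  have hp : NBA.ACvec (En.W x) (En.Q x (NB.dl 0)) := En.q_acv _ _
  simp only
  rw [cps_inner (acv_shift hp t) hp, (En.W x).zero', (En.W x).zero']

end env

/-- the main theorem -/
theorem main_mix (hd : 1 ≤ d) (hK : ∀ᵐ r ∂ν, |r| ≤ K) (hν : ∀ r : ℝ, ν {r} ≠ 1) :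
    ∃ κ : Measure ℝ, IsFiniteMeasure κ ∧ κ ≪ volume ∧
      (∀ t : ℝ, ∫ ω, ⟪PA K ω (NB.dl 0), Ex (HV K ω) t (PA K ω (NB.dl 0))⟫_ℂ ∂(NB.PP d ν) =
        ∫ E : ℝ, Complex.exp (-(Complex.I * t * E)) ∂κ) ∧
      ∀ (A : (Sd d → ℝ) → L2 d →L[ℂ] L2 d) (M : ℝ), ObE (envP d K ν) M A →
      ∃ (f : ℝ → ℝ) (B : (Sd d → ℝ) → L2 d →L[ℂ] L2 d), Measurable f ∧ (∀ E, |f E| ≤ M) ∧
      Fd (envP d K ν) M B ∧
      (∀ᵐ ω ∂(NB.PP d ν), (∀ x, |ω x| ≤ K) ∧ (∀ x, B ω (HV K ω x) = HV K ω (B ω x)) ∧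
        ∀ ψ, ∀ᵐ E : ℝ, Ngl (HV K ω) E (B ω ψ - ((f E : ℝ) : ℂ) • ψ)) ∧
      (∀ t : ℝ, ∫ ω, ⟪Ex (HV K ω) t (PA K ω (NB.dl 0)), A ω (PA K ω (NB.dl 0))⟫_ℂ ∂(NB.PP d ν) =
        ∫ E : ℝ, Complex.exp (Complex.I * t * E) * f E ∂κ) ∧
      ∀ (φ ψ : (Sd d → ℝ) → L2 d) (R : ℝ), AEStronglyMeasurable φ (NB.PP d ν) →
        AEStronglyMeasurable ψ (NB.PP d ν) → (∀ ω, ‖φ ω‖ ≤ R) → (∀ ω, ‖ψ ω‖ ≤ R) →
        ∀ l : Filter ℝ, (l = atTop ∨ l = atBot) →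
        Tendsto (fun s => ∫ ω, ⟪φ ω, MX.cj ((envP d K ν).W ω) s (cps (envP d K ν) A ω) (ψ ω)⟫_ℂ
          ∂(NB.PP d ν)) l (𝓝 (∫ ω, ⟪φ ω, B ω (ψ ω)⟫_ℂ ∂(NB.PP d ν))) := by
  have hPP : IsProbabilityMeasure (NB.PP d ν) := by unfold NB.PP; infer_instance
  obtain ⟨κ, hκ1, hκ2, hκ⟩ := dos (d := d) K ν
  have hbd := bd_ae (d := d) hK
  obtain ⟨Sg, hSg, hmain⟩ := main_lim (En := envP d K ν) hd hK hν
  refine ⟨κ, hκ1, hκ2, fun t => ?_, fun A M hA => ?_⟩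
  · rw [← hκ (fun E => Complex.exp (-(Complex.I * t * E))) (by fun_prop)
      ⟨1, fun E => by rw [Complex.norm_exp]; simp⟩]
    refine integral_congr_ae (ae_of_all _ fun ω => ?_)
    simp only
    rw [Ex_spm (HV_sa K ω)]
  obtain ⟨B, hB, hC, hlim⟩ := hmain A M hA
  have hM : 0 ≤ M := hA.nn 0
  have hC' : ∀ᵐ ω ∂(NB.PP d ν), (∀ u, B ω (HV K ω u) = HV K ω (B ω u)) ∧
    ∀ᵐ E : ℝ, (∃ g : ℂ, ∀ y : Sd d, Ngl (HV K ω) E (B ω (ee y) - g • ee y)) ∧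
      (E ∉ Sg → ∀ y : Sd d, Ngl (HV K ω) E (ee y)) ∧
      (E ∈ Sg → ∀ y : Sd d, ∃ a : ℝ, 0 < a ∧
        Tendsto (fun k => qn (HV K ω) (zk k E) (ee y)) atTop (𝓝 a)) := hC
  obtain ⟨f, hf1, hf2, hf3⟩ := det_core hd hSg (fun ω => B ω (ee 0)) hB.m0 hM B
    (ae_of_all _ hB.symm) (hC'.mono fun _ h => h.1)
    (ae_of_all _ fun ω => ContinuousLinearMap.opNorm_le_bound _ hM (hB.bound ω))
    (ae_of_all _ fun ω z S hS => hB.at_dl ω z hS) (hC'.mono fun _ h => h.2)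
  have hall : ∀ᵐ ω ∂(NB.PP d ν), (∀ x, |ω x| ≤ K) ∧ (∀ x, B ω (HV K ω x) = HV K ω (B ω x)) ∧
        ∀ ψ, ∀ᵐ E : ℝ, Ngl (HV K ω) E (B ω ψ - ((f E : ℝ) : ℂ) • ψ) := by
    filter_upwards [hbd, hC', hf3] with ω e1 e2 e3
    refine ⟨e1, e2.1, fun ψ => ?_⟩
    refine fib_all (HV_sa K ω) e2.1 (fun E => ((f E : ℝ) : ℂ)) (Dn d) Dn_dense ?_ ψ
    rintro _ ⟨s, c, rfl⟩
    filter_upwards [e3] with E hE
    have h6 : (B ω) (∑ x ∈ s, c x • ee x) - ((f E : ℝ) : ℂ) • ∑ x ∈ s, c x • (ee x : L2 d) =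
        ∑ x ∈ s, c x • ((B ω) (ee x) - ((f E : ℝ) : ℂ) • ee x) := by
      rw [map_sum, Finset.smul_sum, ← Finset.sum_sub_distrib]
      refine Finset.sum_congr rfl fun x _ => ?_
      rw [map_smul, smul_sub, smul_comm]
    rw [h6]
    exact Ngl.sum s fun x _ => (hE x).smul _
  have htst : ∀ (φ ψ : (Sd d → ℝ) → L2 d) (R : ℝ), AEStronglyMeasurable φ (NB.PP d ν) →
        AEStronglyMeasurable ψ (NB.PP d ν) → (∀ ω, ‖φ ω‖ ≤ R) → (∀ ω, ‖ψ ω‖ ≤ R) →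
        ∀ l : Filter ℝ, (l = atTop ∨ l = atBot) →
        Tendsto (fun s => ∫ ω, ⟪φ ω, MX.cj ((envP d K ν).W ω) s (cps (envP d K ν) A ω) (ψ ω)⟫_ℂ
          ∂(NB.PP d ν)) l (𝓝 (∫ ω, ⟪φ ω, B ω (ψ ω)⟫_ℂ ∂(NB.PP d ν))) := by
    intro φ ψ R hφ hψ bφ bψ l hl
    exact Fd.tst (fun s => hA.fd.cj hK s) hB (fun g => hlim l hl g) hφ hψ bφ bψ
  refine ⟨f, B, hf1, hf2, hB, hall, fun t => ?_, htst⟩
  -- the microcanonical formula
  have hp : AEStronglyMeasurable (fun ω => PA K ω (NB.dl 0 : L2 d)) (NB.PP d ν) :=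
    PA_aesm K ν aestronglyMeasurable_const
  have hpn : ∀ ω, ‖PA K ω (NB.dl 0 : L2 d)‖ ≤ 1 := fun ω =>
    (acP_norm _ _).trans (NB.STAT.norm_dl 0).le
  have h1 := htst (fun ω => Ex (HV K ω) t (PA K ω (NB.dl 0))) (fun ω => PA K ω (NB.dl 0)) 1
    (Ex_aesm hK t hp) hp (fun ω => by rw [Ex_norm (HV_sa K ω)]; exact hpn ω) hpn atTop (Or.inl rfl)
  have h2 : ∀ s : ℝ, ∫ ω, ⟪Ex (HV K ω) t (PA K ω (NB.dl 0)),
      MX.cj ((envP d K ν).W ω) s (cps (envP d K ν) A ω) (PA K ω (NB.dl 0))⟫_ℂ ∂(NB.PP d ν) =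
      ∫ ω, ⟪Ex (HV K ω) t (PA K ω (NB.dl 0)), A ω (PA K ω (NB.dl 0))⟫_ℂ ∂(NB.PP d ν) := by
    intro s
    exact mic_cyc (En := envP d K ν) hK hA t s
  have h5 := tendsto_nhds_unique h1 (tendsto_const_nhds.congr fun s => (h2 s).symm)
  rw [← h5, ← hκ (fun E => Complex.exp (Complex.I * t * E) * f E) (by fun_prop)
      ⟨M, fun E => by
        rw [norm_mul, Complex.norm_exp, Complex.norm_real]
        have : (Complex.I * t * E).re = 0 := by simp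
        rw [this, Real.exp_zero, one_mul]
        exact hf2 E⟩]
  refine integral_congr_ae ?_
  filter_upwards [hall] with ω ⟨h1, h2, h3⟩
  exact inner_of_ngl (HV_sa K ω) h2 hf1 hf2 h3 (acP_ac _ _) t

end Pool.Agent.T9h56.MX
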