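import Pool.Agent.T9h56.MX.Sit

/-! # The site argument: conclusion -/

set_option autoImplicit false

open MeasureTheory Filter Topology Set
open scoped ENNReal NNReal InnerProductSpace

namespace Pool.Agent.T9h56.MX

open Pool.Agent.TH980.IM Pool.Agent.H5R2 Pool.Agent.Y662.ERG
open Pool.Agent.TH980.IM.PR

variable {d : ℕ}

theorem nb_back (y : Sd d) (q : Fin d × Bool) : ∃ q', nb (nb y q) q' = y := by
  obtain ⟨i, b⟩ := q
  have ht : ∀ (y : Sd d) (j : Fin d), nb y (j, true) = y + Pi.single j 1 := fun y j => if_pos rfl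
  have hf : ∀ (y : Sd d) (j : Fin d), nb y (j, false) = y - Pi.single j 1 := fun y j =>
    if_neg Bool.false_ne_true
  rcases b with _ | _
  · exact ⟨(i, true), by rw [ht, hf]; simp⟩
  · exact ⟨(i, false), by rw [hf, ht]; simp⟩

theorem nb_conn {S : Set (Sd d)} (h : ∀ y ∈ S, ∀ q, nb y q ∈ S) {y0 : Sd d} (h0 : y0 ∈ S)
    (x : Sd d) : x ∈ S := by
  classical
  have ht : ∀ (y : Sd d) (j : Fin d), nb y (j, true) = y + Pi.single j 1 := fun y j => if_pos rfl
  have hf : ∀ (y : Sd d) (j : Fin d), nb y (j, false) = y - Pi.single j 1 := fun y j =>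
    if_neg Bool.false_ne_true
  have h1 : ∀ x, (if x ∈ S then (1 : ℂ) else 0) = if (0 : Sd d) ∈ S then 1 else 0 := by
    intro x
    refine const_of_step (g := fun x => if x ∈ S then (1 : ℂ) else 0) (fun y i => ?_) x
    have e : y + Pi.single i 1 ∈ S ↔ y ∈ S := by
      constructor
      · intro hy
        have := h _ hy (i, false)
        rw [hf] at this
        simpa using this
      · intro hy
        rw [← ht]
        exact h y hy _
    simp only [e]
  by_contra hx
  have h2 := h1 x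
  have h3 := h1 y0
  rw [if_neg hx] at h2
  rw [if_pos h0, ← h2] at h3
  exact one_ne_zero h3

/-- algebra of the coefficients -/
theorem alg {v a b c : Sd d → ℂ} {E : ℂ} (hv : ∀ y, v y - E ≠ 0)
    (hR0 : ∀ y q, a (nb y q) * (v y - E) = v y * a y - b y)
    (hR1 : ∀ y q, b (nb y q) * (v y - E) = v y * b y - c y) {y0 : Sd d} {q q' : Fin d × Bool}
    (hne : v (nb y0 q) ≠ v (nb y0 q')) (x : Sd d) : b x = E * a x ∧ a x = a y0 := by
  -- the starting point
  have a1 : a (nb y0 q) = a (nb y0 q') :=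
    mul_right_cancel₀ (hv y0) ((hR0 y0 q).trans (hR0 y0 q').symm)
  have b1 : b (nb y0 q) = b (nb y0 q') :=
    mul_right_cancel₀ (hv y0) ((hR1 y0 q).trans (hR1 y0 q').symm)
  obtain ⟨p, hp⟩ := nb_back y0 q
  obtain ⟨p', hp'⟩ := nb_back y0 q'
  have r1 := hR0 (nb y0 q) p
  have r2 := hR0 (nb y0 q') p'
  rw [hp] at r1
  rw [hp', ← a1, ← b1] at r2
  have e1 : (v (nb y0 q) - v (nb y0 q')) * (a y0 - a (nb y0 q)) = 0 := by
    linear_combination r1 - r2
  have e2 : a y0 = a (nb y0 q) := by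
    rcases mul_eq_zero.1 e1 with h | h
    · exact absurd (sub_eq_zero.1 h) hne
    · exact sub_eq_zero.1 h
  have e3 : b y0 = E * a y0 := by
    have r3 := hR0 y0 q
    rw [← e2] at r3
    linear_combination r3
  refine nb_conn (S := {x | b x = E * a x ∧ a x = a y0}) ?_ (y0 := y0) ⟨e3, rfl⟩ x
  rintro y ⟨h1, h2⟩ r
  have r1 := hR0 y r
  have h3 : a (nb y r) = a y := by
    refine mul_right_cancel₀ (hv y) ?_
    rw [r1, h1]
    ring
  obtain ⟨p, hp⟩ := nb_back y r
  have r2 := hR0 (nb y r) p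
  rw [hp] at r2
  refine ⟨?_, h3.trans h2⟩
  rw [h3] at r2 ⊢
  linear_combination r2

theorem HV_symm (K : ℝ) (V : Sd d → ℝ) (x y : L2 d) : ⟪HV K V x, y⟫_ℂ = ⟪x, HV K V y⟫_ℂ :=
  (ContinuousLinearMap.isSelfAdjoint_iff_isSymmetric.1 (HV_sa K V)) x y

/-- an operator of the absolutely continuous subspace which preserves the cyclic subspaces of all
sites is a function of the energy -/
theorem site_main (hd : 1 ≤ d) {K : ℝ} {V : Sd d → ℝ}
    (hneq : ∃ (y : Sd d) (q q' : Fin d × Bool), cl K (V (nb y q)) ≠ cl K (V (nb y q')))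
    {Z : L2 d →L[ℂ] L2 d} (hZs : ∀ x y, ⟪Z x, y⟫_ℂ = ⟪x, Z y⟫_ℂ)
    (hZP : ∀ x, acP (HV_sa K V) (Z x) = Z x)
    (hF : ∀ z : Sd d, ∀ φ, spm (HV_sa K V) φ ≪ volume →
      (∀ t, ⟪φ, Ex (HV K V) t (ee z)⟫_ℂ = 0) → ∀ t, ⟪Z φ, Ex (HV K V) t (ee z)⟫_ℂ = 0)
    {h : Sd d → (Sd d → ℝ) × ℝ → ℂ} {Sg : Set ℝ}
    (h1 : ∀ᵐ E : ℝ, Gen K h V E)
    (h2 : ∀ᵐ E : ℝ, E ∈ Sg → ∀ (i0 : Fin d) (m : ℤ) (n : ℕ) (p : Fin n → Sd d), Lay i0 m p →
      PD (MM h p (V, E)))
    (h3 : ∀ᵐ E : ℝ, E ∉ Sg → ∀ x : Sd d, (h 0 (sh x V, E)).im ≤ 0) :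
    (∀ x, Z (HV K V x) = HV K V (Z x)) ∧
    ∀ᵐ E : ℝ, (∃ g : ℂ, ∀ x, Ngl (HV K V) E (Z (ee x) - g • ee x)) ∧
      (E ∉ Sg → ∀ x, Ngl (HV K V) E (ee x)) ∧
      (E ∈ Sg → ∀ x, ∃ a : ℝ, 0 < a ∧
        Tendsto (fun k => qn (HV K V) (zk k E) (ee x)) atTop (𝓝 a)) := by
  have hsa := HV_sa K V
  set T := HV K V with hT
  have h4 : ∀ᵐ E : ℝ, ∀ (x : Sd d) (m : ℕ), ∃ g : ℂ, Ngl T E (Z ((T ^ m) (ee x)) - g • ee x) := by
    rw [ae_all_iff]
    intro x
    rw [ae_all_iff]
    intro m
    exact coeff_site hsa hZs hZP (ee x) (hF x) m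
  have h5 : ∀ᵐ E : ℝ, ∀ y : Sd d, (2 * d + cl K (V y) : ℝ) ≠ E := by
    rw [ae_all_iff]
    intro y
    have : ∀ᵐ E : ℝ, E ∉ ({(2 * d + cl K (V y) : ℝ)} : Set ℝ) :=
      (Set.countable_singleton _).ae_notMem volume
    filter_upwards [this] with E hE hE2
    exact hE hE2.symm
  have main : ∀ᵐ E : ℝ, (∃ g : ℂ, ∀ x, Ngl T E (Z (ee x) - g • ee x)) ∧
      (∀ x, Ngl T E (Z (T (ee x)) - T (Z (ee x)))) ∧
      (E ∉ Sg → ∀ x, Ngl T E (ee x)) ∧
      (E ∈ Sg → ∀ x, ∃ a : ℝ, 0 < a ∧
        Tendsto (fun k => qn T (zk k E) (ee x)) atTop (𝓝 a)) := by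
    filter_upwards [h1, h2, h3, h4, h5] with E e1 e2 e3 e4 e5
    have hnot : E ∉ Sg → ∀ x, Ngl T E (ee x) := by
      intro hE x
      have t1 : Tendsto (fun k => inner ℂ (ee x) (Pool.Agent.H12R2.And.Rz T (zk k E) (ee x))) atTop
          (𝓝 (h 0 (sh x V, E))) := by
        have := e1 x x
        rw [sub_self] at this
        refine this.congr fun k => ?_
        exact GG_inner K V _ x x
      have t2 := qn_lim hsa t1
      rwa [Real.sqrt_eq_zero_of_nonpos (e3 hE x)] at t2
    have hin : E ∈ Sg → ∀ x, ∃ a : ℝ, 0 < a ∧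
          Tendsto (fun k => qn T (zk k E) (ee x)) atTop (𝓝 a) := by
      intro hE x
      have t1 : Tendsto (fun k => inner ℂ (ee x) (Pool.Agent.H12R2.And.Rz T (zk k E) (ee x))) atTop
          (𝓝 (h 0 (sh x V, E))) := by
        have := e1 x x
        rw [sub_self] at this
        refine this.congr fun k => ?_
        exact GG_inner K V _ x x
      have t2 := qn_lim hsa t1
      refine ⟨_, ?_, t2⟩
      apply Real.sqrt_pos.2
      by_contra hcon
      push Not at hcon
      rw [Real.sqrt_eq_zero_of_nonpos hcon] at t2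
      have hlay : Lay (⟨0, hd⟩ : Fin d) (x ⟨0, hd⟩) (fun _ : Fin 1 => x) :=
        ⟨fun a b _ => Subsingleton.elim a b, fun _ => Or.inl rfl⟩
      have h6 := PD_zero e1 (e2 hE _ _ 1 _ hlay) (s := fun _ => 1) (by simpa using t2) 0
      exact one_ne_zero h6
    choose γ hγ using e4
    have n0 : ∀ x, Ngl T E (Z (ee x) - γ x 0 • ee x) := fun x => hγ x 0
    have n1 : ∀ x, Ngl T E (Z (T (ee x)) - γ x 1 • ee x) := fun x => by
      have := hγ x 1
      rwa [pow_one] at this
    have n2 : ∀ x, Ngl T E (Z (T (T (ee x))) - γ x 2 • ee x) := fun x => hγ x 2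
    have nT : ∀ x, Ngl T E (T (Z (ee x)) - (E : ℂ) • Z (ee x)) := fun x => qn_T hsa _ E
    refine ⟨?_, ?_, hnot, hin⟩
    · by_cases hE : E ∈ Sg
      · obtain ⟨y0, q, q', hq⟩ := hneq
        have hal := alg (v := fun y => ((2 * d + cl K (V y) : ℝ) : ℂ)) (a := fun x => γ x 0)
          (b := fun x => γ x 1) (c := fun x => γ x 2) (E := E)
          (fun y hy => e5 y (by exact_mod_cast sub_eq_zero.1 hy)) ?_ ?_ (y0 := y0) (q := q)
          (q' := q') (fun hh => hq (by
            have h7 : (2 * d + cl K (V (nb y0 q)) : ℝ) = 2 * d + cl K (V (nb y0 q')) := by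
              exact_mod_cast hh
            linarith))
        · refine ⟨γ y0 0, fun x => ?_⟩
          rw [← (hal x).2]
          exact n0 x
        · intro y q
          refine nb_eq ⟨0, hd⟩ e1 (fun m n p hp => e2 hE _ m n p hp) (e5 y)
            (β := fun x => γ x 0) ?_ q
          have e : ∑ q : Fin d × Bool, γ (nb y q) 0 • (ee (nb y q) : L2 d) -
              (((2 * d + cl K (V y) : ℝ) : ℂ) * γ y 0 - γ y 1) • ee y =
              (((2 * d + cl K (V y) : ℝ) : ℂ) • (Z (ee y) - γ y 0 • ee y) -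
                ∑ q : Fin d × Bool, (Z (ee (nb y q)) - γ (nb y q) 0 • ee (nb y q))) -
                (Z (T (ee y)) - γ y 1 • ee y) := by
            rw [hT, HV_nb, map_sub, map_smul, map_sum, Finset.sum_sub_distrib, smul_sub, smul_smul,
              sub_smul]
            abel
          rw [e]
          exact (((n0 y).smul _).sub (Ngl.sum _ fun q _ => n0 _)).sub (n1 y)
        · intro y q
          refine nb_eq ⟨0, hd⟩ e1 (fun m n p hp => e2 hE _ m n p hp) (e5 y)
            (β := fun x => γ x 1) ?_ q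
          have e : ∑ q : Fin d × Bool, γ (nb y q) 1 • (ee (nb y q) : L2 d) -
              (((2 * d + cl K (V y) : ℝ) : ℂ) * γ y 1 - γ y 2) • ee y =
              (((2 * d + cl K (V y) : ℝ) : ℂ) • (Z (T (ee y)) - γ y 1 • ee y) -
                ∑ q : Fin d × Bool, (Z (T (ee (nb y q))) - γ (nb y q) 1 • ee (nb y q))) -
                (Z (T (T (ee y))) - γ y 2 • ee y) := by
            have e6 : Z (T (T (ee y))) = ((2 * d + cl K (V y) : ℝ) : ℂ) • Z (T (ee y)) -
                ∑ q : Fin d × Bool, Z (T (ee (nb y q))) := by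
              conv_lhs => rw [hT, HV_nb]
              rw [map_sub, map_smul, map_sum, map_sub, map_smul, map_sum]
            rw [e6, Finset.sum_sub_distrib, smul_sub, smul_smul, sub_smul]
            abel
          rw [e]
          exact (((n1 y).smul _).sub (Ngl.sum _ fun q _ => n1 _)).sub (n2 y)
      · refine ⟨0, fun x => ?_⟩
        rw [zero_smul, sub_zero]
        have e : Z (ee x) = (Z (ee x) - γ x 0 • ee x) + γ x 0 • ee x := by abel
        rw [e]
        exact (n0 x).add ((hnot hE x).smul _)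
    · intro x
      have key : Ngl T E ((γ x 1 - E * γ x 0) • (ee x : L2 d)) := by
        by_cases hE : E ∈ Sg
        · obtain ⟨y0, q, q', hq⟩ := hneq
          have hal := alg (v := fun y => ((2 * d + cl K (V y) : ℝ) : ℂ)) (a := fun x => γ x 0)
            (b := fun x => γ x 1) (c := fun x => γ x 2) (E := E)
            (fun y hy => e5 y (by exact_mod_cast sub_eq_zero.1 hy)) ?_ ?_ (y0 := y0) (q := q)
            (q' := q') (fun hh => hq (by
              have h7 : (2 * d + cl K (V (nb y0 q)) : ℝ) = 2 * d + cl K (V (nb y0 q')) := by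
                exact_mod_cast hh
              linarith)) x
          · have hal1 : γ x 1 = E * γ x 0 := hal.1
            rw [hal1, sub_self, zero_smul]
            exact Ngl.zero E
          · intro y q
            refine nb_eq ⟨0, hd⟩ e1 (fun m n p hp => e2 hE _ m n p hp) (e5 y)
              (β := fun x => γ x 0) ?_ q
            have e : ∑ q : Fin d × Bool, γ (nb y q) 0 • (ee (nb y q) : L2 d) -
                (((2 * d + cl K (V y) : ℝ) : ℂ) * γ y 0 - γ y 1) • ee y =
                (((2 * d + cl K (V y) : ℝ) : ℂ) • (Z (ee y) - γ y 0 • ee y) -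
                  ∑ q : Fin d × Bool, (Z (ee (nb y q)) - γ (nb y q) 0 • ee (nb y q))) -
                  (Z (T (ee y)) - γ y 1 • ee y) := by
              rw [hT, HV_nb, map_sub, map_smul, map_sum, Finset.sum_sub_distrib, smul_sub,
                smul_smul, sub_smul]
              abel
            rw [e]
            exact (((n0 y).smul _).sub (Ngl.sum _ fun q _ => n0 _)).sub (n1 y)
          · intro y q
            refine nb_eq ⟨0, hd⟩ e1 (fun m n p hp => e2 hE _ m n p hp) (e5 y)
              (β := fun x => γ x 1) ?_ q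
            have e : ∑ q : Fin d × Bool, γ (nb y q) 1 • (ee (nb y q) : L2 d) -
                (((2 * d + cl K (V y) : ℝ) : ℂ) * γ y 1 - γ y 2) • ee y =
                (((2 * d + cl K (V y) : ℝ) : ℂ) • (Z (T (ee y)) - γ y 1 • ee y) -
                  ∑ q : Fin d × Bool, (Z (T (ee (nb y q))) - γ (nb y q) 1 • ee (nb y q))) -
                  (Z (T (T (ee y))) - γ y 2 • ee y) := by
              have e6 : Z (T (T (ee y))) = ((2 * d + cl K (V y) : ℝ) : ℂ) • Z (T (ee y)) -
                  ∑ q : Fin d × Bool, Z (T (ee (nb y q))) := by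
                conv_lhs => rw [hT, HV_nb]
                rw [map_sub, map_smul, map_sum, map_sub, map_smul, map_sum]
              rw [e6, Finset.sum_sub_distrib, smul_sub, smul_smul, sub_smul]
              abel
            rw [e]
            exact (((n1 y).smul _).sub (Ngl.sum _ fun q _ => n1 _)).sub (n2 y)
        · exact (hnot hE x).smul _
      have e : Z (T (ee x)) - T (Z (ee x)) = ((Z (T (ee x)) - γ x 1 • ee x) -
          (T (Z (ee x)) - (E : ℂ) • Z (ee x)) - (E : ℂ) • (Z (ee x) - γ x 0 • ee x)) +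
          (γ x 1 - E * γ x 0) • ee x := by
        rw [smul_sub, smul_smul, sub_smul]
        abel
      rw [e]
      exact (((n1 x).sub (nT x)).sub ((n0 x).smul _)).add key
  refine ⟨?_, main.mono fun E hE => ⟨hE.1, hE.2.2⟩⟩
  -- commutation
  have hcom : ∀ x : Sd d, Z (T (ee x)) = T (Z (ee x)) := by
    intro x
    rw [← sub_eq_zero]
    refine zero_of_ngl hsa ?_ (main.mono fun E hE => hE.2.1 x)
    rw [map_sub, hZP, acP_comm hsa (C := T) (C' := T) (fun _ => rfl) (fun _ => rfl)
      (HV_symm K V), hZP]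
  have hext : Z.comp T = T.comp Z := by
    refine ContinuousLinearMap.ext_on (s := Set.range (NB.dl (d := d)))
      (fun x => NB.LIMB.dl_dense d x) ?_
    rintro _ ⟨z, rfl⟩
    exact hcom z
  intro x
  exact congrArg (fun A : L2 d →L[ℂ] L2 d => A x) hext

/-- the potential is almost surely not constant on the neighbours of all sites -/
theorem ae_neq (hd : 1 ≤ d) {K : ℝ} {ν : Measure ℝ} [IsProbabilityMeasure ν]
    (hK : ∀ᵐ r ∂ν, |r| ≤ K) (hν : ∀ r : ℝ, ν {r} ≠ 1) :
    ∀ᵐ V ∂(NB.PP d ν), ∃ (y : Sd d) (q q' : Fin d × Bool),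
      cl K (V (nb y q)) ≠ cl K (V (nb y q')) := by
  haveI : Nonempty (Fin d) := ⟨⟨0, hd⟩⟩
  haveI : Infinite (Sd d) := Pi.infinite_of_right
  have hPP : IsProbabilityMeasure (PP (Sd d) ν) := by unfold PP; infer_instance
  set i : Fin d := ⟨0, hd⟩ with hi
  set N : Set (Sd d → ℝ) := {V | ∃ y : Sd d, V (y + Pi.single i 1) ≠ V (y - Pi.single i 1)} with hN
  have hNm : MeasurableSet N := by
    have : N = ⋃ y : Sd d, {V : Sd d → ℝ | V (y + Pi.single i 1) ≠ V (y - Pi.single i 1)} := by
      ext V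
      simp [hN]
    rw [this]
    refine MeasurableSet.iUnion fun y => ?_
    exact (measurableSet_eq_fun (f := fun V : Sd d → ℝ => V (y + Pi.single i 1))
      (g := fun V : Sd d → ℝ => V (y - Pi.single i 1)) (measurable_pi_apply _)
      (measurable_pi_apply _)).compl
  have hinv : ∀ x, sh x ⁻¹' N = N := by
    intro x
    ext V
    simp only [mem_preimage, hN, mem_setOf_eq, sh]
    constructor
    · rintro ⟨y, hy⟩
      refine ⟨y + x, ?_⟩
      have e1 : y + x + Pi.single i 1 = y + Pi.single i 1 + x := by abel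
      have e2 : y + x - Pi.single i 1 = y - Pi.single i 1 + x := by abel
      rwa [e1, e2]
    · rintro ⟨y, hy⟩
      refine ⟨y - x, ?_⟩
      have e1 : y - x + Pi.single i 1 + x = y + Pi.single i 1 := by abel
      have e2 : y - x - Pi.single i 1 + x = y - Pi.single i 1 := by abel
      rwa [e1, e2]
  have hbd : ∀ᵐ V ∂(NB.PP d ν), ∀ x, |V x| ≤ K := bd_ae (d := d) hK
  rcases zero_one ν hNm hinv with h0 | h1
  · exfalso
    have h2 : PP (Sd d) ν N = 0 := by
      rw [measureReal_def, ENNReal.toReal_eq_zero_iff] at h0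
      rcases h0 with h0 | h0
      · exact h0
      · exact absurd h0 (measure_ne_top _ _)
    have h3 : ∀ᵐ V ∂(NB.PP d ν), V ∉ N := measure_eq_zero_iff_ae_notMem.1 h2
    have h4 : ∀ᵐ p ∂((NB.PP d ν).prod ν), Function.update p.1 0 p.2 ∉ N :=
      (NB.t_RES d ν).1.quasiMeasurePreserving.ae h3
    haveI : IsProbabilityMeasure (NB.PP d ν) := hPP
    obtain ⟨V, hV⟩ := (Measure.ae_ae_of_ae_prod h4).exists
    set s : Sd d := Pi.single i 1 + Pi.single i 1 with hs
    have hs0 : s ≠ 0 := by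
      intro h
      have := congrFun h i
      rw [hs, Pi.add_apply, Pi.single_eq_same] at this
      norm_num at this
    have h5 : ∀ᵐ r ∂ν, r = V s := by
      filter_upwards [hV] with r hr
      by_contra hne
      apply hr
      refine ⟨Pi.single i 1, ?_⟩
      rw [sub_self, ← hs, Function.update_self, Function.update_of_ne hs0]
      exact fun h => hne h.symm
    apply hν (V s)
    rw [← prob_compl_eq_zero_iff (measurableSet_singleton _)]
    exact h5
  · have h2 : PP (Sd d) ν Nᶜ = 0 := by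
      rw [prob_compl_eq_zero_iff hNm]
      rw [measureReal_def] at h1
      rw [← ENNReal.ofReal_toReal (measure_ne_top (PP (Sd d) ν) N), h1, ENNReal.ofReal_one]
    have h3 : ∀ᵐ V ∂(NB.PP d ν), V ∉ Nᶜ := measure_eq_zero_iff_ae_notMem.1 h2
    filter_upwards [h3, hbd] with V hV hb
    obtain ⟨y, hy⟩ : V ∈ N := not_not.1 hV
    refine ⟨y, (i, true), (i, false), ?_⟩
    have e1 : nb y (i, true) = y + Pi.single i 1 := if_pos rfl
    have e2 : nb y (i, false) = y - Pi.single i 1 := if_neg Bool.false_ne_true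
    rw [e1, e2, cl_eq (hb _), cl_eq (hb _)]
    exact hy

end Pool.Agent.T9h56.MX
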