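import Pool.Agent.T9h56.MX.Per
import Pool.Agent.T9h56.MX.Sit2

/-! # The limits are invariant, and equal -/

set_option autoImplicit false

open MeasureTheory Filter Topology Set
open scoped ENNReal NNReal InnerProductSpace ComplexConjugate

namespace Pool.Agent.T9h56.MX

open Pool.Agent.TH980.IM Pool.Agent.H5R2 Pool.Agent.Y662.ERG
open Pool.Agent.TH980.IM.PR

variable {d : ℕ} {K : ℝ} {ν : Measure ℝ} [IsProbabilityMeasure ν] {X : Type} [MeasurableSpace X]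
  {P : Measure X} [IsProbabilityMeasure P] {En : Envr d K ν X P} {M : ℝ}
  {Y : X → L2 d →L[ℂ] L2 d}

omit [IsProbabilityMeasure P] in
theorem cj_cj (En : Envr d K ν X P) (Y : X → L2 d →L[ℂ] L2 d) (a b : ℝ) (x : X) :
    MX.cj (En.W x) a (MX.cj (En.W x) b (Y x)) = MX.cj (En.W x) (a + b) (Y x) := by
  ext1 u
  rw [cj_apply, cj_apply, cj_apply, ← (En.W x).add', ← (En.W x).add', neg_add, add_comm b a]

theorem xi_zero (En : Envr d K ν X P) (Y : X → L2 d →L[ℂ] L2 d) : xi En Y 0 = vec P Y := by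
  unfold xi
  congr 1
  funext x
  ext1 u
  rw [cj_apply, neg_zero, (En.W x).zero', (En.W x).zero']

/-- common shift of time -/
theorem xi_inner (hK : ∀ᵐ r ∂ν, |r| ≤ K) {M' : ℝ} {Y' : X → L2 d →L[ℂ] L2 d} (h : Fd En M Y)
    (h' : Fd En M' Y') (a b c : ℝ) :
    ⟪xi En Y (c + a), xi En Y' (c + b)⟫_ℂ = ⟪xi En Y a, xi En Y' b⟫_ℂ := by
  unfold xi
  rw [(h.cj hK _).inner_vec (h'.cj hK _), (h.cj hK _).inner_vec (h'.cj hK _)]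
  rw [← (h.cj hK a).inv hK (h'.cj hK b) c]
  refine integral_congr_ae (ae_of_all _ fun x => ?_)
  simp only
  rw [cj_cj, cj_cj]

theorem xi_move (hK : ∀ᵐ r ∂ν, |r| ≤ K) {M' : ℝ} {Y' : X → L2 d →L[ℂ] L2 d} (h : Fd En M Y)
    (h' : Fd En M' Y') (s : ℝ) :
    ⟪vec P Y, xi En Y' (-s)⟫_ℂ = ⟪xi En Y s, vec P Y'⟫_ℂ := by
  have h1 := xi_inner hK h h' 0 (-s) s
  rw [add_zero, add_neg_cancel, xi_zero, xi_zero] at h1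
  exact h1.symm

theorem xi_norm (hK : ∀ᵐ r ∂ν, |r| ≤ K) (h : Fd En M Y) (s : ℝ) : ‖xi En Y s‖ = ‖vec P Y‖ :=
  h.norm_cj hK s

/-- conjugation of limits -/
theorem conj_lim {H : Type} [NormedAddCommGroup H] [InnerProductSpace ℂ H] {l : Filter ℝ}
    {ξ : ℝ → H} {y g : H} (h : Tendsto (fun s => ⟪g, ξ s⟫_ℂ) l (𝓝 ⟪g, y⟫_ℂ)) :
    Tendsto (fun s => ⟪ξ s, g⟫_ℂ) l (𝓝 ⟪y, g⟫_ℂ) := by
  have h1 := (Complex.continuous_conj.tendsto _).comp h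
  rw [inner_conj_symm] at h1
  refine h1.congr fun s => ?_
  show conj ⟪g, ξ s⟫_ℂ = _
  rw [inner_conj_symm]

/-- the two iterated limits agree -/
theorem iter_eq (hK : ∀ᵐ r ∂ν, |r| ≤ K) {Y0 Y₁ Y₂ Z₁ Z₂ : X → L2 d →L[ℂ] L2 d} (h0 : Fd En M Y0)
    (𝒰 : Ultrafilter ℝ) {lt lt' lt'' lt''' : Filter ℝ}
    (h1 : IsLm En M 𝒰 lt Y0 Y₁) (h2 : IsLm En M (𝒰.map Neg.neg : Ultrafilter ℝ) lt' Y0 Y₂)
    (h3 : IsLm En M (𝒰.map Neg.neg : Ultrafilter ℝ) lt'' Y₁ Z₁) (h4 : IsLm En M 𝒰 lt''' Y₂ Z₂) :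
    ∀ᵐ x ∂P, Z₁ x = Z₂ x := by
  have key : ∀ G : X → L2 d →L[ℂ] L2 d, Fd En M G → ⟪vec P G, vec P Z₁⟫_ℂ =
      ⟪vec P G, vec P Z₂⟫_ℂ := by
    intro G hG
    obtain ⟨g, -, hg⟩ := weak_lim 𝒰 (xi En G) M fun s => (hG.cj hK s).norm_vec
    have a1 : ⟪vec P G, vec P Z₁⟫_ℂ = ⟪g, vec P Y₁⟫_ℂ := by
      have b1 : Tendsto (fun s => ⟪vec P G, xi En Y₁ (-s)⟫_ℂ) 𝒰 (𝓝 ⟪vec P G, vec P Z₁⟫_ℂ) :=
        (h3.weak (vec P G)).comp tendsto_map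
      have b2 : Tendsto (fun s => ⟪xi En G s, vec P Y₁⟫_ℂ) 𝒰 (𝓝 ⟪g, vec P Y₁⟫_ℂ) :=
        conj_lim (hg _)
      exact tendsto_nhds_unique b1 (b2.congr fun s => (xi_move hK hG h1.fd s).symm)
    have a2 : ∀ s, ⟪xi En G (-s), vec P Y₂⟫_ℂ = ⟪g, xi En Y0 s⟫_ℂ := by
      intro s
      have b1 : Tendsto (fun t => ⟪xi En G (-s), xi En Y0 (-t)⟫_ℂ) 𝒰
          (𝓝 ⟪xi En G (-s), vec P Y₂⟫_ℂ) := (h2.weak _).comp tendsto_map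
      have b2 : Tendsto (fun t => ⟪xi En G t, xi En Y0 s⟫_ℂ) 𝒰 (𝓝 ⟪g, xi En Y0 s⟫_ℂ) :=
        conj_lim (hg _)
      refine tendsto_nhds_unique b1 (b2.congr fun t => ?_)
      have h := xi_inner hK hG h0 (-s) (-t) (s + t)
      have e1 : s + t + -s = t := by ring
      have e2 : s + t + -t = s := by ring
      rw [e1, e2] at h
      exact h
    have a3 : ⟪vec P G, vec P Z₂⟫_ℂ = ⟪g, vec P Y₁⟫_ℂ := by
      have b1 : Tendsto (fun s => ⟪vec P G, xi En Y₂ s⟫_ℂ) 𝒰 (𝓝 ⟪vec P G, vec P Z₂⟫_ℂ) :=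
        h4.weak (vec P G)
      refine tendsto_nhds_unique b1 ((h1.weak g).congr fun s => ?_)
      have h := xi_move hK hG h2.fd (-s)
      rw [neg_neg] at h
      rw [h, a2]
    rw [a1, a3]
  have h5 : vec P Z₁ = vec P Z₂ := by
    rw [← sub_eq_zero, ← inner_self_eq_zero (𝕜 := ℂ), inner_sub_left, inner_sub_right,
      inner_sub_right, key Z₁ h3.fd, key Z₂ h4.fd]
    ring
  exact h3.fd.vec_inj h4.fd h5

omit [IsProbabilityMeasure P] in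
theorem RelA.congr {lw : Filter ℝ} {Y Z : X → L2 d →L[ℂ] L2 d} (h : RelA En lw Y)
    (he : ∀ᵐ x ∂P, Z x = Y x) : RelA En lw Z := by
  have h1 : ∀ᵐ p ∂(P.prod ν), Z (En.res p) = Y (En.res p) :=
    En.res_mp.quasiMeasurePreserving.ae he
  have h2 : ∀ᵐ p ∂(P.prod ν), Z p.1 = Y p.1 :=
    Measure.quasiMeasurePreserving_fst.ae he
  unfold RelA at h ⊢
  filter_upwards [h, h1, h2] with p e1 e2 e3
  rw [e2, e3]
  exact e1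

/-- the coefficient of the field -/
def Cst (En : Envr d K ν X P) (Sg : Set ℝ) (Z : X → L2 d →L[ℂ] L2 d) : Prop :=
  ∀ᵐ x ∂P, (∀ u, Z x (HV K (En.pot x) u) = HV K (En.pot x) (Z x u)) ∧
    ∀ᵐ E : ℝ, (∃ g : ℂ, ∀ y : Sd d, Ngl (HV K (En.pot x)) E (Z x (ee y) - g • ee y)) ∧
      (E ∉ Sg → ∀ y : Sd d, Ngl (HV K (En.pot x)) E (ee y)) ∧
      (E ∈ Sg → ∀ y : Sd d, ∃ a : ℝ, 0 < a ∧
        Tendsto (fun k => qn (HV K (En.pot x)) (zk k E) (ee y)) atTop (𝓝 a))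

/-- fields related in both directions are functions of the energy -/
theorem cst_of (hd : 1 ≤ d) (hK : ∀ᵐ r ∂ν, |r| ≤ K) (hν : ∀ r : ℝ, ν {r} ≠ 1) :
    ∃ Sg : Set ℝ, MeasurableSet Sg ∧ ∀ (Z : X → L2 d →L[ℂ] L2 d) (M : ℝ), Fd En M Z →
      RelA En atTop Z → RelA En atBot Z → Cst En Sg Z := by
  obtain ⟨h, Sg, hSg, hm, hcore⟩ := all_core (d := d) hd hK hν
  refine ⟨Sg, hSg, fun Z M hZ h1 h2 => ?_⟩
  have hc : ∀ᵐ x ∂P, (∀ᵐ E : ℝ, Gen K h (En.pot x) E) ∧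
        (∀ᵐ E : ℝ, E ∉ Sg → ∀ y : Sd d, (h 0 (sh y (En.pot x), E)).im ≤ 0) ∧
        ∀ᵐ E : ℝ, E ∈ Sg → ∀ (i0 : Fin d) (m : ℤ) (n : ℕ) (p : Fin n → Sd d), Lay i0 m p →
          PD (MM h p (En.pot x, E)) := En.pot_mp.quasiMeasurePreserving.ae hcore
  have hn := En.pot_mp.quasiMeasurePreserving.ae (ae_neq hd hK hν)
  unfold Cst
  filter_upwards [hc, hn, ort_all hK hν hZ h1 h2] with x ⟨c1, c2, c3⟩ hneq ho
  refine site_main hd hneq (hZ.symm x) (hZ.proj x) (fun z φ hφ hφ2 t => ?_) c1 c3 c2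
  exact ho z φ ((acv_iff K _ _).2 hφ) hφ2 t

omit [IsProbabilityMeasure P] in
theorem cj_of_comm {x : X} {Z : L2 d →L[ℂ] L2 d}
    (h : ∀ u, Z (HV K (En.pot x) u) = HV K (En.pot x) (Z u)) (s : ℝ) :
    MX.cj (En.W x) s Z = Z := by
  have h1 : Commute Z (HV K (En.pot x)) := ContinuousLinearMap.ext h
  have h2 : Commute Z (Ex (HV K (En.pot x)) s) := ((h1.smul_right _).smul_right _).exp_right
  ext1 u
  have h3 : Z (Ex (HV K (En.pot x)) s u) = Ex (HV K (En.pot x)) s (Z u) :=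
    congrArg (fun A : L2 d →L[ℂ] L2 d => A u) h2.eq
  show Ex (HV K (En.pot x)) (-s) (Z (Ex (HV K (En.pot x)) s u)) = Z u
  rw [h3, Ex_inv]

/-- invariant fields -/
def Ivt (En : Envr d K ν X P) (Z : X → L2 d →L[ℂ] L2 d) : Prop :=
  ∀ᵐ x ∂P, ∀ u, Z x (HV K (En.pot x) u) = HV K (En.pot x) (Z x u)

omit [IsProbabilityMeasure P] in
theorem Cst.ivt {Sg : Set ℝ} {Z : X → L2 d →L[ℂ] L2 d} (h : Cst En Sg Z) : Ivt En Z :=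
  h.mono fun _ hx => hx.1

theorem Ivt.xi (hK : ∀ᵐ r ∂ν, |r| ≤ K) {Z : X → L2 d →L[ℂ] L2 d} (h : Ivt En Z)
    (hZ : Fd En M Z) (s : ℝ) : MX.xi En Z s = vec P Z := by
  apply Lp.ext
  have h1 : (MX.xi En Z s : X → L2 d) =ᵐ[P] fun x => MX.cj (En.W x) s (Z x) (NB.dl 0) :=
    (hZ.cj hK s).coe
  refine h1.trans ?_
  unfold Ivt at h
  filter_upwards [h, hZ.coe] with x e1 e2
  rw [e2, cj_of_comm e1]

/-- a limit whose limit in the other direction is invariant is invariant -/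
theorem ivt_back (hK : ∀ᵐ r ∂ν, |r| ≤ K) {Y0 Y₁ Z₁ : X → L2 d →L[ℂ] L2 d} (h0 : Fd En M Y0)
    (𝒰 : Ultrafilter ℝ) {lt lt'' : Filter ℝ} (h1 : IsLm En M 𝒰 lt Y0 Y₁)
    (h3 : IsLm En M (𝒰.map Neg.neg : Ultrafilter ℝ) lt'' Y₁ Z₁) (hZ : Ivt En Z₁) :
    ∀ᵐ x ∂P, Y₁ x = Z₁ x := by
  have a1 : ⟪vec P Y0, vec P Z₁⟫_ℂ = ⟪vec P Y₁, vec P Y₁⟫_ℂ := by
    have b1 : Tendsto (fun s => ⟪vec P Y0, xi En Y₁ (-s)⟫_ℂ) 𝒰 (𝓝 ⟪vec P Y0, vec P Z₁⟫_ℂ) :=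
      (h3.weak (vec P Y0)).comp tendsto_map
    have b2 : Tendsto (fun s => ⟪xi En Y0 s, vec P Y₁⟫_ℂ) 𝒰 (𝓝 ⟪vec P Y₁, vec P Y₁⟫_ℂ) :=
      conj_lim (h1.weak _)
    exact tendsto_nhds_unique b1 (b2.congr fun s => (xi_move hK h0 h1.fd s).symm)
  have a2 : ∀ s, ⟪xi En Y0 s, vec P Z₁⟫_ℂ = ⟪vec P Y₁, vec P Y₁⟫_ℂ := by
    intro s
    rw [← xi_move hK h0 h3.fd s, hZ.xi hK h3.fd, a1]
  have a3 : ⟪vec P Y₁, vec P Z₁⟫_ℂ = ⟪vec P Y₁, vec P Y₁⟫_ℂ := by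
    have b2 : Tendsto (fun s => ⟪xi En Y0 s, vec P Z₁⟫_ℂ) 𝒰 (𝓝 ⟪vec P Y₁, vec P Z₁⟫_ℂ) :=
      conj_lim (h1.weak _)
    refine tendsto_nhds_unique b2 ?_
    simp only [a2]
    exact tendsto_const_nhds
  have a4 : ‖vec P Z₁‖ ≤ ‖vec P Y₁‖ := by
    by_contra hcon
    push Not at hcon
    have b1 : Tendsto (fun s => ⟪vec P Z₁, xi En Y₁ (-s)⟫_ℂ) 𝒰 (𝓝 ⟪vec P Z₁, vec P Z₁⟫_ℂ) :=
      (h3.weak (vec P Z₁)).comp tendsto_map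
    have b2 : ‖⟪vec P Z₁, vec P Z₁⟫_ℂ‖ ≤ ‖vec P Z₁‖ * ‖vec P Y₁‖ := by
      refine le_of_tendsto b1.norm (Eventually.of_forall fun s => ?_)
      refine (norm_inner_le_norm _ _).trans ?_
      rw [xi_norm hK h1.fd]
    rw [inner_self_eq_norm_sq_to_K, norm_pow, RCLike.norm_ofReal, abs_norm, pow_two] at b2
    have b3 : 0 < ‖vec P Z₁‖ := (norm_nonneg _).trans_lt hcon
    exact absurd (le_of_mul_le_mul_left b2 b3) (not_le.2 hcon)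
  have a5 : vec P Y₁ = vec P Z₁ := by
    rw [← sub_eq_zero, ← norm_eq_zero]
    have c1 := norm_sub_sq (𝕜 := ℂ) (vec P Y₁) (vec P Z₁)
    rw [a3, inner_self_eq_norm_sq] at c1
    have c2 : ‖vec P Z₁‖ ^ 2 ≤ ‖vec P Y₁‖ ^ 2 := pow_le_pow_left₀ (norm_nonneg _) a4 2
    have c3 : ‖vec P Y₁ - vec P Z₁‖ ^ 2 ≤ 0 := by linarith
    have c4 : ‖vec P Y₁ - vec P Z₁‖ ^ 2 = 0 := le_antisymm c3 (sq_nonneg _)
    exact pow_eq_zero_iff two_ne_zero |>.1 c4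
  exact h1.fd.vec_inj h3.fd a5

/-- invariant limits are unique -/
theorem ivt_uniq (hK : ∀ᵐ r ∂ν, |r| ≤ K) {Y0 Y₁ Y₂ : X → L2 d →L[ℂ] L2 d} (h0 : Fd En M Y0)
    {𝒰 𝒱 : Filter ℝ} [𝒰.NeBot] [𝒱.NeBot] {lt lt' : Filter ℝ} (h1 : IsLm En M 𝒰 lt Y0 Y₁)
    (h2 : IsLm En M 𝒱 lt' Y0 Y₂) (i1 : Ivt En Y₁) (i2 : Ivt En Y₂) : vec P Y₁ = vec P Y₂ := by
  have key : ∀ {Z : X → L2 d →L[ℂ] L2 d}, Fd En M Z → Ivt En Z → ∀ s,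
      ⟪vec P Z, xi En Y0 s⟫_ℂ = ⟪vec P Z, vec P Y0⟫_ℂ := by
    intro Z hZ hi s
    have h := xi_move hK hZ h0 (-s)
    rw [neg_neg] at h
    rw [h, hi.xi hK hZ]
  have key2 : ∀ {Z W : X → L2 d →L[ℂ] L2 d} {𝒲 : Filter ℝ} [𝒲.NeBot] {l : Filter ℝ}, Fd En M Z →
      Ivt En Z → IsLm En M 𝒲 l Y0 W → ⟪vec P Z, vec P W⟫_ℂ = ⟪vec P Z, vec P Y0⟫_ℂ := by
    intro Z W 𝒲 _ l hZ hi hW
    have h := hW.weak (vec P Z)
    simp only [key hZ hi] at h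
    exact (tendsto_nhds_unique h tendsto_const_nhds)
  have e1 : ⟪vec P Y₁, vec P Y₂⟫_ℂ = ⟪vec P Y₁, vec P Y₁⟫_ℂ := by
    rw [key2 h1.fd i1 h2, key2 h1.fd i1 h1]
  have e2 : ⟪vec P Y₂, vec P Y₁⟫_ℂ = ⟪vec P Y₂, vec P Y₂⟫_ℂ := by
    rw [key2 h2.fd i2 h1, key2 h2.fd i2 h2]
  rw [← sub_eq_zero, ← inner_self_eq_zero (𝕜 := ℂ), inner_sub_left, inner_sub_right,
    inner_sub_right, e1, e2]
  ring

variable {A : X → L2 d →L[ℂ] L2 d}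

theorem neg_le {𝒰 : Ultrafilter ℝ} {l : Filter ℝ} (hl : l = atTop ∨ l = atBot)
    (hU : (𝒰 : Filter ℝ) ≤ l) : ∃ l' : Filter ℝ, (l = atTop ∧ l' = atBot ∨ l = atBot ∧ l' = atTop) ∧
      ((𝒰.map Neg.neg : Ultrafilter ℝ) : Filter ℝ) ≤ l' := by
  rcases hl with rfl | rfl
  · refine ⟨atBot, Or.inl ⟨rfl, rfl⟩, ?_⟩
    rw [Ultrafilter.coe_map]
    exact (Filter.map_mono hU).trans tendsto_neg_atTop_atBot
  · refine ⟨atTop, Or.inr ⟨rfl, rfl⟩, ?_⟩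
    rw [Ultrafilter.coe_map]
    exact (Filter.map_mono hU).trans tendsto_neg_atBot_atTop

/-- all limits are functions of the energy -/
theorem all_lim (hK : ∀ᵐ r ∂ν, |r| ≤ K) (hA : ObE En M A) {Sg : Set ℝ}
    (hSg : ∀ (Z : X → L2 d →L[ℂ] L2 d) (M : ℝ), Fd En M Z →
      RelA En atTop Z → RelA En atBot Z → Cst En Sg Z) {l : Filter ℝ}
    (hl : l = atTop ∨ l = atBot) (𝒰 : Ultrafilter ℝ) (hU : (𝒰 : Filter ℝ) ≤ l) :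
    ∃ Y, IsLm En M 𝒰 l (cps En A) Y ∧ Cst En Sg Y := by
  obtain ⟨l', hl', hU'⟩ := neg_le hl hU
  have hl2 : l' = atTop ∨ l' = atBot := by
    rcases hl' with ⟨-, h⟩ | ⟨-, h⟩
    · exact Or.inr h
    · exact Or.inl h
  obtain ⟨Y₁, h1⟩ := exists_lim hK hA.fd hl 𝒰 hU
  obtain ⟨Y₂, h2⟩ := exists_lim hK hA.fd hl2 (𝒰.map Neg.neg) hU'
  obtain ⟨Z₁, h3⟩ := exists_lim hK h1.fd hl2 (𝒰.map Neg.neg) hU'
  obtain ⟨Z₂, h4⟩ := exists_lim hK h2.fd hl 𝒰 hU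
  have r1 : RelA En l Y₁ := (AsRA.base hK hA hl).lim h1
  have r2 : RelA En l' Y₂ := (AsRA.base hK hA hl2).lim h2
  have r3 : RelA En l Z₁ := (r1.asR hK hl l').lim h3
  have r4 : RelA En l' Z₂ := (r2.asR hK hl2 l).lim h4
  have e := iter_eq hK hA.fd 𝒰 h1 h2 h3 h4
  have r5 : RelA En l' Z₁ := r4.congr e
  have c1 : Cst En Sg Z₁ := by
    rcases hl' with ⟨rfl, rfl⟩ | ⟨rfl, rfl⟩
    · exact hSg Z₁ M h3.fd r3 r5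
    · exact hSg Z₁ M h3.fd r5 r3
  have e2 := ivt_back hK hA.fd 𝒰 h1 h3 c1.ivt
  refine ⟨Y₁, h1, ?_⟩
  unfold Cst at c1 ⊢
  filter_upwards [c1, e2] with x hx hx2
  rw [hx2]
  exact hx

/-- the limit exists -/
theorem main_lim (hd : 1 ≤ d) (hK : ∀ᵐ r ∂ν, |r| ≤ K) (hν : ∀ r : ℝ, ν {r} ≠ 1) :
    ∃ Sg : Set ℝ, MeasurableSet Sg ∧ ∀ (A : X → L2 d →L[ℂ] L2 d) (M : ℝ), ObE En M A →
      ∃ B, Fd En M B ∧ Cst En Sg B ∧ ∀ l : Filter ℝ, (l = atTop ∨ l = atBot) →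
        ∀ g, Tendsto (fun s => ⟪g, xi En (cps En A) s⟫_ℂ) l (𝓝 ⟪g, vec P B⟫_ℂ) := by
  obtain ⟨Sg, hSg, hc⟩ := cst_of (En := En) hd hK hν
  refine ⟨Sg, hSg, fun A M hA => ?_⟩
  obtain ⟨B, hB1, hB2⟩ := all_lim hK hA hc (Or.inl rfl) (Ultrafilter.of atTop)
    (Ultrafilter.of_le atTop)
  refine ⟨B, hB1.fd, hB2, fun l hl g => ?_⟩
  rw [tendsto_iff_ultrafilter]
  intro 𝒰 hU
  obtain ⟨Y, h1, h2⟩ := all_lim hK hA hc hl 𝒰 hU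
  rw [ivt_uniq hK hA.fd hB1 h1 hB2.ivt h2.ivt]
  exact h1.weak g

end Pool.Agent.T9h56.MX
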