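import Pool.Agent.T9h56.MX.Wk

/-! # Changing the potential at one site -/

set_option autoImplicit false

open MeasureTheory Filter Topology Set
open scoped ENNReal NNReal InnerProductSpace ComplexConjugate

namespace Pool.Agent.T9h56.MX

open Pool.Agent.TH980.IM Pool.Agent.H5R2 Pool.Agent.Y662.ERG
open Pool.Agent.TH980.IM.PR

variable {d : ℕ} {K : ℝ} {ν : Measure ℝ} [IsProbabilityMeasure ν] {X : Type} [MeasurableSpace X]
  {P : Measure X}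

/-- local observables -/
structure ObE (En : Envr d K ν X P) (M : ℝ) (A : X → L2 d →L[ℂ] L2 d) : Prop where
  symm : ∀ x u w, ⟪A x u, w⟫_ℂ = ⟪u, A x w⟫_ℂ
  bound : ∀ x u, ‖A x u‖ ≤ M * ‖u‖
  meas : ∀ ψ : X → L2 d, AEStronglyMeasurable ψ P → AEStronglyMeasurable (fun x => A x (ψ x)) P
  cov : ∀ (z : Sd d) (S : L2 d →L[ℂ] L2 d), NB.IsShift z S → ∀ x u,
    A (En.sft z x) (S u) = S (A x u)
  loc : ∀ x r, IsCompactOperator (A (En.res (x, r)) - A x)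

variable {En : Envr d K ν X P} {M : ℝ} {A : X → L2 d →L[ℂ] L2 d}

/-- compression to the absolutely continuous subspace -/
noncomputable def cps (En : Envr d K ν X P) (A : X → L2 d →L[ℂ] L2 d) (x : X) : L2 d →L[ℂ] L2 d :=
  (En.Q x).comp ((A x).comp (En.Q x))

theorem ObE.nn (h : ObE En M A) (x : X) : 0 ≤ M := by
  have h1 := h.bound x (NB.dl 0)
  rw [NB.STAT.norm_dl, mul_one] at h1
  exact (norm_nonneg _).trans h1

theorem ObE.fd (h : ObE En M A) : Fd En M (cps En A) where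
  symm x u w := by
    show ⟪En.Q x (A x (En.Q x u)), w⟫_ℂ = ⟪u, En.Q x (A x (En.Q x w))⟫_ℂ
    unfold Envr.Q
    rw [PA_symm, h.symm, PA_symm]
  bound x u := by
    show ‖En.Q x (A x (En.Q x u))‖ ≤ _
    refine (acP_norm _ _).trans ((h.bound x _).trans ?_)
    exact mul_le_mul_of_nonneg_left (acP_norm _ _) (h.nn x)
  meas ψ hψ := En.q_meas (h.meas _ (En.q_meas hψ))
  cov z S hS x u := by
    show En.Q (En.sft z x) (A (En.sft z x) (En.Q (En.sft z x) (S u))) = S (En.Q x (A x (En.Q x u)))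
    rw [En.q_cov hS, h.cov z S hS, En.q_cov hS]
  proj x u := PA_idem K _ _

theorem Envr.q_acv (En : Envr d K ν X P) (x : X) (u : L2 d) : NBA.ACvec (En.W x) (En.Q x u) :=
  (acv_iff K _ _).2 (acP_ac _ _)

theorem Envr.q_of (En : Envr d K ν X P) {x : X} {u : L2 d} (h : NBA.ACvec (En.W x) u) :
    En.Q x u = u := acP_of _ ((acv_iff K _ _).1 h)

theorem Envr.q_symm (En : Envr d K ν X P) (x : X) (u w : L2 d) :
    ⟪En.Q x u, w⟫_ℂ = ⟪u, En.Q x w⟫_ℂ := PA_symm K _ _ _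

/-- both potentials are bounded -/
theorem Envr.bd2 [IsProbabilityMeasure P] (En : Envr d K ν X P) (hK : ∀ᵐ r ∂ν, |r| ≤ K) :
    ∀ᵐ p ∂(P.prod ν), (∀ j, |En.pot p.1 j| ≤ K) ∧ ∀ j, |En.pot (En.res p) j| ≤ K := by
  have h1 : ∀ᵐ p ∂(P.prod ν), ∀ j, |En.pot (En.res p) j| ≤ K :=
    En.res_mp.quasiMeasurePreserving.ae (En.bd hK)
  have h2 : ∀ᵐ p ∂(P.prod ν), ∀ j, |En.pot p.1 j| ≤ K :=
    Measure.quasiMeasurePreserving_fst.ae (En.bd hK)
  filter_upwards [h1, h2] with p e1 e2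
  exact ⟨e2, e1⟩

/-- the rank one family -/
theorem Envr.fam (En : Envr d K ν X P) {p : X × ℝ} (h1 : ∀ j, |En.pot p.1 j| ≤ K)
    (h2 : ∀ j, |En.pot (En.res p) j| ≤ K) : ∃ U : ℝ → NB.UG (L2 d), NB.Fam U (NB.dl 0) ∧
      U p.2 = En.W (En.res p) ∧ U (En.pot p.1 0) = En.W p.1 := by
  choose ev hev using fun V : NB.Site d → ℝ => NB.ALL.a_EX d (-1) V
  set V0 : NB.Site d → ℝ := fun x => 2 * d + En.pot p.1 x with hV0
  have hF := NB.t_FAM NB.ALL.a_UN d (-1) ev hev V0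
  refine ⟨fun κ => ev (Function.update V0 0 (2 * d + κ)), fun κ κ' t x => ?_, ?_, ?_⟩
  · have h := hF (2 * d + κ) (2 * d + κ') t x
    have e : ((2 * d + κ' - (2 * d + κ) : ℝ) : ℂ) = ((κ' - κ : ℝ) : ℂ) := by
      congr 1
      ring
    simp only at h ⊢
    rw [e] at h
    exact h
  · have e : (Function.update V0 0 (2 * d + p.2) : NB.Site d → ℝ) =
        fun x => 2 * d + En.pot (En.res p) x := by
      have e1 := En.res_pot p.1 p.2
      funext x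
      show _ = 2 * (d : ℝ) + En.pot (En.res (p.1, p.2)) x
      rw [e1]
      by_cases hx : x = 0
      · subst hx; simp
      · rw [Function.update_of_ne hx, Function.update_of_ne hx]
    show ev (Function.update V0 0 (2 * d + p.2)) = _
    rw [e]
    exact grp_eq h2 (hev _)
  · have e : (Function.update V0 0 (2 * d + En.pot p.1 0) : NB.Site d → ℝ) = V0 :=
      Function.update_eq_self 0 V0
    show ev (Function.update V0 0 (2 * d + En.pot p.1 0)) = _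
    rw [e]
    exact grp_eq h1 (hev _)

/-- the fields at the two potentials are related -/
def RelA (En : Envr d K ν X P) (lw : Filter ℝ) (Y : X → L2 d →L[ℂ] L2 d) : Prop :=
  ∀ᵐ p ∂(P.prod ν), Rel (En.W (En.res p)) (En.W p.1) (NB.dl 0) lw (Y (En.res p)) (Y p.1)

def AsRA (En : Envr d K ν X P) (lw lt : Filter ℝ) (Y : X → L2 d →L[ℂ] L2 d) : Prop :=
  ∀ᵐ p ∂(P.prod ν), AsR (En.W (En.res p)) (En.W p.1) (NB.dl 0) lw lt (Y (En.res p)) (Y p.1)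

variable [IsProbabilityMeasure P]

theorem AsRA.base (hK : ∀ᵐ r ∂ν, |r| ≤ K) (h : ObE En M A) {l : Filter ℝ}
    (hl : l = atTop ∨ l = atBot) : AsRA En l l (cps En A) := by
  unfold AsRA
  filter_upwards [En.bd2 hK] with p ⟨e1, e2⟩
  obtain ⟨U, hU, hU1, hU2⟩ := En.fam e1 e2
  rw [← hU1, ← hU2]
  refine AsR.base hU hl (En.q_symm _) (En.q_symm _) (fun x hx => ?_) (fun x hx => ?_) ?_
  · rw [hU1] at hx
    exact En.q_of hx
  · rw [hU2] at hx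
    exact En.q_of hx
  · have h1 := (h.loc p.1 p.2).neg
    have h2 : ⇑(A p.1 - A (En.res p)) = -⇑(A (En.res (p.1, p.2)) - A p.1) := by
      funext u
      simp
    rw [h2]
    exact h1

theorem RelA.asR (hK : ∀ᵐ r ∂ν, |r| ≤ K) {Y : X → L2 d →L[ℂ] L2 d} {lw : Filter ℝ}
    (hl : lw = atTop ∨ lw = atBot) (h : RelA En lw Y) (lt : Filter ℝ) : AsRA En lw lt Y := by
  unfold AsRA
  unfold RelA at h
  filter_upwards [En.bd2 hK, h] with p ⟨e1, e2⟩ e3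
  obtain ⟨U, hU, hU1, hU2⟩ := En.fam e1 e2
  rw [← hU1, ← hU2] at e3 ⊢
  exact AsR.of_rel hU hl e3 lt

theorem AsRA.lim {Y Z : X → L2 d →L[ℂ] L2 d} {lw lt 𝒰 : Filter ℝ} (h : AsRA En lw lt Y)
    (hZ : IsLm En M 𝒰 lt Y Z) : RelA En lw Z := by
  obtain ⟨w, hw, hs⟩ := hZ.strong
  have h1 : ∀ᵐ p ∂(P.prod ν), ∀ u, Tendsto (fun n =>
      MX.cmb (En.W (En.res p)) (w n) (Y (En.res p)) u) atTop (𝓝 (Z (En.res p) u)) :=
    En.res_mp.quasiMeasurePreserving.ae hs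
  have h2 : ∀ᵐ p ∂(P.prod ν), ∀ u, Tendsto (fun n =>
      MX.cmb (En.W p.1) (w n) (Y p.1) u) atTop (𝓝 (Z p.1 u)) :=
    Measure.quasiMeasurePreserving_fst.ae hs
  unfold AsRA at h
  unfold RelA
  filter_upwards [h, h1, h2] with p e1 e2 e3
  exact Rel.of_lim e1 hw e2 e3

/-- a field which is related in both directions preserves the orthogonality to the cyclic subspace
of the origin -/
theorem ort0 (hK : ∀ᵐ r ∂ν, |r| ≤ K) (hν : ∀ r : ℝ, ν {r} ≠ 1) {Z : X → L2 d →L[ℂ] L2 d}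
    (hZ : Fd En M Z) (h1 : RelA En atTop Z) (h2 : RelA En atBot Z) :
    ∀ᵐ x ∂P, ∀ φ, NBA.ACvec (En.W x) φ → (∀ t, ⟪φ, (En.W x).U t (NB.dl 0)⟫_ℂ = 0) →
      ∀ t, ⟪Z x φ, (En.W x).U t (NB.dl 0)⟫_ℂ = 0 := by
  unfold RelA at h1 h2
  have h3 := Measure.ae_ae_of_ae_prod (h1.and (h2.and (En.bd2 hK)))
  filter_upwards [h3] with x hx φ hφ ho
  obtain ⟨r, hr, e1, e2, e3, e4⟩ : ∃ r, r ≠ En.pot x 0 ∧
      Rel (En.W (En.res (x, r))) (En.W x) (NB.dl 0) atTop (Z (En.res (x, r))) (Z x) ∧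
      Rel (En.W (En.res (x, r))) (En.W x) (NB.dl 0) atBot (Z (En.res (x, r))) (Z x) ∧
      (∀ j, |En.pot x j| ≤ K) ∧ ∀ j, |En.pot (En.res (x, r)) j| ≤ K := by
    by_contra h
    have h4 : ∀ᵐ k ∂ν, k = En.pot x 0 := by
      filter_upwards [hx] with k hk
      by_contra hne
      exact h ⟨k, hne, hk⟩
    have h5 : ν {En.pot x 0} = 1 := by
      rw [← prob_compl_eq_zero_iff (measurableSet_singleton _)]
      exact h4
    exact hν _ h5
  obtain ⟨U, hU, hU1, hU2⟩ := En.fam (p := (x, r)) e3 e4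
  simp only at hU1 hU2
  rw [← hU1, ← hU2] at e1 e2
  rw [← hU2] at hφ ho ⊢
  refine w7_op U (NB.dl 0) hU hr (En.Q x) (fun u => ?_) (fun u hu => ?_) e1 e2 (hZ.symm x)
    (hZ.proj x) φ hφ ho
  · rw [hU2]
    exact En.q_acv x u
  · rw [hU2] at hu
    exact En.q_of hu

omit [IsProbabilityMeasure P] in
theorem Envr.acv_cov (En : Envr d K ν X P) {z : Sd d} {S : L2 d →L[ℂ] L2 d} (hS : NB.IsShift z S)
    {x : X} {u : L2 d} (h : NBA.ACvec (En.W x) u) : NBA.ACvec (En.W (En.sft z x)) (S u) := by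
  have h1 : En.Q (En.sft z x) (S u) = S u := by rw [En.q_cov hS, En.q_of h]
  rw [← h1]
  exact En.q_acv _ _

/-- all sites -/
theorem ort_all (hK : ∀ᵐ r ∂ν, |r| ≤ K) (hν : ∀ r : ℝ, ν {r} ≠ 1) {Z : X → L2 d →L[ℂ] L2 d}
    (hZ : Fd En M Z) (h1 : RelA En atTop Z) (h2 : RelA En atBot Z) :
    ∀ᵐ x ∂P, ∀ z : Sd d, ∀ φ, NBA.ACvec (En.W x) φ →
      (∀ t, ⟪φ, (En.W x).U t (NB.dl z)⟫_ℂ = 0) → ∀ t, ⟪Z x φ, (En.W x).U t (NB.dl z)⟫_ℂ = 0 := by
  have h3 : ∀ᵐ x ∂P, ∀ z : Sd d, ∀ φ, NBA.ACvec (En.W (En.sft z x)) φ →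
      (∀ t, ⟪φ, (En.W (En.sft z x)).U t (NB.dl 0)⟫_ℂ = 0) →
        ∀ t, ⟪Z (En.sft z x) φ, (En.W (En.sft z x)).U t (NB.dl 0)⟫_ℂ = 0 := by
    rw [ae_all_iff]
    intro z
    exact (En.sft_mp z).quasiMeasurePreserving.ae (ort0 hK hν hZ h1 h2)
  filter_upwards [h3] with x hx z φ hφ ho t
  obtain ⟨S, hS⟩ := (NB.t_OPS d).1 z
  obtain ⟨T, hT⟩ := (NB.t_OPS d).1 (-z)
  have hTd : T (NB.dl 0) = NB.dl z := NB.LIMB.shift_dl z T hT
  have hSd : S (NB.dl z) = NB.dl 0 := by rw [← hTd, NBA.ZAC.inv1 hS hT]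
  have hSi : ∀ a b : L2 d, ⟪S a, S b⟫_ℂ = ⟪a, b⟫_ℂ := by
    intro a b
    rw [NB.STAT.shift_inner z S T hS hT, NBA.ZAC.inv2 hS hT]
  have h4 := hx z (S φ) (En.acv_cov hS hφ) (fun t => by
    rw [← hSd, En.w_cov hS, hSi]
    exact ho t) t
  rw [← hSd, En.w_cov hS, hZ.cov z S hS, hSi] at h4
  exact h4

end Pool.Agent.T9h56.MX
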