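import Pool.Agent.Y662.ERG.Fam

/-! # Rank one families: operators related by the wave operators -/

set_option autoImplicit false

open MeasureTheory Filter Topology
open scoped BigOperators ENNReal NNReal InnerProductSpace ComplexConjugate

namespace Pool.Agent.T9h56.MX

open Pool.Agent.H5R2.NB Pool.Agent.H5R2.NBA Pool.Agent.Y662.ERG

variable {ι : Type}

/-- `U_{-s} X U_s` -/
noncomputable def cj (W : UG (L2 ι)) (s : ℝ) (X : L2 ι →L[ℂ] L2 ι) : L2 ι →L[ℂ] L2 ι :=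
  (W.U (-s)).comp (X.comp (W.U s))

theorem cj_apply (W : UG (L2 ι)) (s : ℝ) (X : L2 ι →L[ℂ] L2 ι) (x : L2 ι) :
    cj W s X x = W.U (-s) (X (W.U s x)) := rfl

theorem acv_hac {W : UG (L2 ι)} {ψ : L2 ι} (h : ACvec W ψ) : ψ ∈ HAC W :=
  ALL.a_SPEC ι W ψ h

theorem acv_shift {W : UG (L2 ι)} {ψ : L2 ι} (h : ACvec W ψ) (s : ℝ) : ACvec W (W.U s ψ) := by
  obtain ⟨μ, h1, h2, h3⟩ := h
  refine ⟨μ, h1, h2, fun t => ?_⟩
  rw [← h3 t, NN.inner_adj, ← W.add', ← W.add']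
  have e : -s + t + s = t := by ring
  rw [e]

/-- wave operators preserve absolute continuity -/
theorem acv_wave {W W' : UG (L2 ι)} {l : Filter ℝ} (hl : l = atTop ∨ l = atBot) {ψ ψp : L2 ι}
    (h : ACvec W ψ) (hp : Tendsto (fun t : ℝ => W'.U (-t) (W.U t ψ)) l (𝓝 ψp)) :
    ACvec W' ψp := by
  have := WI.neBot_of_l hl
  obtain ⟨μ, h1, h2, h3⟩ := h
  refine ⟨μ, h1, h2, fun τ => ?_⟩
  have h4 := (t_WI ι W W' l hl ψ ψp hp).2.1 τ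
  have h5 := hp.inner (𝕜 := ℂ) h4
  have h6 : (fun t : ℝ => ⟪W'.U (-t) (W.U t ψ), W'.U (-t) (W.U t (W.U τ ψ))⟫_ℂ) =
      fun _ => ⟪ψ, W.U τ ψ⟫_ℂ := by
    funext t
    rw [NN.inner_pres, NN.inner_pres]
  rw [h6] at h5
  rw [tendsto_nhds_unique h5 tendsto_const_nhds, h3]

/-- on the orthogonal complement of the cyclic space the spectral types agree -/
theorem acv_swap {U : ℝ → UG (L2 ι)} {e : L2 ι} (hF : Fam U e) {κ κ' : ℝ} {φ : L2 ι}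
    (h : ACvec (U κ') φ) (ho : ∀ t, ⟪φ, (U κ').U t e⟫_ℂ = 0) : ACvec (U κ) φ := by
  obtain ⟨μ, h1, h2, h3⟩ := h
  refine ⟨μ, h1, h2, fun t => ?_⟩
  rw [(t_NN ι U e hF κ' κ φ ho).2 t, h3]

/-- weak decay -/
theorem weak_hac {W : UG (L2 ι)} {ψ : L2 ι} (h : ψ ∈ HAC W) {l : Filter ℝ}
    (hl : l = atTop ∨ l = atBot) (φ : L2 ι) :
    Tendsto (fun t : ℝ => ⟪φ, W.U t ψ⟫_ℂ) l (𝓝 0) := by
  rw [Metric.tendsto_nhds]
  intro ε hε
  have hpos : 0 < ε / 2 / (‖φ‖ + 1) := by positivity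
  obtain ⟨ψ', ⟨C, hC⟩, hd⟩ := Metric.mem_closure_iff.1 h _ hpos
  have h1 : Tendsto (fun t : ℝ => ⟪φ, W.U t ψ'⟫_ℂ) l (𝓝 0) := by
    rcases hl with rfl | rfl
    · exact WP.weak hC φ
    · have h2 := (weakM hC φ).comp tendsto_neg_atBot_atTop
      refine h2.congr fun t => ?_
      simp
  filter_upwards [(Metric.tendsto_nhds.1 h1) (ε / 2) (by positivity)] with t ht
  rw [dist_zero_right] at ht ⊢
  have e : ⟪φ, W.U t ψ⟫_ℂ = ⟪φ, W.U t (ψ - ψ')⟫_ℂ + ⟪φ, W.U t ψ'⟫_ℂ := by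
    rw [map_sub, inner_sub_right]; ring
  rw [e]
  have h3 : ‖⟪φ, W.U t (ψ - ψ')⟫_ℂ‖ ≤ ε / 2 := by
    refine (norm_inner_le_norm _ _).trans ?_
    rw [W.norm', ← dist_eq_norm]
    calc ‖φ‖ * dist ψ ψ' ≤ (‖φ‖ + 1) * (ε / 2 / (‖φ‖ + 1)) := by
          gcongr
          linarith
      _ = ε / 2 := by field_simp
  calc ‖⟪φ, W.U t (ψ - ψ')⟫_ℂ + ⟪φ, W.U t ψ'⟫_ℂ‖
      ≤ ‖⟪φ, W.U t (ψ - ψ')⟫_ℂ‖ + ‖⟪φ, W.U t ψ'⟫_ℂ‖ := norm_add_le _ _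
    _ < ε / 2 + ε / 2 := by linarith
    _ = ε := by ring

/-- `X` and `X'` are related by the wave operator at `l`, on the orthogonal complement of the
cyclic space of `e` -/
def Rel (W W' : UG (L2 ι)) (e : L2 ι) (l : Filter ℝ) (X X' : L2 ι →L[ℂ] L2 ι) : Prop :=
  ∀ φ, ACvec W' φ → (∀ t, ⟪φ, W'.U t e⟫_ℂ = 0) → ∀ ψ ψp, ACvec W ψ →
    Tendsto (fun t : ℝ => W'.U (-t) (W.U t ψ)) l (𝓝 ψp) → ⟪φ, X' ψp⟫_ℂ = ⟪φ, X ψ⟫_ℂ

/-- the same asymptotically for the operators at time `s`, `s → lt` -/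
def AsR (W W' : UG (L2 ι)) (e : L2 ι) (lw lt : Filter ℝ) (X X' : L2 ι →L[ℂ] L2 ι) : Prop :=
  ∀ φ, ACvec W' φ → (∀ t, ⟪φ, W'.U t e⟫_ℂ = 0) → ∀ ψ ψp, ACvec W ψ →
    Tendsto (fun t : ℝ => W'.U (-t) (W.U t ψ)) lw (𝓝 ψp) →
    Tendsto (fun s : ℝ => ⟪φ, cj W' s X' ψp⟫_ℂ - ⟪φ, cj W s X ψ⟫_ℂ) lt (𝓝 0)

theorem ort_shift {W : UG (L2 ι)} {e φ : L2 ι} (ho : ∀ t, ⟪φ, W.U t e⟫_ℂ = 0) (s : ℝ) :
    ∀ t, ⟪W.U s φ, W.U t e⟫_ℂ = 0 := by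
  intro t
  rw [NN.inner_adj, ← W.add']
  exact ho _

/-- the relation is exact at all times if it is exact at time zero -/
theorem AsR.of_rel {U : ℝ → UG (L2 ι)} {e : L2 ι} (hF : Fam U e) {κ κ' : ℝ} {lw : Filter ℝ}
    (hl : lw = atTop ∨ lw = atBot) {X X' : L2 ι →L[ℂ] L2 ι}
    (h : Rel (U κ) (U κ') e lw X X') (lt : Filter ℝ) : AsR (U κ) (U κ') e lw lt X X' := by
  intro φ hφ ho ψ ψp hψ hp
  have e1 : ∀ s : ℝ, ⟪φ, cj (U κ') s X' ψp⟫_ℂ - ⟪φ, cj (U κ) s X ψ⟫_ℂ = 0 := by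
    intro s
    have h1 := h ((U κ').U s φ) (acv_shift hφ s) (ort_shift ho s) ((U κ).U s ψ) ((U κ').U s ψp)
      (acv_shift hψ s) ((t_WI ι (U κ) (U κ') lw hl ψ ψp hp).2.1 s)
    rw [cj_apply, cj_apply, ← sub_eq_zero.2 h1]
    congr 1
    · rw [NN.inner_adj]
    · rw [← (t_NN ι U e hF κ' κ φ ho).2 s, NN.inner_adj]
  simp only [e1]
  exact tendsto_const_nhds

/-- compact operators map weakly null families to norm null families -/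
theorem cpt_null {H : Type} [NormedAddCommGroup H] [InnerProductSpace ℂ H] [CompleteSpace H]
    {C : H →L[ℂ] H} (hC : IsCompactOperator C) {l : Filter ℝ} {ξ : ℝ → H} {R : ℝ}
    (hR : ∀ s, ‖ξ s‖ ≤ R) (h : ∀ g, Tendsto (fun s => ⟪g, ξ s⟫_ℂ) l (𝓝 0)) :
    Tendsto (fun s => C (ξ s)) l (𝓝 0) := by
  rw [tendsto_iff_ultrafilter]
  intro 𝒰 hU
  obtain ⟨S, hS, hsub⟩ := hC.image_closedBall_subset_compact (f := (C : H →ₗ[ℂ] H)) R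
  have hm : ((𝒰.map fun s => C (ξ s) : Ultrafilter H) : Filter H) ≤ 𝓟 S := by
    rw [le_principal_iff, Ultrafilter.mem_coe, Ultrafilter.mem_map]
    refine Filter.univ_mem' fun s => hsub ⟨ξ s, mem_closedBall_zero_iff.2 (hR s), rfl⟩
  obtain ⟨y, -, hy⟩ := hS.ultrafilter_le_nhds _ hm
  have hy' : Tendsto (fun s => C (ξ s)) 𝒰 (𝓝 y) := hy
  have hy0 : y = 0 := by
    refine ext_inner_left ℂ fun g => ?_
    rw [inner_zero_right]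
    have h1 : Tendsto (fun s => ⟪g, C (ξ s)⟫_ℂ) 𝒰 (𝓝 ⟪g, y⟫_ℂ) :=
      tendsto_const_nhds.inner hy'
    have h2 : Tendsto (fun s => ⟪g, C (ξ s)⟫_ℂ) 𝒰 (𝓝 0) := by
      refine ((h (ContinuousLinearMap.adjoint C g)).mono_left hU).congr fun s => ?_
      rw [ContinuousLinearMap.adjoint_inner_left]
    exact tendsto_nhds_unique h1 h2
  rw [← hy0]
  exact hy'

/-- the relation for the compressed local observables -/
theorem AsR.base {U : ℝ → UG (L2 ι)} {e : L2 ι} (hF : Fam U e) {κ κ' : ℝ}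
    {l : Filter ℝ} (hl : l = atTop ∨ l = atBot) {P P' A A' : L2 ι →L[ℂ] L2 ι}
    (hPs : ∀ x y, ⟪P x, y⟫_ℂ = ⟪x, P y⟫_ℂ) (hPs' : ∀ x y, ⟪P' x, y⟫_ℂ = ⟪x, P' y⟫_ℂ)
    (hP : ∀ x, ACvec (U κ) x → P x = x) (hP' : ∀ x, ACvec (U κ') x → P' x = x)
    (hD : IsCompactOperator (A' - A)) :
    AsR (U κ) (U κ') e l l (P.comp (A.comp P)) (P'.comp (A'.comp P')) := by
  intro φ hφ ho ψ ψp hψ hp
  have hNN := (t_NN ι U e hF κ' κ φ ho).2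
  have hφ1 : ACvec (U κ) φ := acv_swap hF hφ ho
  have hψp : ACvec (U κ') ψp := acv_wave hl hψ hp
  -- the matrix elements
  have e1 : ∀ s : ℝ, ⟪φ, cj (U κ') s (P'.comp (A'.comp P')) ψp⟫_ℂ -
      ⟪φ, cj (U κ) s (P.comp (A.comp P)) ψ⟫_ℂ =
      (W3.m (U κ') A' φ ψp s - W3.m (U κ) A' φ ψ s) +
        ⟪(U κ).U s φ, (A' - A) ((U κ).U s ψ)⟫_ℂ := by
    intro s
    have a1 : ⟪φ, cj (U κ') s (P'.comp (A'.comp P')) ψp⟫_ℂ = W3.m (U κ') A' φ ψp s := by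
      rw [cj_apply, ← NN.inner_adj]
      show ⟪(U κ').U s φ, P' (A' (P' ((U κ').U s ψp)))⟫_ℂ = _
      rw [← hPs', hP' _ (acv_shift hφ s), hP' _ (acv_shift hψp s)]
      rfl
    have a2 : ⟪φ, cj (U κ) s (P.comp (A.comp P)) ψ⟫_ℂ = W3.m (U κ) A φ ψ s := by
      rw [cj_apply, ← NN.inner_adj]
      show ⟪(U κ).U s φ, P (A (P ((U κ).U s ψ)))⟫_ℂ = _
      rw [← hPs, hP _ (acv_shift hφ1 s), hP _ (acv_shift hψ s)]
      rfl
    rw [a1, a2]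
    unfold W3.m
    rw [sub_apply, inner_sub_right]
    ring
  simp only [e1]
  rw [← add_zero (0 : ℂ)]
  refine Tendsto.add ?_ ?_
  · have h2 := tendsto_iff_norm_sub_tendsto_zero.1 hp
    refine squeeze_zero_norm (fun s => W3.m_diff (U κ) (U κ') A' φ ψ φ ψp s) ?_
    have h1 : Tendsto (fun s : ℝ => ‖(U κ').U (-s) ((U κ).U s φ) - φ‖) l (𝓝 0) := by
      have : (fun s : ℝ => ‖(U κ').U (-s) ((U κ).U s φ) - φ‖) = fun _ => 0 := by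
        funext s
        rw [hNN s, ← (U κ').add', neg_add_cancel, (U κ').zero', sub_self, norm_zero]
      rw [this]
      exact tendsto_const_nhds
    have h3 := (h1.mul_const (‖A'‖ * ‖ψp‖)).add ((h2.const_mul ‖A'‖).const_mul ‖φ‖)
    simpa using h3
  · have h0 : Tendsto (fun s : ℝ => ‖φ‖ * ‖(A' - A) ((U κ).U s ψ)‖) l (𝓝 0) := by
      have h1 := (cpt_null hD (R := ‖ψ‖) (fun s => ((U κ).norm' s ψ).le)
        (weak_hac (acv_hac hψ) hl)).norm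
      rw [norm_zero] at h1
      simpa using h1.const_mul ‖φ‖
    refine squeeze_zero_norm (fun s => ?_) h0
    refine (norm_inner_le_norm _ _).trans ?_
    rw [(U κ).norm']

/-- finite convex combinations of the operators at different times -/
noncomputable def cmb (W : UG (L2 ι)) (w : ℝ →₀ ℝ) (X : L2 ι →L[ℂ] L2 ι) : L2 ι →L[ℂ] L2 ι :=
  ∑ s ∈ w.support, ((w s : ℝ) : ℂ) • cj W s X

/-- the weights are probability vectors whose supports tend to `lt` -/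
def Wts (lt : Filter ℝ) (w : ℕ → ℝ →₀ ℝ) : Prop :=
  (∀ n s, 0 ≤ w n s) ∧ (∀ n, ∑ s ∈ (w n).support, w n s = 1) ∧
    ∀ S ∈ lt, ∀ᶠ n in atTop, ∀ s ∈ (w n).support, s ∈ S

theorem Wts.mono {l l' : Filter ℝ} (h : l' ≤ l) {w : ℕ → ℝ →₀ ℝ} (hw : Wts l' w) : Wts l w :=
  ⟨hw.1, hw.2.1, fun S hS => hw.2.2 S (h hS)⟩

theorem Rel.of_lim {W W' : UG (L2 ι)} {e : L2 ι} {lw lt : Filter ℝ} {X X' Y Y' : L2 ι →L[ℂ] L2 ι}
    (h : AsR W W' e lw lt X X') {w : ℕ → ℝ →₀ ℝ} (hw : Wts lt w)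
    (hY : ∀ x, Tendsto (fun n => cmb W (w n) X x) atTop (𝓝 (Y x)))
    (hY' : ∀ x, Tendsto (fun n => cmb W' (w n) X' x) atTop (𝓝 (Y' x))) :
    Rel W W' e lw Y Y' := by
  intro φ hφ ho ψ ψp hψ hp
  have h1 := h φ hφ ho ψ ψp hψ hp
  have h2 : Tendsto (fun n => ⟪φ, cmb W' (w n) X' ψp⟫_ℂ - ⟪φ, cmb W (w n) X ψ⟫_ℂ) atTop
      (𝓝 (⟪φ, Y' ψp⟫_ℂ - ⟪φ, Y ψ⟫_ℂ)) :=
    (tendsto_const_nhds.inner (hY' ψp)).sub (tendsto_const_nhds.inner (hY ψ))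
  have h3 : ∀ n, ⟪φ, cmb W' (w n) X' ψp⟫_ℂ - ⟪φ, cmb W (w n) X ψ⟫_ℂ =
      ∑ s ∈ (w n).support, ((w n s : ℝ) : ℂ) *
        (⟪φ, cj W' s X' ψp⟫_ℂ - ⟪φ, cj W s X ψ⟫_ℂ) := by
    intro n
    unfold cmb
    rw [sum_apply, sum_apply, inner_sum, inner_sum,
      ← Finset.sum_sub_distrib]
    refine Finset.sum_congr rfl fun s _ => ?_
    rw [smul_apply, smul_apply, inner_smul_right,
      inner_smul_right]
    ring
  have h4 : Tendsto (fun n => ⟪φ, cmb W' (w n) X' ψp⟫_ℂ - ⟪φ, cmb W (w n) X ψ⟫_ℂ) atTop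
      (𝓝 0) := by
    rw [Metric.tendsto_nhds]
    intro ε hε
    have h5 := (Metric.tendsto_nhds.1 h1) (ε / 2) (by positivity)
    filter_upwards [hw.2.2 _ h5] with n hn
    rw [dist_zero_right, h3]
    calc ‖∑ s ∈ (w n).support, ((w n s : ℝ) : ℂ) *
          (⟪φ, cj W' s X' ψp⟫_ℂ - ⟪φ, cj W s X ψ⟫_ℂ)‖
        ≤ ∑ s ∈ (w n).support, w n s * (ε / 2) := by
          refine (norm_sum_le _ _).trans (Finset.sum_le_sum fun s hs => ?_)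
          rw [norm_mul, Complex.norm_real, Real.norm_of_nonneg (hw.1 n s)]
          have h6 := hn s hs
          simp only [dist_zero_right] at h6
          exact mul_le_mul_of_nonneg_left h6.le (hw.1 n s)
      _ = ε / 2 := by rw [← Finset.sum_mul, hw.2.1 n, one_mul]
      _ < ε := by linarith
  exact sub_eq_zero.1 (tendsto_nhds_unique h2 h4)

end Pool.Agent.T9h56.MX
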