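import Pool.Agent.Y662.ERG.Dos

/-! # The site argument: operators which preserve the cyclic subspaces of all sites -/

set_option autoImplicit false

open MeasureTheory Filter Topology Set
open scoped ENNReal NNReal InnerProductSpace

namespace Pool.Agent.T9h56.MX

open Pool.Agent.TH980.IM Pool.Agent.H5R2 Pool.Agent.Y662.ERG
open Pool.Agent.H12R2.And (Rz isUnit_sub sub_Rz im_inner norm_Rz_le diff_inner)
open Pool.Agent.TH980.IM.PR

section abstract

variable {X : Type} [NormedAddCommGroup X] [InnerProductSpace ℂ X] [CompleteSpace X]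
variable {T : X →L[ℂ] X}

/-- existence of the coefficient -/
theorem exists_coeff2 (hT : IsSelfAdjoint T) (u w : X) (p : ℕ → Polynomial ℂ)
    (hp : ∀ n, ∫⁻ E, ENNReal.ofReal (dn hT (w - Polynomial.aeval T (p n) u) E) ≤
      (2⁻¹ : ℝ≥0∞) ^ n) :
    ∀ᵐ E : ℝ, ∃ g : ℂ, Ngl T E (w - g • u) := by
  have h1 := dn_small hT (fun n => w - Polynomial.aeval T (p n) u) hp
  have h2 : ∀ᵐ E : ℝ, ∀ n, Tendsto (fun k => qn T (zk k E) (w - Polynomial.aeval T (p n) u))
      atTop (𝓝 (Real.sqrt (kap * dn hT (w - Polynomial.aeval T (p n) u) E))) :=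
    ae_all_iff.2 fun n => qn_tendsto hT _
  filter_upwards [h1, h2, qn_tendsto hT u] with E e1 e2 e3
  have e4 : ∀ n, Ngl T E (Polynomial.aeval T (p n) u - (p n).eval (E : ℂ) • u) :=
    fun n => ngl_poly hT (p n) u E
  set s : ℕ → ℝ := fun n => Real.sqrt (kap * dn hT (w - Polynomial.aeval T (p n) u) E) with hs
  have hs0 : Tendsto s atTop (𝓝 0) := sqrt_kap_tendsto e1
  -- `w - p_n(E) u`
  have e5 : ∀ n, Tendsto (fun k => qn T (zk k E) (w - (p n).eval (E : ℂ) • u)) atTop
      (𝓝 (s n)) := by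
    intro n
    refine Ngl.lim ?_ (e2 n)
    have e : w - (p n).eval (E : ℂ) • u - (w - Polynomial.aeval T (p n) u) =
        Polynomial.aeval T (p n) u - (p n).eval (E : ℂ) • u := by abel
    rw [e]
    exact e4 n
  set a := Real.sqrt (kap * dn hT u E) with ha
  rcases (Real.sqrt_nonneg (kap * dn hT u E)).eq_or_lt with h0 | h0
  · rw [← ha] at h0
    rw [← h0] at e3
    refine ⟨0, ?_⟩
    rw [zero_smul, sub_zero]
    have e6 : ∀ n, Tendsto (fun k => qn T (zk k E) w) atTop (𝓝 (s n)) := by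
      intro n
      refine Ngl.lim ?_ (e5 n)
      have e : w - (w - (p n).eval (E : ℂ) • u) = (p n).eval (E : ℂ) • u := by abel
      rw [e]
      exact Ngl.smul _ e3
    have e7 : ∀ n, s n = s 0 := fun n => tendsto_nhds_unique (e6 n) (e6 0)
    have e8 : s 0 = 0 := by
      have : Tendsto s atTop (𝓝 (s 0)) := by
        have h : s = fun _ => s 0 := funext e7
        rw [h]
        exact tendsto_const_nhds
      exact tendsto_nhds_unique this hs0
    have e9 := e6 0
    rw [e8] at e9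
    exact e9
  · rw [← ha] at h0
    have e6 : ∀ n m, ‖(p n).eval (E : ℂ) - (p m).eval (E : ℂ)‖ * a ≤ s n + s m := by
      intro n m
      have h3 : Tendsto (fun k => qn T (zk k E) (((p n).eval (E : ℂ) - (p m).eval (E : ℂ)) • u))
          atTop (𝓝 (‖(p n).eval (E : ℂ) - (p m).eval (E : ℂ)‖ * a)) :=
        (e3.const_mul _).congr fun k => (qn_smul _ _ _).symm
      refine le_of_tendsto_of_tendsto' h3 ((e5 n).add (e5 m)) fun k => ?_
      have e : ((p n).eval (E : ℂ) - (p m).eval (E : ℂ)) • u =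
          (w - (p m).eval (E : ℂ) • u) + (-1 : ℂ) • (w - (p n).eval (E : ℂ) • u) := by
        rw [neg_one_smul, sub_smul]; abel
      rw [e]
      refine (qn_add _ _ _).trans ?_
      rw [qn_smul]
      simp only [norm_neg, norm_one, one_mul]
      linarith
    have hcs : CauchySeq fun n => (p n).eval (E : ℂ) := by
      rw [Metric.cauchySeq_iff]
      intro ε hε
      have hh : 0 < ε * a / 2 := by positivity
      obtain ⟨N, hN⟩ := eventually_atTop.1 (hs0.eventually (gt_mem_nhds hh))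
      refine ⟨N, fun m hm n hn => ?_⟩
      rw [dist_eq_norm]
      have h3 := e6 m n
      have h4 := hN m hm
      have h5 := hN n hn
      have h6 : ‖(p m).eval (E : ℂ) - (p n).eval (E : ℂ)‖ * a < ε * a := by linarith
      exact lt_of_mul_lt_mul_right h6 h0.le
    obtain ⟨g, hg⟩ := cauchySeq_tendsto_of_complete hcs
    refine ⟨g, ?_⟩
    unfold Ngl
    rw [Metric.tendsto_atTop]
    intro ε hε
    have h3 : Tendsto (fun n => s n + ‖(p n).eval (E : ℂ) - g‖ * (a + 1)) atTop (𝓝 0) := by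
      have h4 := (tendsto_iff_norm_sub_tendsto_zero.1 hg).mul_const (a + 1)
      have h5 := hs0.add h4
      rwa [zero_mul, add_zero] at h5
    obtain ⟨n, hn⟩ := (h3.eventually (gt_mem_nhds (half_pos hε))).exists
    have h6 := (e5 n).eventually (gt_mem_nhds (show s n < s n + ε / 2 by linarith))
    have h7 := e3.eventually (gt_mem_nhds (show a < a + 1 by linarith))
    obtain ⟨N, hN⟩ := eventually_atTop.1 (h6.and h7)
    refine ⟨N, fun k hk => ?_⟩
    obtain ⟨h8, h9⟩ := hN k hk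
    rw [Real.dist_eq, sub_zero, abs_of_nonneg (qn_nonneg _ _)]
    have e : w - g • u = (w - (p n).eval (E : ℂ) • u) + ((p n).eval (E : ℂ) - g) • u := by
      rw [sub_smul]; abel
    rw [e]
    refine (qn_add _ _ _).trans_lt ?_
    rw [qn_smul]
    have h10 : ‖(p n).eval (E : ℂ) - g‖ * qn T (zk k E) u ≤
        ‖(p n).eval (E : ℂ) - g‖ * (a + 1) := mul_le_mul_of_nonneg_left h9.le (norm_nonneg _)
    linarith

/-- orthogonality to the orbit -/
theorem orth_T {u e : X} (h : ∀ t : ℝ, ⟪u, Ex T t e⟫_ℂ = 0) (t : ℝ) : ⟪u, Ex T t (T e)⟫_ℂ = 0 := by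
  have h1 := ((innerSL ℂ u).restrictScalars ℝ).hasFDerivAt.comp_hasDerivAt t (Ex_deriv T t e)
  have h2 : (⇑((innerSL ℂ u).restrictScalars ℝ) ∘ fun s : ℝ => Ex T s e) = fun _ => 0 := by
    funext s
    exact h s
  rw [h2] at h1
  have h3 : (0 : ℂ) = ⟪u, -Complex.I • T (Ex T t e)⟫_ℂ :=
    (hasDerivAt_const t (0 : ℂ)).unique h1
  rw [inner_smul_right] at h3
  rw [Ex_comm]
  rcases mul_eq_zero.1 h3.symm with h4 | h4
  · exact absurd h4 (neg_ne_zero.2 Complex.I_ne_zero)
  · exact h4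

theorem orth_pow {u e : X} (h : ∀ t : ℝ, ⟪u, Ex T t e⟫_ℂ = 0) (n : ℕ) :
    ∀ t : ℝ, ⟪u, Ex T t ((T ^ n) e)⟫_ℂ = 0 := by
  induction n with
  | zero => exact h
  | succ n ih =>
    intro t
    have e1 : (T ^ (n + 1)) e = T ((T ^ n) e) := by
      rw [pow_succ']
      rfl
    rw [e1]
    exact orth_T ih t

/-- the coefficient of `Z T^n e` -/
theorem coeff_site (hT : IsSelfAdjoint T) {Z : X →L[ℂ] X}
    (hZs : ∀ x y, ⟪Z x, y⟫_ℂ = ⟪x, Z y⟫_ℂ) (hZP : ∀ x, acP hT (Z x) = Z x) (e : X)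
    (hF : ∀ φ, spm hT φ ≪ volume → (∀ t, ⟪φ, Ex T t e⟫_ℂ = 0) → ∀ t, ⟪Z φ, Ex T t e⟫_ℂ = 0)
    (m : ℕ) : ∀ᵐ E : ℝ, ∃ g : ℂ, Ngl T E (Z ((T ^ m) e) - g • e) := by
  set P := acP hT with hP
  have hPs : ∀ x y, ⟪P x, y⟫_ℂ = ⟪x, P y⟫_ℂ := acP_symm hT
  let L : Polynomial ℂ →ₗ[ℂ] X :=
    { toFun := fun p => P (Polynomial.aeval T p e)
      map_add' := fun p q => by
        rw [map_add]
        show P (_ + _) = _
        rw [map_add]
        rfl
      map_smul' := fun c p => by
        rw [map_smul]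
        show P (c • _) = c • _
        rw [map_smul]
        rfl }
  have hL : ∀ p, L p = P (Polynomial.aeval T p e) := fun p => rfl
  set Mc : Submodule ℂ X := (LinearMap.range L).topologicalClosure with hMc
  have : CompleteSpace Mc := (Submodule.isClosed_topologicalClosure _).completeSpace_coe
  set w : X := Z ((T ^ m) e) with hw
  have hmem : w ∈ Mc := by
    set φ : X := w - Mc.starProjection w with hφ
    have hφM : φ ∈ Mcᗮ := Submodule.sub_starProjection_mem_orthogonal w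
    rw [Submodule.mem_orthogonal'] at hφM
    have h1 : ∀ p : Polynomial ℂ, ⟪P φ, Polynomial.aeval T p e⟫_ℂ = 0 := by
      intro p
      rw [hPs, ← hL]
      exact hφM _ (Submodule.le_topologicalClosure _ ⟨p, rfl⟩)
    have h2 : ∀ t, ⟪P φ, Ex T t e⟫_ℂ = 0 := by
      intro t
      apply orth_Ex
      intro n
      have := h1 (Polynomial.X ^ n)
      rwa [map_pow, Polynomial.aeval_X] at this
    have h3 := orth_pow (hF (P φ) (acP_ac hT φ) h2) m 0
    rw [Ex_zero] at h3
    have h4 : ⟪φ, w⟫_ℂ = 0 := by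
      have h5 : ⟪Z (P φ), (T ^ m) e⟫_ℂ = ⟪φ, w⟫_ℂ := by
        rw [hZs, hPs, hw, hZP]
      rw [← h5]
      exact h3
    have h5 : ⟪φ, Mc.starProjection w⟫_ℂ = 0 := hφM _ (Submodule.starProjection_apply_mem _ _)
    have h6 : ⟪φ, φ⟫_ℂ = 0 := by
      conv_lhs => rw [hφ]
      rw [← hφ, inner_sub_right, h4, h5, sub_zero]
    have h7 : φ = 0 := inner_self_eq_zero.1 h6
    rw [hφ, sub_eq_zero] at h7
    rw [h7]
    exact Submodule.starProjection_apply_mem _ _
  have hex : ∀ n : ℕ, ∃ p : Polynomial ℂ, ‖w - P (Polynomial.aeval T p e)‖ < (2⁻¹ : ℝ) ^ n := by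
    intro n
    have h1 : w ∈ closure (LinearMap.range L : Set X) := hmem
    obtain ⟨_, ⟨p, rfl⟩, hp⟩ := Metric.mem_closure_iff.1 h1 ((2⁻¹ : ℝ) ^ n) (by positivity)
    refine ⟨p, ?_⟩
    rwa [dist_eq_norm] at hp
  choose p hp using hex
  refine exists_coeff2 hT e w p fun n => ?_
  refine (dn_le_proj hT P (fun v hv => acP_of hT hv) hPs _).trans ?_
  have h1 : ‖P (w - Polynomial.aeval T (p n) e)‖ₑ ≤ (2⁻¹ : ℝ≥0∞) ^ n := by
    have hPw : P w = w := hZP _
    rw [map_sub, hPw, ← ofReal_norm]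
    refine (ENNReal.ofReal_le_ofReal (hp n).le).trans (le_of_eq ?_)
    rw [ENNReal.ofReal_pow (by norm_num), ENNReal.ofReal_inv_of_pos (by norm_num)]
    norm_num
  have h2 : ((2⁻¹ : ℝ≥0∞) ^ n) ≤ 1 := pow_le_one₀ (by simp) (by simp)
  calc ‖P (w - Polynomial.aeval T (p n) e)‖ₑ ^ 2 ≤ ((2⁻¹ : ℝ≥0∞) ^ n) ^ 2 := by gcongr
    _ = ((2⁻¹ : ℝ≥0∞) ^ n) * ((2⁻¹ : ℝ≥0∞) ^ n) := by rw [pow_two]
    _ ≤ ((2⁻¹ : ℝ≥0∞) ^ n) * 1 := by gcongr
    _ = _ := mul_one _

/-- an absolutely continuous vector which is negligible at almost every energy vanishes -/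
theorem zero_of_ngl (hT : IsSelfAdjoint T) {u : X} (hu : acP hT u = u)
    (h : ∀ᵐ E : ℝ, Ngl T E u) : u = 0 := by
  have h1 := acP_mass hT u
  have h2 : ∫⁻ E, ENNReal.ofReal (dn hT u E) = 0 := by
    rw [lintegral_eq_zero_iff (dn_meas hT u).ennreal_ofReal]
    filter_upwards [h, qn_tendsto hT u] with E e1 e2
    have e3 := tendsto_nhds_unique e2 e1
    have e4 : kap * dn hT u E = 0 := by
      have h5 : Real.sqrt (kap * dn hT u E) ^ 2 = 0 ^ 2 := by rw [e3]
      rw [Real.sq_sqrt (mul_nonneg kap_pos.le (dn_nonneg _ _ _))] at h5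
      rw [h5]; norm_num
    have e5 : dn hT u E = 0 := (mul_eq_zero.1 e4).resolve_left kap_pos.ne'
    show ENNReal.ofReal (dn hT u E) = 0
    rw [e5, ENNReal.ofReal_zero]
  rw [h2, hu] at h1
  have h3 : ‖u‖ₑ = 0 := by
    have := pow_eq_zero_iff (two_ne_zero) |>.1 h1
    exact this
  exact enorm_eq_zero.1 h3

end abstract

/-! ### The lattice -/

variable {d : ℕ}

/-- the neighbours -/
def nb (y : Sd d) (q : Fin d × Bool) : Sd d :=
  if q.2 then y + Pi.single q.1 1 else y - Pi.single q.1 1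

theorem nb_inj (y : Sd d) : Function.Injective (nb y) := by
  rintro ⟨i, b⟩ ⟨i', b'⟩ h
  have key : ∀ i i' : Fin d, (Pi.single i (1 : ℤ) : Sd d) = Pi.single i' 1 → i = i' := by
    intro i i' h
    by_contra hne
    have := congrFun h i
    rw [Pi.single_eq_same, Pi.single_eq_of_ne hne] at this
    exact one_ne_zero this
  have key2 : ∀ i i' : Fin d, (Pi.single i (1 : ℤ) : Sd d) ≠ -Pi.single i' 1 := by
    intro i i' h
    have := congrFun h i
    rw [Pi.single_eq_same, Pi.neg_apply] at this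
    by_cases hi : i = i'
    · subst hi
      rw [Pi.single_eq_same] at this
      norm_num at this
    · rw [Pi.single_eq_of_ne hi] at this
      norm_num at this
  have ht : ∀ j : Fin d, nb y (j, true) = y + Pi.single j 1 := fun j => if_pos rfl
  have hf : ∀ j : Fin d, nb y (j, false) = y - Pi.single j 1 := fun j =>
    if_neg Bool.false_ne_true
  rcases b with _ | _ <;> rcases b' with _ | _
  · rw [hf, hf, sub_right_inj] at h
    rw [key _ _ h]
  · rw [hf, ht, sub_eq_add_neg, add_right_inj] at h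
    exact absurd h.symm (key2 _ _)
  · rw [hf, ht, sub_eq_add_neg, add_right_inj] at h
    exact absurd h (key2 _ _)
  · rw [ht, ht, add_right_inj] at h
    rw [key _ _ h]

theorem sum_coord {α : Type} (s : Finset α) (c : α → ℂ) (f : α → Sd d) (j : Sd d) :
    (∑ a ∈ s, c a • (ee (f a) : L2 d)) j = ∑ a ∈ s, c a * (if j = f a then 1 else 0) := by
  rw [← inner_ee, inner_sum]
  refine Finset.sum_congr rfl fun a _ => ?_
  rw [inner_smul_right, inner_ee, ee_apply]

theorem HV_nb (K : ℝ) (V : Sd d → ℝ) (y : Sd d) : HV K V (ee y) =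
    (((2 * d + cl K (V y) : ℝ)) : ℂ) • ee y - ∑ q : Fin d × Bool, (ee (nb y q) : L2 d) := by
  refine lp.ext (funext fun j => ?_)
  have e1 : ((((2 * d + cl K (V y) : ℝ)) : ℂ) • (ee y : L2 d) -
      ∑ q : Fin d × Bool, (ee (nb y q) : L2 d)) j =
      ((2 * d + cl K (V y) : ℝ) : ℂ) * (if j = y then 1 else 0) -
        ∑ q : Fin d × Bool, (1 : ℂ) * (if j = nb y q then 1 else 0) := by
    rw [← sum_coord Finset.univ (fun _ => (1 : ℂ)) (nb y) j]
    simp only [one_smul]
    show ((2 * d + cl K (V y) : ℝ) : ℂ) * (ee y : L2 d) j - _ = _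
    rw [ee_apply]
  refine Eq.trans ?_ e1.symm
  rw [HV_apply, Fintype.sum_prod_type]
  simp only [Fintype.univ_bool, Finset.mem_singleton, Bool.true_eq_false, not_false_eq_true,
    Finset.sum_insert, Finset.sum_singleton, nb, if_true, Bool.false_eq_true, if_false, one_mul,
    ee_apply]
  have e2 : ∀ i : Fin d, (j + Pi.single i 1 = y ↔ j = y - Pi.single i 1) := fun i =>
    ⟨fun h => by rw [← h]; simp, fun h => by rw [h]; simp⟩
  have e3 : ∀ i : Fin d, (j - Pi.single i 1 = y ↔ j = y + Pi.single i 1) := fun i =>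
    ⟨fun h => by rw [← h]; simp, fun h => by rw [h]; simp⟩
  simp only [e2, e3]
  rw [Finset.sum_sub_distrib, Finset.sum_sub_distrib, Finset.sum_add_distrib, Finset.sum_const,
    Finset.card_univ, Fintype.card_fin, nsmul_eq_mul]
  by_cases hj : j = y
  · subst hj
    simp only [if_true]
    push_cast
    ring
  · simp only [if_neg hj]
    push_cast
    ring

theorem nb_ne (y : Sd d) (q : Fin d × Bool) : nb y q ≠ y := by
  intro h
  unfold nb at h
  have h1 := congrFun h q.1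
  split_ifs at h1 with hq
  · rw [Pi.add_apply, Pi.single_eq_same] at h1
    linarith
  · rw [Pi.sub_apply, Pi.single_eq_same] at h1
    linarith

/-- comparison of coefficients at the neighbours -/
theorem nb_eq (i0 : Fin d) {K : ℝ} {V : Sd d → ℝ} {h : Sd d → (Sd d → ℝ) × ℝ → ℂ} {E : ℝ}
    (e1 : Gen K h V E)
    (hPD : ∀ (m : ℤ) (n : ℕ) (p : Fin n → Sd d), Lay i0 m p → PD (MM h p (V, E)))
    {y : Sd d} (hE : (2 * d + cl K (V y) : ℝ) ≠ E) {β : Sd d → ℂ} {σ : ℂ}
    (hn : Ngl (HV K V) E (∑ q : Fin d × Bool, β (nb y q) • ee (nb y q) - σ • ee y))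
    (q : Fin d × Bool) : β (nb y q) * (((2 * d + cl K (V y) : ℝ) : ℂ) - E) = σ := by
  set κ : ℂ := ((2 * d + cl K (V y) : ℝ) : ℂ) - E with hκ
  have hκ0 : κ ≠ 0 := by
    rw [hκ, Ne, sub_eq_zero]
    intro h
    exact hE (by exact_mod_cast h)
  set ρ : ℂ := σ / κ with hρ
  have n1 : Ngl (HV K V) E (HV K V (ee y) - (E : ℂ) • ee y) := qn_T (HV_sa K V) _ E
  set u : L2 d := ∑ q : Fin d × Bool, (β (nb y q) - ρ) • ee (nb y q) with hu
  have hun : Ngl (HV K V) E u := by
    have e : u = (∑ q : Fin d × Bool, β (nb y q) • ee (nb y q) - σ • ee y) +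
        ρ • (HV K V (ee y) - (E : ℂ) • ee y) := by
      have e2 : u = ∑ q : Fin d × Bool, β (nb y q) • ee (nb y q) -
          ρ • ∑ q : Fin d × Bool, (ee (nb y q) : L2 d) := by
        rw [hu, Finset.smul_sum, ← Finset.sum_sub_distrib]
        exact Finset.sum_congr rfl fun q _ => sub_smul _ _ _
      have e3 : σ = ρ * κ := by rw [hρ, div_mul_cancel₀ _ hκ0]
      rw [e2, HV_nb, e3, hκ, smul_sub, smul_sub, smul_smul, smul_smul, mul_sub, sub_smul]
      abel
    rw [e]
    exact hn.add (n1.smul _)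
  have hfs : FS u := FS.sum _ fun x _ => (FS_ee _).smul _
  have huj : ∀ j, u j = ∑ q : Fin d × Bool, (β (nb y q) - ρ) * (if j = nb y q then 1 else 0) :=
    fun j => sum_coord Finset.univ _ _ j
  obtain ⟨v, hv, huv⟩ := kernel_zk i0 e1 hPD hfs hun
  have hu0 : u = 0 := by
    refine kernel_nb hv huv y (fun j hj => ?_) hE
    by_contra hcon
    push Not at hcon
    apply hj
    rw [huj]
    refine Finset.sum_eq_zero fun q _ => ?_
    rw [if_neg, mul_zero]
    intro h
    unfold nb at h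
    split_ifs at h
    · exact (hcon q.1).1 h
    · exact (hcon q.1).2 h
  have h5 := huj (nb y q)
  rw [hu0, Finset.sum_eq_single q] at h5
  · rw [if_pos rfl, mul_one] at h5
    have h6 : (0 : ℂ) = β (nb y q) - ρ := h5
    have h7 : β (nb y q) = ρ := (sub_eq_zero.1 h6.symm)
    rw [h7, hρ, div_mul_cancel₀ _ hκ0]
  · intro b _ hb
    rw [if_neg, mul_zero]
    intro h
    exact hb (nb_inj y h).symm
  · intro h
    exact absurd (Finset.mem_univ q) h

end Pool.Agent.T9h56.MX
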