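import Pool.Agent.T9h56.MX.Env

/-! # Cyclicity of the trace per unit volume, the vectors of the fields -/

set_option autoImplicit false

open MeasureTheory Filter Topology Set
open scoped ENNReal NNReal InnerProductSpace ComplexConjugate

namespace Pool.Agent.T9h56.MX

open Pool.Agent.TH980.IM Pool.Agent.H5R2 Pool.Agent.Y662.ERG
open Pool.Agent.TH980.IM.PR

variable {d : ℕ} {K : ℝ} {ν : Measure ℝ} [IsProbabilityMeasure ν] {X : Type} [MeasurableSpace X]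
  {P : Measure X} [IsProbabilityMeasure P] {En : Envr d K ν X P} {M : ℝ}
  {Y : X → L2 d →L[ℂ] L2 d}

omit [IsProbabilityMeasure P] in
theorem coord_adj {F F' : X → L2 d →L[ℂ] L2 d} (hF : ∀ x u w, ⟪F x u, w⟫_ℂ = ⟪u, F' x w⟫_ℂ)
    (cF' : ∀ (z : Sd d) (S : L2 d →L[ℂ] L2 d), NB.IsShift z S → ∀ x u,
      F' (En.sft z x) (S u) = S (F' x u)) (x : X) (j : Sd d) :
    (F x (NB.dl 0)) j = conj ((F' (En.sft j x) (NB.dl 0)) (-j)) := by
  obtain ⟨S, hS⟩ := (NB.t_OPS d).1 j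
  obtain ⟨S', hS'⟩ := (NB.t_OPS d).1 (-j)
  have h1 : S' (NB.dl 0) = NB.dl j := NB.LIMB.shift_dl j S' hS'
  have h2 : S (NB.dl j) = NB.dl 0 := by rw [← h1, NBA.ZAC.inv1 hS hS']
  have h3 : F' (En.sft j x) (NB.dl 0) = S (F' x (NB.dl j)) := by rw [← h2, cF' j S hS]
  rw [h3, hS, neg_add_cancel, ← NB.STAT.inner_dl j, ← NB.STAT.inner_dl 0 (F' x (NB.dl j)),
    inner_conj_symm]
  have h4 := hF x (NB.dl 0) (NB.dl j)
  rw [← inner_conj_symm, h4, inner_conj_symm]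

theorem cycl (En : Envr d K ν X P) {F G F' G' : X → L2 d →L[ℂ] L2 d} {A : ℝ}
    (hF : ∀ x u w, ⟪F x u, w⟫_ℂ = ⟪u, F' x w⟫_ℂ) (hG : ∀ x u w, ⟪G x u, w⟫_ℂ = ⟪u, G' x w⟫_ℂ)
    (cF' : ∀ (z : Sd d) (S : L2 d →L[ℂ] L2 d), NB.IsShift z S → ∀ x u,
      F' (En.sft z x) (S u) = S (F' x u))
    (cG' : ∀ (z : Sd d) (S : L2 d →L[ℂ] L2 d), NB.IsShift z S → ∀ x u,
      G' (En.sft z x) (S u) = S (G' x u))
    (bF : ∀ x, ‖F x (NB.dl 0)‖ ≤ A) (bG : ∀ x, ‖G x (NB.dl 0)‖ ≤ A)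
    (bF' : ∀ x, ‖F' x (NB.dl 0)‖ ≤ A) (bG' : ∀ x, ‖G' x (NB.dl 0)‖ ≤ A)
    (mF : AEStronglyMeasurable (fun x => F x (NB.dl 0)) P)
    (mG : AEStronglyMeasurable (fun x => G x (NB.dl 0)) P)
    (mF' : AEStronglyMeasurable (fun x => F' x (NB.dl 0)) P)
    (mG' : AEStronglyMeasurable (fun x => G' x (NB.dl 0)) P) :
    ∫ x, ⟪F x (NB.dl 0), G x (NB.dl 0)⟫_ℂ ∂P = ∫ x, ⟪G' x (NB.dl 0), F' x (NB.dl 0)⟫_ℂ ∂P := by
  have mc : ∀ {h : X → L2 d} (j : NB.Site d), AEStronglyMeasurable h P →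
      AEStronglyMeasurable (fun x => (h x) j) P := fun j hh =>
    (NB.STAT.cont_eval j).comp_aestronglyMeasurable hh
  have E1 := NB.STAT.exch P (fun x => F x (NB.dl 0)) (fun x => G x (NB.dl 0)) A
    (fun j => mc j mF) (fun j => mc j mG) bF bG
  have E2 := NB.STAT.exch P (fun x => G' x (NB.dl 0)) (fun x => F' x (NB.dl 0)) A
    (fun j => mc j mG') (fun j => mc j mF') bG' bF'
  have key : ∀ j : NB.Site d, (∫ x, conj ((F x (NB.dl 0)) j) * (G x (NB.dl 0)) j ∂P) =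
      ∫ x, conj ((G' x (NB.dl 0)) (-j)) * (F' x (NB.dl 0)) (-j) ∂P := by
    intro j
    have hmp := En.sft_mp j
    set Φ : X → ℂ := fun x => conj ((G' x (NB.dl 0)) (-j)) * (F' x (NB.dl 0)) (-j) with hΦ
    have mΦ : AEStronglyMeasurable Φ P :=
      (Complex.continuous_conj.comp_aestronglyMeasurable (mc _ mG')).mul (mc _ mF')
    calc (∫ x, conj ((F x (NB.dl 0)) j) * (G x (NB.dl 0)) j ∂P)
        = ∫ x, Φ (En.sft j x) ∂P := by
          refine integral_congr_ae (ae_of_all _ fun x => ?_)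
          simp only [hΦ]
          rw [coord_adj hF cF' x j, coord_adj hG cG' x j, Complex.conj_conj, mul_comm]
      _ = ∫ x, Φ x ∂(Measure.map (En.sft j) P) := by
          rw [integral_map hmp.measurable.aemeasurable]
          rw [hmp.map_eq]
          exact mΦ
      _ = ∫ x, Φ x ∂P := by rw [hmp.map_eq]
  have E3 : HasSum (fun j => ∫ x, conj ((F x (NB.dl 0)) j) * (G x (NB.dl 0)) j ∂P)
      (∫ x, ⟪G' x (NB.dl 0), F' x (NB.dl 0)⟫_ℂ ∂P) := by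
    have h := (Equiv.neg (NB.Site d)).hasSum_iff.mpr E2
    have e : (fun j => ∫ x, conj ((F x (NB.dl 0)) j) * (G x (NB.dl 0)) j ∂P) =
        (fun j => ∫ x, conj ((G' x (NB.dl 0)) j) * (F' x (NB.dl 0)) j ∂P) ∘
          ⇑(Equiv.neg (NB.Site d)) := funext key
    rw [e]
    exact h
  exact E1.unique E3

omit [IsProbabilityMeasure P] in
theorem Fd.m0 (h : Fd En M Y) : AEStronglyMeasurable (fun x => Y x (NB.dl 0)) P :=
  h.meas _ aestronglyMeasurable_const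

omit [IsProbabilityMeasure P] in
theorem Fd.b0 (h : Fd En M Y) (x : X) : ‖Y x (NB.dl 0)‖ ≤ M := by
  have h1 := h.bound x (NB.dl 0)
  rwa [NB.STAT.norm_dl, mul_one] at h1

/-- symmetry of the trace -/
theorem Fd.tsym {M' : ℝ} {Y' : X → L2 d →L[ℂ] L2 d} (h : Fd En M Y) (h' : Fd En M' Y') :
    ∫ x, ⟪Y x (NB.dl 0), Y' x (NB.dl 0)⟫_ℂ ∂P = ∫ x, ⟪Y' x (NB.dl 0), Y x (NB.dl 0)⟫_ℂ ∂P :=
  cycl En (A := max M M') h.symm h'.symm h.cov h'.cov (fun x => (h.b0 x).trans (le_max_left _ _))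
    (fun x => (h'.b0 x).trans (le_max_right _ _)) (fun x => (h.b0 x).trans (le_max_left _ _))
    (fun x => (h'.b0 x).trans (le_max_right _ _)) h.m0 h'.m0 h.m0 h'.m0

/-- the evolution preserves the trace scalar product -/
theorem Fd.inv (hK : ∀ᵐ r ∂ν, |r| ≤ K) {M' : ℝ} {Y' : X → L2 d →L[ℂ] L2 d} (h : Fd En M Y)
    (h' : Fd En M' Y') (s : ℝ) :
    ∫ x, ⟪MX.cj (En.W x) s (Y x) (NB.dl 0), MX.cj (En.W x) s (Y' x) (NB.dl 0)⟫_ℂ ∂P =
      ∫ x, ⟪Y x (NB.dl 0), Y' x (NB.dl 0)⟫_ℂ ∂P := by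
  have hb : ∀ {M₁ : ℝ} {Z : X → L2 d →L[ℂ] L2 d}, Fd En M₁ Z → M₁ ≤ max M M' → ∀ x t,
      ‖Z x ((En.W x).U t (NB.dl 0))‖ ≤ max M M' := by
    intro M₁ Z hZ hM x t
    refine ((hZ.bound x _).trans ?_)
    rw [(En.W x).norm', NB.STAT.norm_dl, mul_one]
    exact hM
  have h1 := cycl En (A := max M M') (F := fun x => (Y x).comp ((En.W x).U s))
    (G := fun x => (Y' x).comp ((En.W x).U s)) (F' := fun x => ((En.W x).U (-s)).comp (Y x))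
    (G' := fun x => ((En.W x).U (-s)).comp (Y' x))
    (fun x u w => by
      show ⟪Y x ((En.W x).U s u), w⟫_ℂ = ⟪u, (En.W x).U (-s) (Y x w)⟫_ℂ
      rw [h.symm, NB.NN.inner_adj])
    (fun x u w => by
      show ⟪Y' x ((En.W x).U s u), w⟫_ℂ = ⟪u, (En.W x).U (-s) (Y' x w)⟫_ℂ
      rw [h'.symm, NB.NN.inner_adj])
    (fun z S hS x u => by
      show (En.W (En.sft z x)).U (-s) (Y (En.sft z x) (S u)) = S ((En.W x).U (-s) (Y x u))
      rw [h.cov z S hS, En.w_cov hS])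
    (fun z S hS x u => by
      show (En.W (En.sft z x)).U (-s) (Y' (En.sft z x) (S u)) = S ((En.W x).U (-s) (Y' x u))
      rw [h'.cov z S hS, En.w_cov hS])
    (fun x => hb h (le_max_left _ _) x s) (fun x => hb h' (le_max_right _ _) x s)
    (fun x => by
      show ‖(En.W x).U (-s) (Y x (NB.dl 0))‖ ≤ _
      rw [(En.W x).norm']
      exact (h.b0 x).trans (le_max_left _ _))
    (fun x => by
      show ‖(En.W x).U (-s) (Y' x (NB.dl 0))‖ ≤ _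
      rw [(En.W x).norm']
      exact (h'.b0 x).trans (le_max_right _ _))
    (h.meas _ (En.ex_meas hK s aestronglyMeasurable_const))
    (h'.meas _ (En.ex_meas hK s aestronglyMeasurable_const))
    (En.ex_meas hK _ h.m0) (En.ex_meas hK _ h'.m0)
  have e1 : ∀ x, ⟪MX.cj (En.W x) s (Y x) (NB.dl 0), MX.cj (En.W x) s (Y' x) (NB.dl 0)⟫_ℂ =
      ⟪((Y x).comp ((En.W x).U s)) (NB.dl 0), ((Y' x).comp ((En.W x).U s)) (NB.dl 0)⟫_ℂ := by
    intro x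
    rw [cj_apply, cj_apply, NB.NN.inner_pres]
    rfl
  have e2 : ∀ x, ⟪(((En.W x).U (-s)).comp (Y' x)) (NB.dl 0),
      (((En.W x).U (-s)).comp (Y x)) (NB.dl 0)⟫_ℂ = ⟪Y' x (NB.dl 0), Y x (NB.dl 0)⟫_ℂ :=
    fun x => NB.NN.inner_pres _ _ _ _
  simp_rw [e1]
  rw [h1]
  simp_rw [e2]
  exact h'.tsym h

/-- moving the evolution to the other side -/
theorem Fd.move (hK : ∀ᵐ r ∂ν, |r| ≤ K) {M' : ℝ} {Y' : X → L2 d →L[ℂ] L2 d} (h : Fd En M Y)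
    (h' : Fd En M' Y') (s : ℝ) :
    ∫ x, ⟪MX.cj (En.W x) s (Y x) (NB.dl 0), Y' x (NB.dl 0)⟫_ℂ ∂P =
      ∫ x, ⟪Y x (NB.dl 0), MX.cj (En.W x) (-s) (Y' x) (NB.dl 0)⟫_ℂ ∂P := by
  rw [← (h.inv hK (h'.cj hK (-s)) s)]
  have e : ∀ x, MX.cj (En.W x) s (MX.cj (En.W x) (-s) (Y' x)) = Y' x := by
    intro x
    ext1 u
    rw [cj_apply, cj_apply, NB.STAT.UG_neg, neg_neg, NB.STAT.UG_neg]
  simp_rw [e]

/-- the vector of a field -/
noncomputable def vec (P : Measure X) [IsProbabilityMeasure P] (Y : X → L2 d →L[ℂ] L2 d) :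
    Lp (L2 d) 2 P :=
  open Classical in
  if h : MemLp (fun x => Y x (NB.dl 0)) 2 P then h.toLp else 0

theorem Fd.mem (h : Fd En M Y) : MemLp (fun x => Y x (NB.dl 0)) 2 P :=
  MemLp.of_bound h.m0 M (ae_of_all _ h.b0)

theorem Fd.coe (h : Fd En M Y) : ∀ᵐ x ∂P, (vec P Y) x = Y x (NB.dl 0) := by
  unfold vec
  rw [dif_pos h.mem]
  exact h.mem.coeFn_toLp

theorem Fd.inner_vec {M' : ℝ} {Y' : X → L2 d →L[ℂ] L2 d} (h : Fd En M Y) (h' : Fd En M' Y') :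
    ⟪vec P Y, vec P Y'⟫_ℂ = ∫ x, ⟪Y x (NB.dl 0), Y' x (NB.dl 0)⟫_ℂ ∂P := by
  rw [L2.inner_def]
  refine integral_congr_ae ?_
  filter_upwards [h.coe, h'.coe] with x e1 e2
  rw [e1, e2]

theorem Fd.vec_inj {M' : ℝ} {Y' : X → L2 d →L[ℂ] L2 d} (h : Fd En M Y) (h' : Fd En M' Y')
    (he : vec P Y = vec P Y') : ∀ᵐ x ∂P, Y x = Y' x := by
  refine h.ext h' ?_
  have h1 := h.coe
  have h2 := h'.coe
  rw [he] at h1
  filter_upwards [h1, h2] with x e1 e2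
  rw [← e1, e2]

theorem Fd.norm_vec (h : Fd En M Y) : ‖vec P Y‖ ≤ M := by
  have hM : 0 ≤ M := by
    obtain ⟨x⟩ := nonempty_of_isProbabilityMeasure P
    exact h.nn x
  have h1 : eLpNorm (vec P Y) 2 P ≤ ENNReal.ofReal M := by
    refine (eLpNorm_congr_ae h.coe).le.trans ?_
    refine (eLpNorm_le_of_ae_bound (C := M) (ae_of_all _ h.b0)).trans ?_
    simp
  rw [Lp.norm_def]
  exact ENNReal.toReal_le_of_le_ofReal hM h1

/-- isometry -/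
theorem Fd.norm_cj (hK : ∀ᵐ r ∂ν, |r| ≤ K) (h : Fd En M Y) (s : ℝ) :
    ‖vec P (fun x => MX.cj (En.W x) s (Y x))‖ = ‖vec P Y‖ := by
  have h1 : ⟪vec P (fun x => MX.cj (En.W x) s (Y x)), vec P (fun x => MX.cj (En.W x) s (Y x))⟫_ℂ =
      ⟪vec P Y, vec P Y⟫_ℂ := by
    rw [(h.cj hK s).inner_vec (h.cj hK s), h.inner_vec h, h.inv hK h s]
  rw [inner_self_eq_norm_sq_to_K, inner_self_eq_norm_sq_to_K] at h1
  have h2 : ‖vec P (fun x => MX.cj (En.W x) s (Y x))‖ ^ 2 = ‖vec P Y‖ ^ 2 := by exact_mod_cast h1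
  exact (sq_eq_sq₀ (norm_nonneg _) (norm_nonneg _)).1 h2

theorem Fd.vec_cmb (hK : ∀ᵐ r ∂ν, |r| ≤ K) (h : Fd En M Y) {w : ℝ →₀ ℝ} (hw : ∀ s, 0 ≤ w s)
    (hw1 : ∑ s ∈ w.support, w s = 1) : vec P (fun x => MX.cmb (En.W x) w (Y x)) =
      ∑ s ∈ w.support, ((w s : ℝ) : ℂ) • vec P (fun x => MX.cj (En.W x) s (Y x)) := by
  apply Lp.ext
  have h0 : (vec P (fun x => MX.cmb (En.W x) w (Y x)) : X → L2 d) =ᵐ[P]
      fun x => MX.cmb (En.W x) w (Y x) (NB.dl 0) := (h.cmb hK hw hw1).coe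
  refine h0.trans ?_
  have h1 : ∀ᵐ x ∂P, ∀ s ∈ w.support, (((w s : ℝ) : ℂ) • vec P
      (fun x => MX.cj (En.W x) s (Y x)) : Lp (L2 d) 2 P) x =
      ((w s : ℝ) : ℂ) • MX.cj (En.W x) s (Y x) (NB.dl 0) := by
    rw [eventually_all_finset]
    intro s _
    filter_upwards [Lp.coeFn_smul ((w s : ℝ) : ℂ) (vec P (fun x => MX.cj (En.W x) s (Y x))),
      (h.cj hK s).coe] with x e1 e2
    rw [e1, Pi.smul_apply, e2]
  filter_upwards [h1, Lp.coeFn_finsetSum w.support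
    (fun s => (((w s : ℝ) : ℂ) • vec P (fun x => MX.cj (En.W x) s (Y x)) : Lp (L2 d) 2 P))]
    with x e1 e2
  rw [e2, Finset.sum_apply, Finset.sum_congr rfl e1]
  unfold MX.cmb
  rw [sum_apply]
  rfl

end Pool.Agent.T9h56.MX
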