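import Pool.Agent.T9h56.MX.Inv

/-! # All test states -/

set_option autoImplicit false

open MeasureTheory Filter Topology Set
open scoped ENNReal NNReal InnerProductSpace ComplexConjugate

namespace Pool.Agent.T9h56.MX

open Pool.Agent.TH980.IM Pool.Agent.H5R2 Pool.Agent.Y662.ERG
open Pool.Agent.TH980.IM.PR

variable {d : ℕ} {K : ℝ} {ν : Measure ℝ} [IsProbabilityMeasure ν] {X : Type} [MeasurableSpace X]
  {P : Measure X} [IsProbabilityMeasure P] {En : Envr d K ν X P} {M : ℝ}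
  {Y B : X → L2 d →L[ℂ] L2 d}

omit [IsProbabilityMeasure P] in
theorem coord_m {h : X → L2 d} (j : Sd d) (hh : AEStronglyMeasurable h P) :
    AEStronglyMeasurable (fun x => (h x) j) P :=
  (NB.STAT.cont_eval j).comp_aestronglyMeasurable hh

omit [IsProbabilityMeasure P] in
theorem Envr.inv_sft (En : Envr d K ν X P) (z : Sd d) (x : X) : En.sft (-z) (En.sft z x) = x := by
  have h := En.sft_inv (-z) x
  rwa [neg_neg] at h

/-- the test vector of one site -/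
theorem one_site (En : Envr d K ν X P) {φ : X → L2 d} {c : X → ℂ} (z : Sd d)
    (hφ : AEStronglyMeasurable φ P) (hc : AEStronglyMeasurable c P) {R : ℝ}
    (bφ : ∀ x, ‖φ x‖ ≤ R) (bc : ∀ x, ‖c x‖ ≤ R) : ∃ g : Lp (L2 d) 2 P, ∀ (M : ℝ)
      (Y : X → L2 d →L[ℂ] L2 d), Fd En M Y →
      ∫ x, ⟪φ x, Y x (c x • NB.dl z)⟫_ℂ ∂P = ⟪g, vec P Y⟫_ℂ := by
  obtain ⟨S, hS⟩ := (NB.t_OPS d).1 (-z)
  obtain ⟨T, hT⟩ := (NB.t_OPS d).1 z
  set G : X → L2 d := fun x => conj (c (En.sft (-z) x)) • T (φ (En.sft (-z) x)) with hG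
  have hR : 0 ≤ R := by
    obtain ⟨x⟩ := nonempty_of_isProbabilityMeasure P
    exact (norm_nonneg _).trans (bφ x)
  have hq := (En.sft_mp (-z)).quasiMeasurePreserving
  have hGm : AEStronglyMeasurable G P := by
    have m1 : AEStronglyMeasurable (fun x => conj (c (En.sft (-z) x))) P :=
      Complex.continuous_conj.comp_aestronglyMeasurable (hc.comp_quasiMeasurePreserving hq)
    have m2 : AEStronglyMeasurable (fun x => T (φ (En.sft (-z) x))) P :=
      T.continuous.comp_aestronglyMeasurable (hφ.comp_quasiMeasurePreserving hq)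
    exact m1.smul m2
  have hGb : ∀ x, ‖G x‖ ≤ R * R := by
    intro x
    rw [hG]
    simp only
    rw [norm_smul, RCLike.norm_conj,
      NBA.ZAC.normT hS (T := T) (by rw [neg_neg]; exact hT)]
    exact mul_le_mul (bc _) (bφ _) (norm_nonneg _) hR
  have hGL : MemLp G 2 P := MemLp.of_bound hGm (R * R) (ae_of_all _ hGb)
  refine ⟨hGL.toLp, fun M Y hY => ?_⟩
  set F : X → ℂ := fun x => ⟪G x, Y x (NB.dl 0)⟫_ℂ with hF
  have hFm : AEStronglyMeasurable F P := hGm.inner hY.m0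
  have e1 : ∀ x, ⟪φ x, Y x (c x • NB.dl z)⟫_ℂ = F (En.sft z x) := by
    intro x
    rw [hF, hG]
    simp only
    rw [En.inv_sft, map_smul, inner_smul_right, inner_smul_left, Complex.conj_conj,
      hY.at_dl x z hS]
    congr 1
    have h1 := NB.CV.shift_adj hT hS (φ x) (Y (En.sft z x) (NB.dl 0))
    rw [h1]
  calc ∫ x, ⟪φ x, Y x (c x • NB.dl z)⟫_ℂ ∂P = ∫ x, F (En.sft z x) ∂P := by simp_rw [e1]
    _ = ∫ x, F x ∂(Measure.map (En.sft z) P) := by
        rw [integral_map (En.sft_mp z).measurable.aemeasurable]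
        rw [(En.sft_mp z).map_eq]
        exact hFm
    _ = ∫ x, F x ∂P := by rw [(En.sft_mp z).map_eq]
    _ = ⟪hGL.toLp, vec P Y⟫_ℂ := by
        rw [L2.inner_def]
        refine integral_congr_ae ?_
        filter_upwards [hGL.coeFn_toLp, hY.coe] with x e2 e3
        rw [e2, e3]

/-- finitely many sites -/
theorem fin_site (En : Envr d K ν X P) {φ ψ : X → L2 d} (F : Finset (Sd d))
    (hφ : AEStronglyMeasurable φ P) (hψ : AEStronglyMeasurable ψ P) {R : ℝ}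
    (bφ : ∀ x, ‖φ x‖ ≤ R) (bψ : ∀ x, ‖ψ x‖ ≤ R) : ∃ g : Lp (L2 d) 2 P, ∀ (M : ℝ)
      (Y : X → L2 d →L[ℂ] L2 d), Fd En M Y →
      ∫ x, ⟪φ x, Y x (NB.CV.PF F (ψ x))⟫_ℂ ∂P = ⟪g, vec P Y⟫_ℂ := by
  have hR : 0 ≤ R := by
    obtain ⟨x⟩ := nonempty_of_isProbabilityMeasure P
    exact (norm_nonneg _).trans (bφ x)
  have bc : ∀ (z : Sd d) x, ‖(ψ x) z‖ ≤ R := fun z x =>
    (lp.norm_apply_le_norm (by norm_num) (ψ x) z).trans (bψ x)
  choose g hg using fun z : Sd d => one_site En z hφ (coord_m z hψ) bφ (bc z)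
  refine ⟨∑ z ∈ F, g z, fun M Y hY => ?_⟩
  have hM : 0 ≤ M := by
    obtain ⟨x⟩ := nonempty_of_isProbabilityMeasure P
    exact hY.nn x
  have e : ∀ x, ⟪φ x, Y x (NB.CV.PF F (ψ x))⟫_ℂ =
      ∑ z ∈ F, ⟪φ x, Y x ((ψ x) z • NB.dl z)⟫_ℂ := by
    intro x
    rw [NB.CV.PF_apply, map_sum, inner_sum]
    refine Finset.sum_congr rfl fun z _ => ?_
    unfold NB.dl
    rw [← lp.single_smul]
    simp
  simp_rw [e]
  rw [integral_finsetSum, sum_inner]
  · exact Finset.sum_congr rfl fun z _ => hg z M Y hY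
  · intro z _
    refine Integrable.of_bound (C := R * (M * R)) ?_ (ae_of_all _ fun x => ?_)
    · refine hφ.inner (hY.meas _ ?_)
      exact (coord_m z hψ).smul aestronglyMeasurable_const
    · refine (norm_inner_le_norm _ _).trans ?_
      refine mul_le_mul (bφ x) ((hY.bound x _).trans ?_) (norm_nonneg _) hR
      refine mul_le_mul_of_nonneg_left ?_ hM
      rw [norm_smul, NB.STAT.norm_dl, mul_one]
      exact bc z x

/-- weak convergence of the vectors implies convergence for all test states -/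
theorem Fd.tst {Ys : ℝ → X → L2 d →L[ℂ] L2 d} (hY : ∀ s, Fd En M (Ys s)) (hB : Fd En M B)
    {l : Filter ℝ} (h : ∀ g : Lp (L2 d) 2 P, Tendsto (fun s => ⟪g, vec P (Ys s)⟫_ℂ) l
      (𝓝 ⟪g, vec P B⟫_ℂ)) {φ ψ : X → L2 d} (hφ : AEStronglyMeasurable φ P)
    (hψ : AEStronglyMeasurable ψ P) {R : ℝ} (bφ : ∀ x, ‖φ x‖ ≤ R) (bψ : ∀ x, ‖ψ x‖ ≤ R) :
    Tendsto (fun s => ∫ x, ⟪φ x, Ys s x (ψ x)⟫_ℂ ∂P) l (𝓝 (∫ x, ⟪φ x, B x (ψ x)⟫_ℂ ∂P)) := by
  have hR : 0 ≤ R := by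
    obtain ⟨x⟩ := nonempty_of_isProbabilityMeasure P
    exact (norm_nonneg _).trans (bφ x)
  have hM : 0 ≤ M := by
    obtain ⟨x⟩ := nonempty_of_isProbabilityMeasure P
    exact hB.nn x
  have hPF : ∀ F : Finset (Sd d), AEStronglyMeasurable (fun x => NB.CV.PF F (ψ x)) P := fun F =>
    (NB.CV.PF F).continuous.comp_aestronglyMeasurable hψ
  -- the error of the truncation
  have herr : Tendsto (fun F : Finset (Sd d) => ∫ x, ‖ψ x - NB.CV.PF F (ψ x)‖ ∂P) atTop (𝓝 0) := by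
    have h1 : Tendsto (fun F : Finset (Sd d) => ∫ x, ‖ψ x - NB.CV.PF F (ψ x)‖ ∂P) atTop
        (𝓝 (∫ _x, 0 ∂P)) := by
      refine tendsto_integral_filter_of_dominated_convergence (fun _ => R + R)
        (Eventually.of_forall fun F => ((hψ.sub (hPF F)).norm))
        (Eventually.of_forall fun F => ae_of_all _ fun x => ?_) (integrable_const _)
        (ae_of_all _ fun x => ?_)
      · rw [norm_norm]
        exact (norm_sub_le _ _).trans (add_le_add (bψ x) ((NB.CV.PF_norm_le _ _).trans (bψ x)))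
      · have h2 := (tendsto_const_nhds (x := ψ x)).sub (NB.CV.PF_tendsto (ψ x))
        rw [sub_self] at h2
        have h3 := h2.norm
        rwa [norm_zero] at h3
    simpa using h1
  have key : ∀ (F : Finset (Sd d)) (Y : X → L2 d →L[ℂ] L2 d), Fd En M Y →
      ‖∫ x, ⟪φ x, Y x (ψ x)⟫_ℂ ∂P - ∫ x, ⟪φ x, Y x (NB.CV.PF F (ψ x))⟫_ℂ ∂P‖ ≤
        R * (M * ∫ x, ‖ψ x - NB.CV.PF F (ψ x)‖ ∂P) := by
    intro F Y hY
    have hi : ∀ η : X → L2 d, AEStronglyMeasurable η P → (∀ x, ‖η x‖ ≤ R) →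
        Integrable (fun x => ⟪φ x, Y x (η x)⟫_ℂ) P := by
      intro η hη bη
      refine Integrable.of_bound (C := R * (M * R)) (hφ.inner (hY.meas _ hη))
        (ae_of_all _ fun x => ?_)
      refine (norm_inner_le_norm _ _).trans ?_
      exact mul_le_mul (bφ x) ((hY.bound x _).trans (mul_le_mul_of_nonneg_left (bη x) hM))
        (norm_nonneg _) hR
    rw [← integral_sub (hi _ hψ bψ) (hi _ (hPF F) fun x => (NB.CV.PF_norm_le _ _).trans (bψ x)),
      ← integral_const_mul, ← integral_const_mul]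
    refine norm_integral_le_of_norm_le ?_ (ae_of_all _ fun x => ?_)
    · refine Integrable.of_bound (C := R * (M * (R + R))) ?_ (ae_of_all _ fun x => ?_)
      · exact ((hψ.sub (hPF F)).norm.const_mul _).const_mul _
      · rw [norm_mul, norm_mul, norm_norm, Real.norm_of_nonneg hR, Real.norm_of_nonneg hM]
        refine mul_le_mul_of_nonneg_left (mul_le_mul_of_nonneg_left ?_ hM) hR
        exact (norm_sub_le _ _).trans (add_le_add (bψ x) ((NB.CV.PF_norm_le _ _).trans (bψ x)))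
    · rw [← inner_sub_right, ← map_sub]
      refine (norm_inner_le_norm _ _).trans ?_
      exact mul_le_mul (bφ x) (hY.bound x _) (norm_nonneg _) hR
  rw [Metric.tendsto_nhds]
  intro ε hε
  have h1 : Tendsto (fun F : Finset (Sd d) => R * (M * ∫ x, ‖ψ x - NB.CV.PF F (ψ x)‖ ∂P)) atTop
      (𝓝 0) := by
    have := (herr.const_mul M).const_mul R
    simpa using this
  obtain ⟨F, hF⟩ := ((Metric.tendsto_nhds.1 h1) (ε / 3) (by positivity)).exists
  rw [dist_zero_right] at hF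
  have hF' := (le_abs_self _).trans_lt hF
  obtain ⟨g, hg⟩ := fin_site En F hφ hψ bφ bψ
  have h2 := (Metric.tendsto_nhds.1 (h g)) (ε / 3) (by positivity)
  filter_upwards [h2] with s hs
  rw [← hg M _ (hY s), ← hg M _ hB] at hs
  have k1 := key F _ (hY s)
  have k2 := key F _ hB
  rw [← dist_eq_norm] at k1 k2
  calc dist (∫ x, ⟪φ x, Ys s x (ψ x)⟫_ℂ ∂P) (∫ x, ⟪φ x, B x (ψ x)⟫_ℂ ∂P)
      ≤ dist (∫ x, ⟪φ x, Ys s x (ψ x)⟫_ℂ ∂P) (∫ x, ⟪φ x, Ys s x (NB.CV.PF F (ψ x))⟫_ℂ ∂P) +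
        dist (∫ x, ⟪φ x, Ys s x (NB.CV.PF F (ψ x))⟫_ℂ ∂P)
          (∫ x, ⟪φ x, B x (NB.CV.PF F (ψ x))⟫_ℂ ∂P) +
        dist (∫ x, ⟪φ x, B x (NB.CV.PF F (ψ x))⟫_ℂ ∂P) (∫ x, ⟪φ x, B x (ψ x)⟫_ℂ ∂P) :=
        dist_triangle4 _ _ _ _
    _ < ε / 3 + ε / 3 + ε / 3 := by
        rw [dist_comm (∫ x, ⟪φ x, B x (NB.CV.PF F (ψ x))⟫_ℂ ∂P)]
        linarith
    _ = ε := by ring

end Pool.Agent.T9h56.MX
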