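import Pool.Agent.T9h56.MX.Tr

/-! # Weak limits along ultrafilters and almost sure limits of convex combinations -/

set_option autoImplicit false

open MeasureTheory Filter Topology Set
open scoped ENNReal NNReal InnerProductSpace ComplexConjugate

namespace Pool.Agent.T9h56.MX

open Pool.Agent.TH980.IM Pool.Agent.H5R2 Pool.Agent.Y662.ERG
open Pool.Agent.TH980.IM.PR

section hil

variable {H : Type} [NormedAddCommGroup H] [InnerProductSpace ℂ H] [CompleteSpace H]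

theorem weak_lim (𝒰 : Ultrafilter ℝ) (ξ : ℝ → H) (C : ℝ) (hξ : ∀ s, ‖ξ s‖ ≤ C) :
    ∃ y : H, ‖y‖ ≤ C ∧ ∀ g : H, Tendsto (fun s => ⟪g, ξ s⟫_ℂ) 𝒰 (𝓝 ⟪g, y⟫_ℂ) := by
  have hC : 0 ≤ C := (norm_nonneg _).trans (hξ 0)
  have h1 : ∀ g : H, ∃ l : ℂ, ‖l‖ ≤ C * ‖g‖ ∧ Tendsto (fun s => ⟪ξ s, g⟫_ℂ) 𝒰 (𝓝 l) := by
    intro g
    have hc : IsCompact (Metric.closedBall (0 : ℂ) (C * ‖g‖)) := isCompact_closedBall _ _
    have hm : ((𝒰.map fun s => ⟪ξ s, g⟫_ℂ : Ultrafilter ℂ) : Filter ℂ) ≤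
        𝓟 (Metric.closedBall (0 : ℂ) (C * ‖g‖)) := by
      rw [le_principal_iff, Ultrafilter.mem_coe, Ultrafilter.mem_map]
      refine Filter.univ_mem' fun s => ?_
      show ⟪ξ s, g⟫_ℂ ∈ Metric.closedBall (0 : ℂ) (C * ‖g‖)
      rw [mem_closedBall_zero_iff]
      exact (norm_inner_le_norm _ _).trans (mul_le_mul_of_nonneg_right (hξ s) (norm_nonneg _))
    obtain ⟨l, hl, hle⟩ := hc.ultrafilter_le_nhds _ hm
    refine ⟨l, mem_closedBall_zero_iff.1 hl, ?_⟩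
    exact hle
  choose L hL1 hL2 using h1
  have hadd : ∀ g g', L (g + g') = L g + L g' := by
    intro g g'
    refine tendsto_nhds_unique (hL2 (g + g')) (((hL2 g).add (hL2 g')).congr fun s => ?_)
    rw [inner_add_right]
  have hsmul : ∀ (c : ℂ) g, L (c • g) = c * L g := by
    intro c g
    refine tendsto_nhds_unique (hL2 (c • g)) (((hL2 g).const_mul c).congr fun s => ?_)
    rw [inner_smul_right]
  set Lc : H →L[ℂ] ℂ := LinearMap.mkContinuous
    { toFun := L, map_add' := hadd, map_smul' := hsmul } C hL1 with hLc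
  have hLn : ‖Lc‖ ≤ C := LinearMap.mkContinuous_norm_le _ hC _
  refine ⟨(InnerProductSpace.toDual ℂ H).symm Lc, ?_, fun g => ?_⟩
  · rw [LinearIsometryEquiv.norm_map]
    exact hLn
  · have h2 : ⟪(InnerProductSpace.toDual ℂ H).symm Lc, g⟫_ℂ = L g := by
      rw [InnerProductSpace.toDual_symm_apply]
      rfl
    have h3 := (Complex.continuous_conj.tendsto _).comp (hL2 g)
    rw [← h2, inner_conj_symm] at h3
    refine h3.congr fun s => ?_
    show conj ⟪ξ s, g⟫_ℂ = _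
    rw [inner_conj_symm]

/-- weak limits are limits of convex combinations -/
theorem mazur {l : Filter ℝ} [l.NeBot] {ξ : ℝ → H} {y : H}
    (h : ∀ g, Tendsto (fun s => ⟪g, ξ s⟫_ℂ) l (𝓝 ⟪g, y⟫_ℂ)) {S : Set ℝ} (hS : S ∈ l) {ε : ℝ}
    (hε : 0 < ε) : ∃ w : ℝ →₀ ℝ, (∀ s, 0 ≤ w s) ∧ ∑ s ∈ w.support, w s = 1 ∧
      (∀ s ∈ w.support, s ∈ S) ∧ ‖∑ s ∈ w.support, ((w s : ℝ) : ℂ) • ξ s - y‖ < ε := by
  set L : (ℝ →₀ ℝ) →ₗ[ℝ] H := Finsupp.linearCombination ℝ ξ with hL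
  set W : Set (ℝ →₀ ℝ) := {w | (∀ s, 0 ≤ w s) ∧ Finsupp.linearCombination ℝ (fun _ => (1 : ℝ)) w = 1 ∧
    ∀ s ∉ S, w s = 0} with hW
  have hWc : Convex ℝ W := by
    intro w hw w' hw' a b ha hb hab
    refine ⟨fun s => ?_, ?_, fun s hs => ?_⟩
    · show 0 ≤ a * w s + b * w' s
      exact add_nonneg (mul_nonneg ha (hw.1 s)) (mul_nonneg hb (hw'.1 s))
    · rw [map_add, map_smul, map_smul, hw.2.1, hw'.2.1, smul_eq_mul, smul_eq_mul, mul_one, mul_one,
        hab]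
    · show a * w s + b * w' s = 0
      rw [hw.2.2 s hs, hw'.2.2 s hs, mul_zero, mul_zero, add_zero]
  have hCc : Convex ℝ (L '' W) := hWc.linear_image L
  have hy : y ∈ closure (L '' W) := by
    by_contra hy
    obtain ⟨f, u, hf1, hf2⟩ := RCLike.geometric_hahn_banach_point_closed (𝕜 := ℂ)
      (hCc.closure) isClosed_closure hy
    set a : H := (InnerProductSpace.toDual ℂ H).symm f with ha
    have hfa : ∀ x, f x = ⟪a, x⟫_ℂ := fun x => by
      rw [ha, InnerProductSpace.toDual_symm_apply]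
    have h1 : Tendsto (fun s => RCLike.re ⟪a, ξ s⟫_ℂ) l (𝓝 (RCLike.re ⟪a, y⟫_ℂ)) :=
      (RCLike.continuous_re.tendsto _).comp (h a)
    have h2 : ∀ᶠ s in l, u ≤ RCLike.re ⟪a, ξ s⟫_ℂ := by
      filter_upwards [hS] with s hs
      rw [← hfa]
      refine (hf2 (ξ s) (subset_closure ⟨Finsupp.single s 1, ⟨fun t => ?_, ?_, fun t ht => ?_⟩,
        ?_⟩)).le
      · rw [Finsupp.single_apply]
        split_ifs <;> norm_num
      · rw [Finsupp.linearCombination_single, smul_eq_mul, mul_one]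
      · rw [Finsupp.single_apply, if_neg]
        rintro rfl
        exact ht hs
      · rw [hL, Finsupp.linearCombination_single, one_smul]
    have h3 := ge_of_tendsto h1 h2
    rw [hfa] at hf1
    exact absurd hf1 (not_lt.2 h3)
  obtain ⟨_, ⟨w, hw, rfl⟩, hd⟩ := Metric.mem_closure_iff.1 hy ε hε
  refine ⟨w, hw.1, ?_, fun s hs => ?_, ?_⟩
  · have h1 := hw.2.1
    rw [Finsupp.linearCombination_apply, Finsupp.sum] at h1
    simpa using h1
  · by_contra hne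
    exact (Finsupp.mem_support_iff.1 hs) (hw.2.2 s hne)
  · rw [dist_comm, dist_eq_norm] at hd
    have e : L w = ∑ s ∈ w.support, ((w s : ℝ) : ℂ) • ξ s := by
      rw [hL, Finsupp.linearCombination_apply, Finsupp.sum]
      rfl
    rwa [e] at hd

end hil

variable {d : ℕ} {K : ℝ} {ν : Measure ℝ} [IsProbabilityMeasure ν] {X : Type} [MeasurableSpace X]
  {P : Measure X} [IsProbabilityMeasure P] {En : Envr d K ν X P} {M : ℝ}
  {Y : X → L2 d →L[ℂ] L2 d}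

/-- the vector of the field at time `s` -/
noncomputable def xi (En : Envr d K ν X P) (Y : X → L2 d →L[ℂ] L2 d) (s : ℝ) : Lp (L2 d) 2 P :=
  vec P (fun x => MX.cj (En.W x) s (Y x))

/-- `Z` is the limit of the fields at time `s` along `𝒰` -/
structure IsLm (En : Envr d K ν X P) (M : ℝ) (𝒰 : Filter ℝ) (lt : Filter ℝ)
    (Y Z : X → L2 d →L[ℂ] L2 d) : Prop where
  fd : Fd En M Z
  weak : ∀ g, Tendsto (fun s => ⟪g, xi En Y s⟫_ℂ) 𝒰 (𝓝 ⟪g, vec P Z⟫_ℂ)
  strong : ∃ w : ℕ → ℝ →₀ ℝ, Wts lt w ∧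
    ∀ᵐ x ∂P, ∀ u, Tendsto (fun n => MX.cmb (En.W x) (w n) (Y x) u) atTop (𝓝 (Z x u))

theorem exists_lim (hK : ∀ᵐ r ∂ν, |r| ≤ K) (h : Fd En M Y) {lt : Filter ℝ}
    (hl : lt = atTop ∨ lt = atBot) (𝒰 : Ultrafilter ℝ) (hU : (𝒰 : Filter ℝ) ≤ lt) :
    ∃ Z, IsLm En M 𝒰 lt Y Z := by
  have hM : 0 ≤ M := by
    obtain ⟨x⟩ := nonempty_of_isProbabilityMeasure P
    exact h.nn x
  obtain ⟨y, hy1, hy2⟩ := weak_lim 𝒰 (xi En Y) M fun s => (h.cj hK s).norm_vec
  -- a countable basis of the filter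
  obtain ⟨B, hB1, hB2⟩ : ∃ B : ℕ → Set ℝ, (∀ n, B n ∈ lt) ∧ ∀ S ∈ lt, ∀ᶠ n in atTop, B n ⊆ S := by
    rcases hl with rfl | rfl
    · refine ⟨fun n => Ici (n : ℝ), fun n => Ici_mem_atTop _, fun S hS => ?_⟩
      obtain ⟨a, ha⟩ := mem_atTop_sets.1 hS
      filter_upwards [tendsto_natCast_atTop_atTop.eventually (eventually_ge_atTop a)] with n hn
      exact fun s hs => ha s (hn.trans hs)
    · refine ⟨fun n => Iic (-(n : ℝ)), fun n => Iic_mem_atBot _, fun S hS => ?_⟩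
      obtain ⟨a, ha⟩ := mem_atBot_sets.1 hS
      filter_upwards [tendsto_natCast_atTop_atTop.eventually (eventually_ge_atTop (-a))] with n hn
      exact fun s hs => ha s (by
        have : s ≤ -(n : ℝ) := hs
        linarith)
  have hw : ∀ n : ℕ, ∃ w : ℝ →₀ ℝ, (∀ s, 0 ≤ w s) ∧ ∑ s ∈ w.support, w s = 1 ∧
      (∀ s ∈ w.support, s ∈ B n) ∧
      ‖∑ s ∈ w.support, ((w s : ℝ) : ℂ) • xi En Y s - y‖ < 1 / ((n : ℝ) + 1) := fun n =>
    mazur hy2 (hU (hB1 n)) (by positivity)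
  choose w w1 w2 w3 w4 using hw
  have hF : ∀ n, Fd En M (fun x => MX.cmb (En.W x) (w n) (Y x)) := fun n =>
    h.cmb hK (w1 n) (w2 n)
  have hv : ∀ n, vec P (fun x => MX.cmb (En.W x) (w n) (Y x)) =
      ∑ s ∈ (w n).support, ((w n s : ℝ) : ℂ) • xi En Y s := fun n => h.vec_cmb hK (w1 n) (w2 n)
  have hT : Tendsto (fun n => vec P (fun x => MX.cmb (En.W x) (w n) (Y x))) atTop (𝓝 y) := by
    rw [tendsto_iff_norm_sub_tendsto_zero]
    refine squeeze_zero (fun _ => norm_nonneg _) (fun n => ?_)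
      (tendsto_one_div_add_atTop_nhds_zero_nat (𝕜 := ℝ))
    rw [hv n]
    exact (w4 n).le
  obtain ⟨ns, hns, hae⟩ := (tendstoInMeasure_of_tendsto_Lp hT).exists_seq_tendsto_ae
  have hcoe : ∀ᵐ x ∂P, ∀ n, (vec P (fun x => MX.cmb (En.W x) (w n) (Y x))) x =
      MX.cmb (En.W x) (w n) (Y x) (NB.dl 0) := ae_all_iff.2 fun n => (hF n).coe
  have hae2 : ∀ᵐ x ∂P, Tendsto (fun k => MX.cmb (En.W x) (w (ns k)) (Y x) (NB.dl 0)) atTop
      (𝓝 (y x)) := by
    filter_upwards [hae, hcoe] with x e1 e2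
    exact e1.congr fun k => e2 (ns k)
  have hconv := Fd.conv (En := En) hM (fun k => hF (ns k)) (hae2.mono fun x hx => ⟨_, hx⟩)
  have hZ := Fd.lim (En := En) hM (fun k => hF (ns k)) hconv
  refine ⟨_, hZ, ?_, fun k => w (ns k), ⟨fun k => w1 _, fun k => w2 _, fun S hS => ?_⟩, ?_⟩
  · have e : vec P (limF fun k x => MX.cmb (En.W x) (w (ns k)) (Y x)) = y := by
      apply Lp.ext
      have e0 : (vec P (limF fun k x => MX.cmb (En.W x) (w (ns k)) (Y x)) : X → L2 d) =ᵐ[P]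
        fun x => limF (fun k x => MX.cmb (En.W x) (w (ns k)) (Y x)) x (NB.dl 0) := hZ.coe
      refine e0.trans ?_
      filter_upwards [hconv, hae2] with x e1 e2
      exact tendsto_nhds_unique (limF_spec e1 (NB.dl 0)) e2
    rw [e]
    exact hy2
  · filter_upwards [(hns.tendsto_atTop).eventually (hB2 S hS)] with k hk s hs
    exact hk (w3 _ s hs)
  · filter_upwards [hconv] with x hx u
    exact limF_spec hx u

end Pool.Agent.T9h56.MX
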